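import Mathlib

/-!
# Transvections `1 + v φ` in `SL(n, R)`
-/

set_option autoImplicit false

namespace Pool.Agent.T2H86.TV

open Matrix

variable {n : ℕ} {R : Type*} [CommRing R]

/-- the determinant of a rank one perturbation of the identity -/
theorem det_one_add_vecMulVec (v φ : Fin n → R) : (1 + vecMulVec v φ).det = 1 + φ ⬝ᵥ v := by
  have h1 : vecMulVec v φ = replicateCol Unit v * replicateRow Unit φ := by
    ext i j
    simp [vecMulVec_apply, Matrix.mul_apply]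
  rw [h1, det_one_add_replicateCol_mul_replicateRow]

theorem sl_ext {g h : SpecialLinearGroup (Fin n) R}
    (e : (g : Matrix (Fin n) (Fin n) R) = (h : Matrix (Fin n) (Fin n) R)) : g = h :=
  Subtype.ext e

theorem sl_mul (g h : SpecialLinearGroup (Fin n) R) :
    ((g * h : SpecialLinearGroup (Fin n) R) : Matrix (Fin n) (Fin n) R) =
      (g : Matrix (Fin n) (Fin n) R) * (h : Matrix (Fin n) (Fin n) R) := rfl

/-- the transvection `1 + v φ`, where `φ v = 0` -/
def tv (v φ : Fin n → R) (h : φ ⬝ᵥ v = 0) : SpecialLinearGroup (Fin n) R :=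
  ⟨1 + vecMulVec v φ, by rw [det_one_add_vecMulVec, h, add_zero]⟩

@[simp] theorem tv_coe (v φ : Fin n → R) (h : φ ⬝ᵥ v = 0) :
    (tv v φ h : Matrix (Fin n) (Fin n) R) = 1 + vecMulVec v φ := rfl

theorem tv_congr {v w φ ψ : Fin n → R} (h : φ ⬝ᵥ v = 0) (h' : ψ ⬝ᵥ w = 0)
    (e : vecMulVec v φ = vecMulVec w ψ) : tv v φ h = tv w ψ h' := by
  apply sl_ext
  rw [tv_coe, tv_coe, e]

theorem tv_zero_left (φ : Fin n → R) (h : φ ⬝ᵥ (0 : Fin n → R) = 0) : tv 0 φ h = 1 := by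
  apply sl_ext
  rw [tv_coe, zero_vecMulVec, add_zero]
  rfl

theorem tv_zero_right (v : Fin n → R) (h : (0 : Fin n → R) ⬝ᵥ v = 0) : tv v 0 h = 1 := by
  apply sl_ext
  rw [tv_coe, vecMulVec_zero, add_zero]
  rfl

/-- same vector: `(1 + v φ)(1 + v ψ) = 1 + v (φ + ψ)` -/
theorem tv_mul_right (v φ ψ : Fin n → R) (h : φ ⬝ᵥ v = 0) (h' : ψ ⬝ᵥ v = 0)
    (h'' : (φ + ψ) ⬝ᵥ v = 0) : tv v φ h * tv v ψ h' = tv v (φ + ψ) h'' := by
  apply sl_ext
  rw [sl_mul, tv_coe, tv_coe, tv_coe, mul_add, mul_one, add_mul, one_mul,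
    vecMulVec_mul_vecMulVec, h, vecMulVec_add]
  simp
  abel

/-- same form: `(1 + v φ)(1 + w φ) = 1 + (v + w) φ` -/
theorem tv_mul_left (v w φ : Fin n → R) (h : φ ⬝ᵥ v = 0) (h' : φ ⬝ᵥ w = 0)
    (h'' : φ ⬝ᵥ (v + w) = 0) : tv v φ h * tv w φ h' = tv (v + w) φ h'' := by
  apply sl_ext
  rw [sl_mul, tv_coe, tv_coe, tv_coe, mul_add, mul_one, add_mul, one_mul,
    vecMulVec_mul_vecMulVec, h', add_vecMulVec]
  simp
  abel

theorem tv_inv (v φ : Fin n → R) (h : φ ⬝ᵥ v = 0) (h' : (-φ) ⬝ᵥ v = 0) :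
    (tv v φ h)⁻¹ = tv v (-φ) h' := by
  rw [inv_eq_iff_mul_eq_one, tv_mul_right v φ (-φ) h h' (by simp)]
  apply sl_ext
  rw [tv_coe, add_neg_cancel, vecMulVec_zero, add_zero]
  rfl

theorem tv_pow (v φ : Fin n → R) (h : φ ⬝ᵥ v = 0) (k : ℕ) (h' : ((k : R) • φ) ⬝ᵥ v = 0) :
    (tv v φ h) ^ k = tv v ((k : R) • φ) h' := by
  induction k with
  | zero =>
    apply sl_ext
    rw [tv_coe]
    simp
  | succ k ih =>
    have h1 : ((k : R) • φ) ⬝ᵥ v = 0 := by rw [smul_dotProduct, h, smul_zero]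
    rw [pow_succ, ih h1, tv_mul_right v _ φ h1 h (by rw [add_dotProduct, h1, h, add_zero])]
    apply tv_congr
    congr 1
    push_cast
    rw [add_smul, one_smul]

theorem tv_zpow (v φ : Fin n → R) (h : φ ⬝ᵥ v = 0) (k : ℤ) (h' : ((k : R) • φ) ⬝ᵥ v = 0) :
    (tv v φ h) ^ k = tv v ((k : R) • φ) h' := by
  cases k with
  | ofNat k =>
    have h1 : ((k : R) • φ) ⬝ᵥ v = 0 := by rw [smul_dotProduct, h, smul_zero]
    have h2 : tv v φ h ^ (Int.ofNat k) = tv v φ h ^ k := zpow_natCast _ _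
    rw [h2, tv_pow v φ h k h1]
    apply tv_congr
    simp
  | negSucc k =>
    have h1 : (((k + 1 : ℕ) : R) • φ) ⬝ᵥ v = 0 := by rw [smul_dotProduct, h, smul_zero]
    rw [zpow_negSucc, tv_pow v φ h (k + 1) h1, tv_inv _ _ h1 (by rw [neg_dotProduct, h1, neg_zero])]
    apply tv_congr
    congr 1
    rw [← neg_smul]
    congr 1
    push_cast
    ring

theorem coe_inv_mul (g : SpecialLinearGroup (Fin n) R) :
    ((g⁻¹ : SpecialLinearGroup (Fin n) R) : Matrix (Fin n) (Fin n) R) *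
      (g : Matrix (Fin n) (Fin n) R) = 1 :=
  congrArg (fun x : SpecialLinearGroup (Fin n) R => (x : Matrix (Fin n) (Fin n) R))
    (inv_mul_cancel g)

theorem coe_mul_inv (g : SpecialLinearGroup (Fin n) R) :
    (g : Matrix (Fin n) (Fin n) R) *
      ((g⁻¹ : SpecialLinearGroup (Fin n) R) : Matrix (Fin n) (Fin n) R) = 1 :=
  congrArg (fun x : SpecialLinearGroup (Fin n) R => (x : Matrix (Fin n) (Fin n) R))
    (mul_inv_cancel g)

/-- the image of a vector -/
def act (g : SpecialLinearGroup (Fin n) R) (v : Fin n → R) : Fin n → R :=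
  (g : Matrix (Fin n) (Fin n) R) *ᵥ v

/-- the image `φ g⁻¹` of a form -/
def cact (g : SpecialLinearGroup (Fin n) R) (φ : Fin n → R) : Fin n → R :=
  φ ᵥ* ((g⁻¹ : SpecialLinearGroup (Fin n) R) : Matrix (Fin n) (Fin n) R)

theorem cact_dot_act (g : SpecialLinearGroup (Fin n) R) (v φ : Fin n → R) :
    cact g φ ⬝ᵥ act g v = φ ⬝ᵥ v := by
  rw [cact, act, ← dotProduct_mulVec, mulVec_mulVec, coe_inv_mul, one_mulVec]

theorem cact_dot (g : SpecialLinearGroup (Fin n) R) (v φ : Fin n → R) :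
    cact g φ ⬝ᵥ v = φ ⬝ᵥ act g⁻¹ v := by
  rw [cact, act, dotProduct_mulVec]

theorem act_one (v : Fin n → R) : act 1 v = v := by
  show (1 : Matrix (Fin n) (Fin n) R) *ᵥ v = v
  rw [one_mulVec]

theorem cact_one (φ : Fin n → R) : cact 1 φ = φ := by
  rw [cact, inv_one]
  show φ ᵥ* (1 : Matrix (Fin n) (Fin n) R) = φ
  rw [vecMul_one]

theorem act_mul (g h : SpecialLinearGroup (Fin n) R) (v : Fin n → R) :
    act (g * h) v = act g (act h v) := by
  rw [act, act, act, mulVec_mulVec]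
  rfl

theorem cact_mul (g h : SpecialLinearGroup (Fin n) R) (φ : Fin n → R) :
    cact (g * h) φ = cact g (cact h φ) := by
  rw [cact, cact, cact, vecMul_vecMul, _root_.mul_inv_rev]
  rfl

theorem act_inv_act (g : SpecialLinearGroup (Fin n) R) (v : Fin n → R) : act g⁻¹ (act g v) = v := by
  rw [← act_mul, inv_mul_cancel, act_one]

theorem act_act_inv (g : SpecialLinearGroup (Fin n) R) (v : Fin n → R) : act g (act g⁻¹ v) = v := by
  rw [← act_mul, mul_inv_cancel, act_one]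

theorem act_add (g : SpecialLinearGroup (Fin n) R) (v w : Fin n → R) :
    act g (v + w) = act g v + act g w := by rw [act, act, act, mulVec_add]

theorem act_smul (g : SpecialLinearGroup (Fin n) R) (c : R) (v : Fin n → R) :
    act g (c • v) = c • act g v := by rw [act, act, mulVec_smul]

theorem cact_add (g : SpecialLinearGroup (Fin n) R) (φ ψ : Fin n → R) :
    cact g (φ + ψ) = cact g φ + cact g ψ := by rw [cact, cact, cact, add_vecMul]

theorem cact_smul (g : SpecialLinearGroup (Fin n) R) (c : R) (φ : Fin n → R) :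
    cact g (c • φ) = c • cact g φ := by rw [cact, cact, smul_vecMul]

theorem act_tv (v φ : Fin n → R) (h : φ ⬝ᵥ v = 0) (w : Fin n → R) :
    act (tv v φ h) w = w + (φ ⬝ᵥ w) • v := by
  rw [act, tv_coe, add_mulVec, one_mulVec, vecMulVec_mulVec]
  congr 1
  ext i
  simp [mul_comm]

theorem cact_tv (v φ : Fin n → R) (h : φ ⬝ᵥ v = 0) (ψ : Fin n → R) :
    cact (tv v φ h) ψ = ψ - (ψ ⬝ᵥ v) • φ := by
  rw [cact, tv_inv v φ h (by rw [neg_dotProduct, h, neg_zero]), tv_coe, vecMul_add, vecMul_one,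
    vecMul_vecMulVec, sub_eq_add_neg, smul_neg]

/-- conjugation -/
theorem conj_tv (g : SpecialLinearGroup (Fin n) R) (v φ : Fin n → R) (h : φ ⬝ᵥ v = 0)
    (h' : cact g φ ⬝ᵥ act g v = 0) :
    g * tv v φ h * g⁻¹ = tv (act g v) (cact g φ) h' := by
  apply sl_ext
  rw [sl_mul, sl_mul, tv_coe, tv_coe, mul_add, add_mul,
    mul_one, mul_vecMulVec, vecMulVec_mul, coe_mul_inv]
  rfl

/-- elementary matrices are transvections -/
theorem elem_eq {i j : Fin n} (h : i ≠ j) (c : R)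
    (h' : (Pi.single j c : Fin n → R) ⬝ᵥ (Pi.single i 1) = 0) :
    (SpecialLinearGroup.transvection h c : SpecialLinearGroup (Fin n) R) =
      tv (Pi.single i 1) (Pi.single j c) h' := by
  apply sl_ext
  rw [SpecialLinearGroup.transvection_coe, tv_coe]
  congr 1
  ext a b
  rw [vecMulVec_apply, single_apply, Pi.single_apply, Pi.single_apply]
  by_cases h1 : i = a <;> by_cases h2 : j = b <;> simp [h1, h2, eq_comm]

theorem single_dot_single {i j : Fin n} (h : i ≠ j) (c d : R) :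
    (Pi.single j c : Fin n → R) ⬝ᵥ (Pi.single i d) = 0 := by
  rw [single_dotProduct, Pi.single_eq_of_ne h.symm, mul_zero]

end Pool.Agent.T2H86.TV
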