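import Pool.Agent.T2H86.TV.Plane

/-!
# Integral transvections
-/

set_option autoImplicit false

namespace Pool.Agent.T2H86.TV

open Matrix

variable {n : ℕ} {H : Subgroup (SpecialLinearGroup (Fin n) ℤ)}

/-- the rational vector of an integral vector -/
def cst (v : Fin n → ℤ) : Fin n → ℚ := fun i => (v i : ℚ)

theorem cst_dot (v w : Fin n → ℤ) : cst v ⬝ᵥ cst w = ((v ⬝ᵥ w : ℤ) : ℚ) := by
  simp [cst, dotProduct]

theorem cst_ne_zero {v : Fin n → ℤ} (hv : v ≠ 0) : cst v ≠ 0 := by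
  intro h
  apply hv
  ext i
  have := congrFun h i
  simpa [cst] using this

theorem dot_zero_of_eq {g : SpecialLinearGroup (Fin n) ℤ} {v φ : Fin n → ℤ}
    (h : (g : Matrix (Fin n) (Fin n) ℤ) = 1 + vecMulVec v φ) : φ ⬝ᵥ v = 0 := by
  have h1 := g.det_coe
  rw [h, det_one_add_vecMulVec] at h1
  linarith

theorem toQ_eq {g : SpecialLinearGroup (Fin n) ℤ} {v φ : Fin n → ℤ}
    (h : (g : Matrix (Fin n) (Fin n) ℤ) = 1 + vecMulVec v φ) (h' : cst φ ⬝ᵥ cst v = 0) :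
    toQ g = tv (cst v) (cst φ) h' := by
  apply sl_ext
  ext i j
  rw [toQ_coe, h, tv_coe, Matrix.add_apply, Matrix.add_apply, vecMulVec_apply, vecMulVec_apply]
  simp only [cst, Matrix.one_apply]
  push_cast
  split_ifs <;> rfl

theorem Tr_of_mem {g : SpecialLinearGroup (Fin n) ℤ} (hg : g ∈ H) {v φ : Fin n → ℤ}
    (h : (g : Matrix (Fin n) (Fin n) ℤ) = 1 + vecMulVec v φ) : Tr H (cst v) (cst φ) := by
  have h' : cst φ ⬝ᵥ cst v = 0 := by rw [cst_dot, dot_zero_of_eq h, Int.cast_zero]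
  exact Tr_of_act hg h' fun z => by rw [toQ_eq h h', act_tv]

theorem trace_mul {s t : SpecialLinearGroup (Fin n) ℤ} {v φ w ψ : Fin n → ℤ}
    (hs : (s : Matrix (Fin n) (Fin n) ℤ) = 1 + vecMulVec v φ)
    (ht : (t : Matrix (Fin n) (Fin n) ℤ) = 1 + vecMulVec w ψ) :
    ((s * t : SpecialLinearGroup (Fin n) ℤ) : Matrix (Fin n) (Fin n) ℤ).trace - n =
      (φ ⬝ᵥ w) * (ψ ⬝ᵥ v) := by
  rw [sl_mul, hs, ht, mul_add, mul_one, add_mul, one_mul, vecMulVec_mul_vecMulVec, trace_add,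
    trace_add, trace_add, trace_one, trace_vecMulVec, trace_vecMulVec, trace_vecMulVec,
    dotProduct_comm v φ, dotProduct_comm w ψ, dot_zero_of_eq hs, dot_zero_of_eq ht,
    dotProduct_smul, Fintype.card_fin, dotProduct_comm v ψ]
  simp

/-- commensurable transvections -/
theorem not_commensurable {s t : SpecialLinearGroup (Fin n) ℤ} {v φ w ψ : Fin n → ℤ}
    (hs : (s : Matrix (Fin n) (Fin n) ℤ) = 1 + vecMulVec v φ)
    (ht : (t : Matrix (Fin n) (Fin n) ℤ) = 1 + vecMulVec w ψ)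
    (hst : ∀ a b : ℤ, s ^ a = t ^ b → a = 0 ∧ b = 0) :
    ¬ (cst w ∈ Submodule.span ℚ {cst v} ∧ cst ψ ∈ Submodule.span ℚ {cst φ}) := by
  rintro ⟨h1, h2⟩
  obtain ⟨α, hα⟩ := Submodule.mem_span_singleton.1 h1
  obtain ⟨β, hβ⟩ := Submodule.mem_span_singleton.1 h2
  have es : s = tv v φ (dot_zero_of_eq hs) := sl_ext hs
  have et : t = tv w ψ (dot_zero_of_eq ht) := sl_ext ht
  have k1 : (((α * β).num : ℤ) • φ) ⬝ᵥ v = 0 := by
    rw [smul_dotProduct, dot_zero_of_eq hs, smul_zero]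
  have k2 : (((α * β).den : ℤ) • ψ) ⬝ᵥ w = 0 := by
    rw [smul_dotProduct, dot_zero_of_eq ht, smul_zero]
  have e1 : s ^ (α * β).num = tv v (((α * β).num : ℤ) • φ) k1 := by
    rw [es, tv_zpow (R := ℤ) v φ _ _ (by simpa using k1)]
    apply tv_congr
    simp
  have e2 : t ^ (((α * β).den : ℕ) : ℤ) = tv w (((α * β).den : ℤ) • ψ) k2 := by
    rw [et, tv_zpow (R := ℤ) w ψ _ _ (by simpa using k2)]
    apply tv_congr
    simp
  have h3 : s ^ (α * β).num = t ^ (((α * β).den : ℕ) : ℤ) := by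
    rw [e1, e2]
    apply tv_congr
    ext i j
    rw [vecMulVec_apply, vecMulVec_apply, Pi.smul_apply, Pi.smul_apply, smul_eq_mul, smul_eq_mul]
    have h4 : (v i : ℚ) * (((α * β).num : ℤ) * (φ j : ℚ)) = (w i : ℚ) * (((α * β).den : ℕ) * (ψ j : ℚ)) := by
      have h5 : (w i : ℚ) = α * v i := (congrFun hα i).symm
      have h6 : (ψ j : ℚ) = β * φ j := (congrFun hβ j).symm
      have h7 : (α * β) * ((α * β).den : ℚ) = (α * β).num := Rat.mul_den_eq_num _
      rw [h5, h6, ← h7]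
      ring
    exact_mod_cast h4
  have h4 := (hst _ _ h3).2
  have h5 := (α * β).den_pos
  omega

/-- two close transvections -/
theorem good_of_close (hn : 3 ≤ n) (hH : ZariskiDense H) {s t : SpecialLinearGroup (Fin n) ℤ}
    (hsH : s ∈ H) (htH : t ∈ H) {v φ w ψ : Fin n → ℤ} (hv : v ≠ 0) (hφ : φ ≠ 0) (hw : w ≠ 0)
    (hψ : ψ ≠ 0) (hs : (s : Matrix (Fin n) (Fin n) ℤ) = 1 + vecMulVec v φ)
    (ht : (t : Matrix (Fin n) (Fin n) ℤ) = 1 + vecMulVec w ψ)
    (hst : ∀ a b : ℤ, s ^ a = t ^ b → a = 0 ∧ b = 0)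
    (htr : |((s * t : SpecialLinearGroup (Fin n) ℤ) : Matrix (Fin n) (Fin n) ℤ).trace - n| ≤ 4) :
    Good H := by
  rw [trace_mul hs ht] at htr
  set c : ℤ := (φ ⬝ᵥ w) * (ψ ⬝ᵥ v) with hc
  have h1 : cst φ ⬝ᵥ cst v = 0 := by rw [cst_dot, dot_zero_of_eq hs, Int.cast_zero]
  have h2 : cst ψ ⬝ᵥ cst w = 0 := by rw [cst_dot, dot_zero_of_eq ht, Int.cast_zero]
  have hc' : (cst φ ⬝ᵥ cst w) * (cst ψ ⬝ᵥ cst v) = c := by
    rw [cst_dot, cst_dot, hc]; push_cast; rfl
  by_cases hc0 : c = 0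
  · exact pair_case (by omega) hH (cst_ne_zero hv) (cst_ne_zero hw) (cst_ne_zero hφ)
      (cst_ne_zero hψ) (Tr_of_mem hsH hs) (Tr_of_mem htH ht) (not_commensurable hs ht hst)
      (by rw [hc', hc0, Int.cast_zero])
  · have ha : cst φ ⬝ᵥ cst w ≠ 0 := by
      intro h
      rw [h, zero_mul] at hc'
      exact hc0 (by exact_mod_cast hc'.symm)
    refine good_of_plane hn hH (cst_ne_zero hv) (notMem_span_singleton (cst φ) h1 ha) ?_
    intro p q hpq
    set a := cst φ ⬝ᵥ cst w with hadef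
    have hm0 : ((p / a).den : ℚ) * q.den ≠ 0 :=
      mul_ne_zero (by exact_mod_cast (p / a).den_nz) (by exact_mod_cast q.den_nz)
    have key := close_dir hsH htH h1 h2 (toQ_eq hs h1) (toQ_eq ht h2) c hc' hc0 htr
      (cst_ne_zero hφ) (cst_ne_zero hψ) ((q.num * (p / a).den).natAbs)
      ((p / a).num * q.den) (q.num * (p / a).den) le_rfl ?_
    · have h3 := key.smul (((p / a).den : ℚ) * q.den)⁻¹
      convert h3 using 1
      rw [smul_add, smul_smul, smul_smul, ← hadef]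
      push_cast
      have h4 : (p / a) * ((p / a).den : ℚ) = (p / a).num := Rat.mul_den_eq_num _
      have h5 : q * (q.den : ℚ) = q.num := Rat.mul_den_eq_num _
      rw [← h4, ← h5]
      congr 2
      · field_simp
      · field_simp
    · by_cases hp : p = 0
      · right
        have hq : q ≠ 0 := by
          rintro rfl
          exact hpq (by rw [hp])
        exact mul_ne_zero (Rat.num_ne_zero.2 hq) (by exact_mod_cast (p / a).den_nz)
      · left
        exact mul_ne_zero (Rat.num_ne_zero.2 (div_ne_zero hp ha)) (by exact_mod_cast q.den_nz)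

end Pool.Agent.T2H86.TV
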