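import Pool.Agent.T2H86.TV.Close

/-!
# The corner `SL(2, ℤ)`
-/

set_option autoImplicit false

namespace Pool.Agent.T2H86.TV

open Matrix

variable {n : ℕ} {H : Subgroup (SpecialLinearGroup (Fin n) ℤ)}

theorem cdot {i j : Fin n} (hij : i ≠ j) (p q : ℤ) :
    (Pi.single i (-q) + Pi.single j p : Fin n → ℤ) ⬝ᵥ (Pi.single i p + Pi.single j q) = 0 := by
  rw [add_dotProduct, dotProduct_add, dotProduct_add]
  simp only [single_dotProduct, Pi.single_eq_same, Pi.single_eq_of_ne hij, Pi.single_eq_of_ne hij.symm]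
  ring

theorem good_of_corner (hn : 3 ≤ n) (hH : ZariskiDense H) {i j : Fin n} (hij : i ≠ j)
    (hc : ∀ p q : ℤ, (p ≠ 0 ∨ q ≠ 0) → ∃ k : ℕ, 0 < k ∧
      (tv (Pi.single i p + Pi.single j q) (Pi.single i (-q) + Pi.single j p) (cdot hij p q)) ^ k ∈ H) :
    Good H := by
  have hi0 : (Pi.single i 1 : Fin n → ℚ) ≠ 0 := by
    intro h
    have := congrFun h i
    simp at this
  have hj : (Pi.single j 1 : Fin n → ℚ) ∉ Submodule.span ℚ {(Pi.single i 1 : Fin n → ℚ)} := by
    intro h
    obtain ⟨c, hc⟩ := Submodule.mem_span_singleton.1 h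
    have := congrFun hc j
    simp [Pi.single_eq_of_ne hij.symm] at this
  have hint : ∀ p q : ℤ, (p ≠ 0 ∨ q ≠ 0) →
      Dir H ((p : ℚ) • (Pi.single i 1 : Fin n → ℚ) + (q : ℚ) • (Pi.single j 1 : Fin n → ℚ)) := by
    intro p q hpq
    obtain ⟨k, hk, hkH⟩ := hc p q hpq
    set x : Fin n → ℤ := Pi.single i p + Pi.single j q with hx
    set χ : Fin n → ℤ := Pi.single i (-q) + Pi.single j p with hχ
    have hχ0 : cst χ ≠ 0 := by
      apply cst_ne_zero
      intro h
      have h1 := congrFun h i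
      have h2 := congrFun h j
      simp [hχ, Pi.single_eq_of_ne hij, Pi.single_eq_of_ne hij.symm] at h1 h2
      rcases hpq with h3 | h3
      · exact h3 h2
      · exact h3 h1
    have h0 : cst χ ⬝ᵥ cst x = 0 := by rw [cst_dot, cdot hij, Int.cast_zero]
    have hxe : cst x = (p : ℚ) • (Pi.single i 1 : Fin n → ℚ) + (q : ℚ) • (Pi.single j 1 : Fin n → ℚ) := by
      ext l
      simp only [cst, hx, Pi.add_apply, Pi.smul_apply, Pi.single_apply, smul_eq_mul]
      push_cast
      split_ifs <;> simp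
    rw [← hxe]
    refine ⟨cst χ, hχ0, Tr.of_tv h0 hk hkH ?_⟩
    rw [map_pow, toQ_eq (tv_coe _ _ _) h0, tv_pow _ _ _ _ (dot_smul_zero h0 _)]
  refine good_of_plane hn hH hi0 hj ?_
  intro p q hpq
  have h1 := (hint (p.num * q.den) (q.num * p.den) ?_).smul ((p.den : ℚ) * q.den)⁻¹
  · convert h1 using 1
    rw [smul_add, smul_smul, smul_smul]
    push_cast
    have h4 : p * (p.den : ℚ) = p.num := Rat.mul_den_eq_num _
    have h5 : q * (q.den : ℚ) = q.num := Rat.mul_den_eq_num _
    have hp0 : (p.den : ℚ) ≠ 0 := by exact_mod_cast p.den_nz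
    have hq0 : (q.den : ℚ) ≠ 0 := by exact_mod_cast q.den_nz
    rw [← h4, ← h5]
    congr 2
    · field_simp
    · field_simp
  · by_cases hp : p = 0
    · right
      have hq : q ≠ 0 := by
        rintro rfl
        exact hpq (by rw [hp])
      exact mul_ne_zero (Rat.num_ne_zero.2 hq) (by exact_mod_cast p.den_nz)
    · left
      exact mul_ne_zero (Rat.num_ne_zero.2 hp) (by exact_mod_cast q.den_nz)

end Pool.Agent.T2H86.TV
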