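import Pool.Agent.T2H86.TV.PackE

/-!
# Package F: the normal closure of the `E_ij(M)` has finite index in `SL(n, ℤ)`, `n ≥ 3`

Notation `Γ = SL(n,ℤ)`, `𝔼 = normalClosure {E_ij(M)}`, `Γ(M) = ker (SL(n,ℤ) → SL(n,ℤ/M))`.

(0) `𝔼 ≤ Γ(M)`, `Γ(M)` has finite index (the target is a finite group), `E_ij(M c) ∈ 𝔼`
  (powers, `SpecialLinearGroup.transvection_add`).

(1) Transitivity. Let `i : Fin n`, `v : Fin n → ℤ` with `ρ ⬝ᵥ v = 1` for some `ρ : Fin n → ℤ`,
  `v_i ≡ 1`, `v_l ≡ 0 (mod M)` for `l ≠ i`. Then there is `ε ∈ 𝔼` with `ε v = e_i`.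
  Proof. Choose `j, k` with `i, j, k` distinct.  `a := v_i ≠ 0` because `a ≡ 1 (mod M)`, `M ≥ 2`.
  Write `v_l = M b_l` for `l ≠ i`.  `gcd(a, M) = 1`, `gcd(a, b_l (l ≠ i)) = 1`.
  (1a) With `E_{jl}(M c_l) ∈ 𝔼`, `l ≠ i, j`: `b_j` becomes `b_j + M ∑ c_l b_l`.
     Choose `c` with `gcd (a, b_j + M ∑ c_l b_l) = 1`: let `d = gcd (b_l : l ≠ i, j)`, a combination
     of the `b_l`; `gcd(a, b_j, M d) = 1`, and then there is `t` with `gcd (a, b_j + t M d) = 1`
     (take `t = ∏` of the primes dividing `a` but not `b_j`; here `a ≠ 0` is used).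
     (Or one `l` at a time: keep the gcd of the remaining ones.)
  (1b) Now `gcd (a, v_j) = 1`.  With `E_{ki}(M x) E_{kj}(M y) ∈ 𝔼` the entry `v_k` becomes
     `v_k + M (x a + y v_j)`, so it can be made equal to `1 - a` (as `M ∣ 1 - a - v_k`).
  (1c) `E_{ik}(1)` (not in `𝔼`) makes `v_i = 1`; then the `E_{li}(- v_l) ∈ 𝔼`, `l ≠ i`, make the
     vector `e_i`; finally `E_{ik}(-1) e_i = e_i`.  So `ε = E_{ik}(-1) (∏ E_{li}(-v_l)) E_{ik}(1) ⋯`,
     which is in `𝔼` since `𝔼` is normal.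

(2) Centrality. For `g ∈ Γ(M)` and `i ≠ j`:  `g E_ij(1) g⁻¹ E_ij(1)⁻¹ ∈ 𝔼`.
  `g E_ij(1) g⁻¹ = tv v φ` with `v = g e_i`, `φ = e_j^* g⁻¹` (`conj_tv`). By (1) (with `ρ = e_i^* g⁻¹`)
  there is `ε ∈ 𝔼`, `ε v = e_i`; `ε (g E_ij(1) g⁻¹) ε⁻¹ = tv e_i φ'` with `φ' = φ ε⁻¹ ≡ e_j^* (mod M)`,
  `φ'_i = 0`; `tv e_i φ' = E_ij(1) * tv e_i (φ' - e_j^*)` and
  `tv e_i (M χ) = ∏_l E_il(M χ_l) ∈ 𝔼`.  So modulo `𝔼` the two are equal.

(3) In `Q = Γ ⧸ 𝔼` the image of `Γ(M)` commutes with the images of all `E_ij(c) = E_ij(1)^c`, which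
  generate `Γ` (`closure_elem`), so it is contained in the centre: the centre of `Q` has finite index.
  Hence `commutatorSet Q` is finite (commutators depend only on classes mod the centre), and
  `commutator Q` is finite (Schur; instance in `Mathlib/GroupTheory/Schreier.lean`).
  `Q` is perfect, as `E_ij(c) = ⁅E_ik(c), E_kj(1)⁆` and `n ≥ 3`.  So `Q` is finite. ∎
-/

set_option autoImplicit false

namespace Pool.Agent.T2H86.TV

open Matrix

namespace PkgF

open scoped commutatorElement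

variable {n : ℕ}

/-- `SL(n, ℤ)` -/
abbrev G (n : ℕ) := SpecialLinearGroup (Fin n) ℤ

/-- the normal closure of the `E_ij(M)` -/
def NC (n : ℕ) (M : ℤ) : Subgroup (G n) :=
  Subgroup.normalClosure {g : SpecialLinearGroup (Fin n) ℤ |
      ∃ (i j : Fin n) (h : i ≠ j), g = SpecialLinearGroup.transvection h M}

instance (M : ℤ) : (NC n M).Normal := Subgroup.normalClosure_normal

/-- a basis vector -/
def bv (i : Fin n) : Fin n → ℤ := Pi.single i 1

theorem bv_self (i : Fin n) : bv i i = 1 := by simp [bv]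

theorem bv_ne {i l : Fin n} (h : l ≠ i) : bv i l = 0 := by simp [bv, h]

theorem act_el {i j : Fin n} (h : i ≠ j) (c : ℤ) (v : Fin n → ℤ) :
    act (SpecialLinearGroup.transvection h c) v = v + (c * v j) • bv i := by
  rw [elem_eq h c (single_dot_single h _ _), act_tv, single_dotProduct]
  rfl

theorem zpow_el {i j : Fin n} (h : i ≠ j) (c d : ℤ) :
    (SpecialLinearGroup.transvection h c : G n) ^ d = SpecialLinearGroup.transvection h (d * c) := by
  rw [elem_eq h c (single_dot_single h _ _), elem_eq h (d * c) (single_dot_single h _ _),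
    tv_zpow _ _ _ d (by rw [smul_dotProduct, single_dot_single h, smul_zero])]
  apply tv_congr
  congr 1
  ext l
  rw [Pi.smul_apply, Pi.single_apply, Pi.single_apply]
  split_ifs <;> simp

theorem el_mem {M : ℤ} {i j : Fin n} (h : i ≠ j) {c : ℤ} (hc : M ∣ c) :
    (SpecialLinearGroup.transvection h c : G n) ∈ NC n M := by
  obtain ⟨d, rfl⟩ := hc
  have h1 : (SpecialLinearGroup.transvection h M : G n) ∈ NC n M := by
    unfold NC
    exact Subgroup.subset_normalClosure ⟨i, j, h, rfl⟩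
  rw [mul_comm, ← zpow_el h M d]
  exact Subgroup.zpow_mem _ h1 d

/-- `w` is in the orbit of `v` -/
def Reach (M : ℤ) (v w : Fin n → ℤ) : Prop := ∃ g ∈ NC n M, act g v = w

theorem Reach.refl {M : ℤ} (v : Fin n → ℤ) : Reach M v v :=
  ⟨1, Subgroup.one_mem _, act_one v⟩

theorem Reach.trans {M : ℤ} {u v w : Fin n → ℤ} (h : Reach M u v) (h' : Reach M v w) :
    Reach M u w := by
  obtain ⟨g, hg, rfl⟩ := h
  obtain ⟨g', hg', rfl⟩ := h'
  exact ⟨g' * g, Subgroup.mul_mem _ hg' hg, act_mul g' g u⟩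

theorem Reach.conj {M : ℤ} {v w : Fin n → ℤ} (g : G n) (h : Reach M (act g v) (act g w)) :
    Reach M v w := by
  obtain ⟨e, he, h1⟩ := h
  refine ⟨g⁻¹ * e * g, ?_, ?_⟩
  · have := (inferInstance : (NC n M).Normal).conj_mem e he g⁻¹
    rwa [inv_inv] at this
  · rw [act_mul, act_mul, h1, act_inv_act]

theorem Reach.step {M : ℤ} {i j : Fin n} (h : i ≠ j) {c : ℤ} (hc : M ∣ c) (v : Fin n → ℤ) :
    Reach M v (v + (c * v j) • bv i) :=
  ⟨_, el_mem h hc, act_el h c v⟩

/-- several multiples of `M v_l` are added to the entry `j` -/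
theorem reach_sum {M : ℤ} {j : Fin n} (S : Finset (Fin n)) (hS : j ∉ S) (c : Fin n → ℤ)
    (v : Fin n → ℤ) : Reach M v (v + (∑ l ∈ S, M * c l * v l) • bv j) := by
  classical
  induction S using Finset.induction_on with
  | empty => simpa using Reach.refl v
  | insert l S hl ih =>
    have hjl : j ≠ l := fun h => hS (by rw [h]; exact Finset.mem_insert_self _ _)
    have hjS : j ∉ S := fun h => hS (Finset.mem_insert_of_mem h)
    refine (ih hjS).trans ?_
    have h1 := Reach.step (M := M) hjl (dvd_mul_right M (c l))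
      (v + (∑ l ∈ S, M * c l * v l) • bv j)
    have h2 : (v + (∑ l ∈ S, M * c l * v l) • bv j) l = v l := by
      rw [Pi.add_apply, Pi.smul_apply, bv_ne hjl.symm, smul_zero, add_zero]
    rw [h2] at h1
    have h3 : v + (∑ l ∈ S, M * c l * v l) • bv j + (M * c l * v l) • bv j =
        v + (∑ l ∈ insert l S, M * c l * v l) • bv j := by
      rw [Finset.sum_insert hl, add_assoc, ← add_smul]
      congr 2
      ring
    rwa [h3] at h1

/-- the entries in `S` are cleared -/
theorem reach_clear {M : ℤ} {i : Fin n} (S : Finset (Fin n)) (hS : i ∉ S) (w : Fin n → ℤ)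
    (hw : w i = 1) (hd : ∀ l, l ≠ i → M ∣ w l) :
    Reach M w (fun l => if l ∈ S then 0 else w l) := by
  classical
  induction S using Finset.induction_on with
  | empty => simpa using Reach.refl w
  | insert l S hl ih =>
    have hil : i ≠ l := fun h => hS (by rw [h]; exact Finset.mem_insert_self _ _)
    have hiS : i ∉ S := fun h => hS (Finset.mem_insert_of_mem h)
    refine (ih hiS).trans ?_
    have h1 := Reach.step (M := M) hil.symm ((dvd_neg (b := w l)).2 (hd l hil.symm))
      (fun l => if l ∈ S then 0 else w l)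
    have h3 : (fun l => if l ∈ S then 0 else w l) +
        (-w l * (if i ∈ S then 0 else w i)) • bv l =
        fun l' => if l' ∈ insert l S then 0 else w l' := by
      funext m
      rw [Pi.add_apply, Pi.smul_apply, if_neg hiS, hw, mul_one]
      by_cases hm : m = l
      · rw [hm, bv_self, if_neg hl, if_pos (Finset.mem_insert_self _ _)]
        simp
      · rw [bv_ne hm]
        simp [Finset.mem_insert, hm]
    rwa [h3] at h1

theorem exists_coprime {a x y : ℤ} (ha : a ≠ 0) (h : ∀ p : ℕ, p.Prime → (p : ℤ) ∣ a →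
    (p : ℤ) ∣ x → ¬ (p : ℤ) ∣ y) : ∃ t : ℤ, IsCoprime a (x + t * y) := by
  classical
  obtain ⟨P, hP⟩ : ∃ P : ℕ, P = ∏ p ∈ a.natAbs.primeFactors.filter (fun p : ℕ => ¬ (p : ℤ) ∣ x), p :=
    ⟨_, rfl⟩
  refine ⟨P, ?_⟩
  rw [Int.isCoprime_iff_gcd_eq_one]
  by_contra hne
  obtain ⟨p, hp, hpd⟩ := Nat.exists_prime_and_dvd hne
  have hpa : (p : ℤ) ∣ a := (Int.natCast_dvd_natCast.2 hpd).trans (Int.gcd_dvd_left _ _)
  have hps : (p : ℤ) ∣ x + P * y := (Int.natCast_dvd_natCast.2 hpd).trans (Int.gcd_dvd_right _ _)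
  have hpp : Prime (p : ℤ) := Nat.prime_iff_prime_int.1 hp
  by_cases hx : (p : ℤ) ∣ x
  · have h1 : (p : ℤ) ∣ P * y := (dvd_add_right hx).1 hps
    rcases hpp.dvd_or_dvd h1 with h2 | h2
    · have h3 : p ∣ P := Int.natCast_dvd_natCast.1 h2
      rw [hP] at h3
      obtain ⟨q, hq, hpq⟩ := (Prime.dvd_finsetProd_iff hp.prime _).1 h3
      rw [Finset.mem_filter] at hq
      have hqp : q.Prime := Nat.prime_of_mem_primeFactors hq.1
      have : p = q := (Nat.prime_dvd_prime_iff_eq hp hqp).1 hpq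
      rw [← this] at hq
      exact hq.2 hx
    · exact h p hp hpa hx h2
  · have h3 : p ∈ a.natAbs.primeFactors.filter (fun p : ℕ => ¬ (p : ℤ) ∣ x) := by
      rw [Finset.mem_filter]
      exact ⟨Nat.mem_primeFactors.2 ⟨hp, Int.natCast_dvd.1 hpa, Int.natAbs_ne_zero.2 ha⟩, hx⟩
    have h4 : (p : ℤ) ∣ P := by
      rw [hP]
      exact Int.natCast_dvd_natCast.2 (Finset.dvd_prod_of_mem _ h3)
    exact hx ((dvd_add_left (h4.mul_right y)).1 hps)

/-- **Transitivity.** -/
theorem transit (hn : 3 ≤ n) {M : ℤ} (hM : 2 ≤ M) (i : Fin n) (v ρ : Fin n → ℤ)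
    (hρ : ρ ⬝ᵥ v = 1) (hvi : M ∣ v i - 1) (hv : ∀ l, l ≠ i → M ∣ v l) : Reach M v (bv i) := by
  classical
  obtain ⟨j, hji⟩ : ∃ j : Fin n, j ≠ i := by
    have : Nontrivial (Fin n) := Fin.nontrivial_iff_two_le.2 (by omega)
    exact exists_ne i
  obtain ⟨k, hki, hkj⟩ : ∃ k : Fin n, k ≠ i ∧ k ≠ j := by
    have h1 : (({i, j} : Finset (Fin n)).card) < Fintype.card (Fin n) := by
      rw [Fintype.card_fin]
      exact lt_of_le_of_lt Finset.card_le_two (by omega)
    obtain ⟨k, hk⟩ := Finset.exists_mem_notMem_of_card_lt_card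
      (s := ({i, j} : Finset (Fin n))) (t := Finset.univ) (by rwa [Finset.card_univ])
    simp only [Finset.mem_insert, Finset.mem_singleton, not_or] at hk
    exact ⟨k, hk.2.1, hk.2.2⟩
  have hvi0 : v i ≠ 0 := by
    intro h
    rw [h, zero_sub, dvd_neg] at hvi
    have := Int.le_of_dvd one_pos hvi
    omega
  -- the combination
  obtain ⟨S, hSdef⟩ : ∃ S : Finset (Fin n), S = (Finset.univ.erase i).erase j := ⟨_, rfl⟩
  have hjS : j ∉ S := by rw [hSdef]; exact Finset.notMem_erase _ _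
  obtain ⟨D, hD⟩ : ∃ D, D = ∑ l ∈ S, ρ l * v l := ⟨_, rfl⟩
  have hrel : ρ i * v i + (ρ j * v j + D) = 1 := by
    rw [← hρ, dotProduct, ← Finset.add_sum_erase _ _ (Finset.mem_univ i), hD, hSdef,
      Finset.add_sum_erase _ (fun l => ρ l * v l)
        (Finset.mem_erase.2 ⟨hji, Finset.mem_univ j⟩)]
  obtain ⟨t, ht⟩ : ∃ t : ℤ, IsCoprime (v i) (v j + t * (M * D)) := by
    refine exists_coprime hvi0 fun p hp hpa hpx hpy => ?_
    have hpp : Prime (p : ℤ) := Nat.prime_iff_prime_int.1 hp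
    have hp1 : ¬ (p : ℤ) ∣ 1 := fun h => hpp.not_isUnit (isUnit_of_dvd_one h)
    rcases hpp.dvd_or_dvd hpy with h1 | h1
    · apply hp1
      have h2 := (dvd_sub hpa (h1.trans hvi))
      rwa [sub_sub_cancel] at h2
    · apply hp1
      rw [← hrel]
      exact dvd_add (hpa.mul_left _) (dvd_add (hpx.mul_left _) h1)
  -- (1a)
  have ha := reach_sum (M := M) S hjS (fun l => t * ρ l) v
  have hsum : ∑ l ∈ S, M * (t * ρ l) * v l = t * (M * D) := by
    rw [hD, Finset.mul_sum, Finset.mul_sum]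
    exact Finset.sum_congr rfl fun l _ => by ring
  beta_reduce at ha
  rw [hsum] at ha
  obtain ⟨v₁, hv₁⟩ : ∃ v₁, v₁ = v + (t * (M * D)) • bv j := ⟨_, rfl⟩
  rw [← hv₁] at ha
  have h1i : v₁ i = v i := by
    rw [hv₁, Pi.add_apply, Pi.smul_apply, bv_ne hji.symm, smul_zero, add_zero]
  have h1j : v₁ j = v j + t * (M * D) := by
    rw [hv₁, Pi.add_apply, Pi.smul_apply, bv_self, smul_eq_mul, mul_one]
  have h1d : ∀ l, l ≠ i → M ∣ v₁ l := by
    intro l hl
    rw [hv₁, Pi.add_apply, Pi.smul_apply, smul_eq_mul]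
    exact dvd_add (hv l hl) (((dvd_mul_right M D).mul_left t).mul_right _)
  refine ha.trans ?_
  -- (1b)
  obtain ⟨q, hq⟩ : M ∣ 1 - v₁ i - v₁ k := by
    have h2 : M ∣ v₁ i - 1 := by rw [h1i]; exact hvi
    have h3 := dvd_sub ((dvd_neg (b := v₁ i - 1)).2 h2) (h1d k hki)
    rwa [neg_sub] at h3
  obtain ⟨x, y, hxy⟩ : IsCoprime (v₁ i) (v₁ j) := by rw [h1i, h1j]; exact ht
  have hb1 := Reach.step (M := M) hki (dvd_mul_right M (q * x)) v₁
  obtain ⟨v₂, hv₂⟩ : ∃ v₂, v₂ = v₁ + (M * (q * x) * v₁ i) • bv k := ⟨_, rfl⟩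
  rw [← hv₂] at hb1
  refine hb1.trans ?_
  have hb2 := Reach.step (M := M) hkj (dvd_mul_right M (q * y)) v₂
  obtain ⟨v₃, hv₃⟩ : ∃ v₃, v₃ = v₂ + (M * (q * y) * v₂ j) • bv k := ⟨_, rfl⟩
  rw [← hv₃] at hb2
  refine hb2.trans ?_
  have h2 : ∀ l, l ≠ k → v₂ l = v₁ l := by
    intro l hl
    rw [hv₂, Pi.add_apply, Pi.smul_apply, bv_ne hl, smul_zero, add_zero]
  have h3 : ∀ l, l ≠ k → v₃ l = v₁ l := by
    intro l hl
    rw [hv₃, Pi.add_apply, Pi.smul_apply, bv_ne hl, smul_zero, add_zero, h2 l hl]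
  have h3k : v₃ k = 1 - v₁ i := by
    rw [hv₃, Pi.add_apply, Pi.smul_apply, bv_self, hv₂, Pi.add_apply, Pi.smul_apply, bv_self,
      Pi.add_apply, Pi.smul_apply, bv_ne hkj.symm]
    simp only [smul_eq_mul, mul_one, mul_zero, add_zero]
    have : M * q = M * q * (x * v₁ i + y * v₁ j) := by rw [hxy, mul_one]
    linear_combination -hq - this
  -- (1c)
  refine Reach.conj (SpecialLinearGroup.transvection hki.symm 1) ?_
  have h4 : act (SpecialLinearGroup.transvection hki.symm 1) (bv i) = bv i := by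
    rw [act_el, bv_ne hki]
    simp
  rw [h4, act_el]
  obtain ⟨w, hw⟩ : ∃ w, w = v₃ + (1 * v₃ k) • bv i := ⟨_, rfl⟩
  rw [← hw]
  have hwi : w i = 1 := by
    rw [hw, Pi.add_apply, Pi.smul_apply, bv_self, h3k, h3 i hki.symm]
    simp
  have hwd : ∀ l, l ≠ i → M ∣ w l := by
    intro l hl
    rw [hw, Pi.add_apply, Pi.smul_apply, bv_ne hl, smul_zero, add_zero]
    by_cases hlk : l = k
    · rw [hlk, h3k]
      have h5 : M ∣ v₁ i - 1 := by rw [h1i]; exact hvi
      rw [← neg_sub]
      exact (dvd_neg).2 h5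
    · rw [h3 l hlk]
      exact h1d l hl
  have h5 := reach_clear (M := M) (i := i) (Finset.univ.erase i) (Finset.notMem_erase _ _) w hwi hwd
  have h6 : (fun l => if l ∈ Finset.univ.erase i then 0 else w l) = bv i := by
    funext l
    by_cases hl : l = i
    · rw [hl, if_neg (Finset.notMem_erase _ _), hwi, bv_self]
    · rw [if_pos (Finset.mem_erase.2 ⟨hl, Finset.mem_univ l⟩), bv_ne hl]
  rwa [h6] at h5

/-- the congruence subgroup -/
def CG (n m : ℕ) : Subgroup (G n) :=
  (SpecialLinearGroup.map (n := Fin n) (Int.castRingHom (ZMod m))).ker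

theorem mem_CG {m : ℕ} {g : G n} (hg : g ∈ CG n m) (a b : Fin n) :
    (m : ℤ) ∣ (g : Matrix (Fin n) (Fin n) ℤ) a b - (1 : Matrix (Fin n) (Fin n) ℤ) a b := by
  have h1 : SpecialLinearGroup.map (n := Fin n) (Int.castRingHom (ZMod m)) g = 1 := hg
  have h2 : (Int.castRingHom (ZMod m)) ((g : Matrix (Fin n) (Fin n) ℤ) a b) =
      (1 : Matrix (Fin n) (Fin n) (ZMod m)) a b := congrFun (congrFun (congrArg Subtype.val h1) a) b
  rw [← ZMod.intCast_zmod_eq_zero_iff_dvd]
  push_cast
  rw [sub_eq_zero]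
  refine h2.trans ?_
  by_cases hab : a = b
  · rw [hab]; simp
  · rw [Matrix.one_apply_ne hab, Matrix.one_apply_ne hab]
    simp

theorem tv_mem {M : ℤ} {i : Fin n} (χ : Fin n → ℤ) (h : χ ⬝ᵥ bv i = 0) (hd : ∀ l, M ∣ χ l) :
    tv (bv i) χ h ∈ NC n M := by
  classical
  have hi : χ i = 0 := by
    have h1 := h
    rw [bv, dotProduct_single, mul_one] at h1
    exact h1
  have key : ∀ S : Finset (Fin n), ∀ h' : (fun l => if l ∈ S then χ l else 0) ⬝ᵥ bv i = 0,
      tv (bv i) (fun l => if l ∈ S then χ l else 0) h' ∈ NC n M := by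
    intro S
    induction S using Finset.induction_on with
    | empty =>
      intro h'
      have : tv (bv i) (fun l => if l ∈ (∅ : Finset (Fin n)) then χ l else 0) h' = 1 := by
        apply sl_ext
        rw [tv_coe]
        have h2 : (fun l => if l ∈ (∅ : Finset (Fin n)) then χ l else 0) = 0 := by
          funext l
          simp
        rw [h2, vecMulVec_zero, add_zero]
        rfl
      rw [this]
      exact Subgroup.one_mem _
    | insert l S hl ih =>
      intro h'
      have h2 : (fun l => if l ∈ S then χ l else 0) ⬝ᵥ bv i = 0 := by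
        rw [bv, dotProduct_single, mul_one]
        split_ifs
        · exact hi
        · rfl
      have h3 : (Pi.single l (χ l) : Fin n → ℤ) ⬝ᵥ bv i = 0 := by
        rw [bv, dotProduct_single, mul_one]
        by_cases hil : i = l
        · rw [hil, Pi.single_eq_same, ← hil, hi]
        · rw [Pi.single_eq_of_ne hil]
      have h4 : (fun m => if m ∈ insert l S then χ m else 0) =
          (fun m => if m ∈ S then χ m else 0) + Pi.single l (χ l) := by
        funext m
        rw [Pi.add_apply]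
        by_cases hm : m = l
        · rw [hm, Pi.single_eq_same, if_neg hl, if_pos (Finset.mem_insert_self _ _), zero_add]
        · rw [Pi.single_eq_of_ne hm, add_zero]
          simp [Finset.mem_insert, hm]
      have h5 : tv (bv i) (fun m => if m ∈ insert l S then χ m else 0) h' =
          tv (bv i) (fun m => if m ∈ S then χ m else 0) h2 * tv (bv i) (Pi.single l (χ l)) h3 := by
        rw [tv_mul_right _ _ _ h2 h3 (by rw [add_dotProduct, h2, h3, add_zero])]
        apply tv_congr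
        rw [h4]
      rw [h5]
      refine Subgroup.mul_mem _ (ih h2) ?_
      by_cases hil : i = l
      · have : tv (bv i) (Pi.single l (χ l)) h3 = 1 := by
          apply sl_ext
          rw [tv_coe, ← hil, hi, Pi.single_zero, vecMulVec_zero, add_zero]
          rfl
        rw [this]
        exact Subgroup.one_mem _
      · have h6 : tv (bv i) (Pi.single l (χ l)) h3 = SpecialLinearGroup.transvection hil (χ l) := by
          rw [elem_eq hil (χ l) (single_dot_single hil _ _)]
          rfl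
        rw [h6]
        exact el_mem hil (hd l)
  have h7 := key Finset.univ (by simpa using h)
  have h8 : (fun l => if l ∈ (Finset.univ : Finset (Fin n)) then χ l else 0) = χ := by
    funext l
    simp
  simp only [h8] at h7
  exact h7

theorem NC_le (m : ℕ) : NC n (m : ℤ) ≤ CG n m := by
  have : (CG n m).Normal := MonoidHom.normal_ker _
  refine Subgroup.normalClosure_le_normal ?_
  rintro g ⟨i, j, h, rfl⟩
  change SpecialLinearGroup.map (n := Fin n) (Int.castRingHom (ZMod m)) _ = 1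
  apply Subtype.ext
  rw [SpecialLinearGroup.map_apply_coe]
  ext a b
  rw [RingHom.mapMatrix_apply, Matrix.map_apply, SpecialLinearGroup.transvection_coe,
    Matrix.add_apply, Matrix.single_apply]
  by_cases hab : a = b
  · rw [hab]
    by_cases hc : i = b ∧ j = b
    · rw [if_pos hc]; simp
    · rw [if_neg hc]; simp
  · rw [Matrix.one_apply_ne hab]
    split_ifs <;> simp [hab]

/-- **Centrality.** -/
theorem central (hn : 3 ≤ n) {m : ℕ} (hm : 2 ≤ m) {g : G n} (hg : g ∈ CG n m) {i j : Fin n}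
    (h : i ≠ j) : g * SpecialLinearGroup.transvection h 1 * g⁻¹ *
      (SpecialLinearGroup.transvection h 1)⁻¹ ∈ NC n (m : ℤ) := by
  have hM : (2 : ℤ) ≤ m := by exact_mod_cast hm
  have h0 : (bv j : Fin n → ℤ) ⬝ᵥ bv i = 0 := single_dot_single h 1 1
  have hE : (SpecialLinearGroup.transvection h 1 : G n) = tv (bv i) (bv j) h0 :=
    elem_eq h 1 (single_dot_single h _ _)
  -- the vector `g e_i`
  have hcol : ∀ l, act g (bv i) l = (g : Matrix (Fin n) (Fin n) ℤ) l i := by
    intro l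
    rw [act, bv, mulVec_single_one]
    rfl
  obtain ⟨ε, hε, hεv⟩ := transit hn hM i (act g (bv i)) (cact g (bv i))
    (by rw [cact_dot_act, bv, single_dotProduct, Pi.single_eq_same, one_mul])
    (by
      rw [hcol]
      have := mem_CG hg i i
      rwa [Matrix.one_apply_eq] at this)
    (fun l hl => by
      rw [hcol]
      have := mem_CG hg l i
      rwa [Matrix.one_apply_ne hl, sub_zero] at this)
  have hεg : ε * g ∈ CG n m := Subgroup.mul_mem _ (NC_le m hε) hg
  have hac : act (ε * g) (bv i) = bv i := by rw [act_mul, hεv]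
  obtain ⟨φ, hφ⟩ : ∃ φ, φ = cact (ε * g) (bv j) := ⟨_, rfl⟩
  have hφi : φ ⬝ᵥ bv i = 0 := by
    conv_lhs => rw [← hac, hφ, cact_dot_act]
    exact h0
  have hconj : (ε * g) * SpecialLinearGroup.transvection h 1 * (ε * g)⁻¹ = tv (bv i) φ hφi := by
    rw [hE, conj_tv (ε * g) (bv i) (bv j) h0 (by rw [cact_dot_act, h0])]
    apply tv_congr
    rw [hac, hφ]
  have hφd : ∀ l, (m : ℤ) ∣ (φ - bv j) l := by
    intro l
    have h1 : φ l = (((ε * g)⁻¹ : G n) : Matrix (Fin n) (Fin n) ℤ) j l := by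
      rw [hφ, cact, bv, single_one_vecMul]
      rfl
    have h2 := mem_CG (Subgroup.inv_mem _ hεg) j l
    rw [Pi.sub_apply, h1]
    have h3 : (bv j : Fin n → ℤ) l = (1 : Matrix (Fin n) (Fin n) ℤ) j l := by
      rw [bv, Pi.single_apply, Matrix.one_apply]
      by_cases hjl : j = l
      · rw [if_pos hjl.symm, if_pos hjl]
      · rw [if_neg (Ne.symm hjl), if_neg hjl]
    rw [h3]
    exact h2
  have hd0 : (φ - bv j) ⬝ᵥ bv i = 0 := by rw [sub_dotProduct, hφi, h0, sub_zero]
  have hdm := tv_mem (M := (m : ℤ)) (φ - bv j) hd0 hφd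
  have hprod : tv (bv i) φ hφi =
      SpecialLinearGroup.transvection h 1 * tv (bv i) (φ - bv j) hd0 := by
    rw [hE, tv_mul_right _ _ _ h0 hd0 (by rw [add_sub_cancel]; exact hφi)]
    apply tv_congr
    rw [add_sub_cancel]
  rw [hprod] at hconj
  obtain ⟨T, hT⟩ : ∃ T : G n, T = SpecialLinearGroup.transvection h 1 := ⟨_, rfl⟩
  obtain ⟨d, hd⟩ : ∃ d : G n, d = tv (bv i) (φ - bv j) hd0 := ⟨_, rfl⟩
  rw [← hT, ← hd] at hconj
  rw [← hd] at hdm
  rw [← hT]
  have e : g * T * g⁻¹ * T⁻¹ = ε⁻¹ * (T * (d * ε) * T⁻¹) := by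
    have h1 : g * T * g⁻¹ = ε⁻¹ * (T * d) * ε := by
      rw [← hconj]
      group
    rw [h1]
    group
  rw [e]
  exact Subgroup.mul_mem _ (Subgroup.inv_mem _ hε)
    ((inferInstance : (NC n (m : ℤ)).Normal).conj_mem _ (Subgroup.mul_mem _ hdm hε) T)

theorem perfect (hn : 3 ≤ n) : commutator (G n) = ⊤ := by
  rw [eq_top_iff, ← closure_elem n, Subgroup.closure_le]
  rintro g ⟨i, j, h, c, rfl⟩
  obtain ⟨k, hki, hkj⟩ : ∃ k : Fin n, k ≠ i ∧ k ≠ j := by
    classical
    have h1 : (({i, j} : Finset (Fin n)).card) < Fintype.card (Fin n) := by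
      rw [Fintype.card_fin]
      exact lt_of_le_of_lt Finset.card_le_two (by omega)
    obtain ⟨k, hk⟩ := Finset.exists_mem_notMem_of_card_lt_card
      (s := ({i, j} : Finset (Fin n))) (t := Finset.univ) (by rwa [Finset.card_univ])
    simp only [Finset.mem_insert, Finset.mem_singleton, not_or] at hk
    exact ⟨k, hk.2.1, hk.2.2⟩
  have e : (SpecialLinearGroup.transvection h c : G n) =
      ⁅(SpecialLinearGroup.transvection hki.symm c : G n),
        SpecialLinearGroup.transvection hkj 1⁆ := by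
    have h1 : (SpecialLinearGroup.transvection h c : G n) *
        (SpecialLinearGroup.transvection hkj 1 *
          SpecialLinearGroup.transvection hki.symm c) =
        SpecialLinearGroup.transvection hki.symm c * SpecialLinearGroup.transvection hkj 1 := by
      apply sl_ext
      rw [sl_mul, sl_mul, sl_mul, SpecialLinearGroup.transvection_coe,
        SpecialLinearGroup.transvection_coe, SpecialLinearGroup.transvection_coe]
      have z1 : (single k j (1 : ℤ) * single i k c : Matrix (Fin n) (Fin n) ℤ) = 0 :=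
        Matrix.single_mul_single_of_ne _ _ _ _ h.symm _
      have z2 : (single i j c * single k j (1 : ℤ) : Matrix (Fin n) (Fin n) ℤ) = 0 :=
        Matrix.single_mul_single_of_ne _ _ _ _ hkj.symm _
      have z3 : (single i j c * single i k c : Matrix (Fin n) (Fin n) ℤ) = 0 :=
        Matrix.single_mul_single_of_ne _ _ _ _ h.symm _
      have z4 : (single i k c * single k j (1 : ℤ) : Matrix (Fin n) (Fin n) ℤ) = single i j c := by
        rw [Matrix.single_mul_single_same, mul_one]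
      simp only [mul_add, add_mul, mul_one, one_mul, z1, z2, z3, z4, add_zero]
      abel
    rw [commutatorElement_def, eq_mul_inv_iff_mul_eq, eq_mul_inv_iff_mul_eq, mul_assoc, h1]
  rw [e]
  exact Subgroup.commutator_mem_commutator (Subgroup.mem_top _) (Subgroup.mem_top _)

/-- Schur: a group with a centre of finite index has finitely many commutators -/
theorem finite_comm {Q : Type} [Group Q] [(Subgroup.center Q).FiniteIndex] :
    Finite (commutatorSet Q) := by
  have : Finite (Q ⧸ Subgroup.center Q) := inferInstance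
  have hout : ∀ q : Q, ∃ z ∈ Subgroup.center Q,
      q = (Quotient.out (q : Q ⧸ Subgroup.center Q)) * z := by
    intro q
    refine ⟨(Quotient.out (q : Q ⧸ Subgroup.center Q))⁻¹ * q, ?_, by group⟩
    rw [← QuotientGroup.eq]
    exact QuotientGroup.out_eq' _
  refine Set.Finite.subset (Set.finite_range (fun p : (Q ⧸ Subgroup.center Q) ×
    (Q ⧸ Subgroup.center Q) => ⁅Quotient.out p.1, Quotient.out p.2⁆)) ?_
  rintro x ⟨a, b, rfl⟩
  refine ⟨((a : Q ⧸ Subgroup.center Q), (b : Q ⧸ Subgroup.center Q)), ?_⟩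
  obtain ⟨z, hz, ha⟩ := hout a
  obtain ⟨w, hw, hb⟩ := hout b
  simp only []
  generalize (Quotient.out (a : Q ⧸ Subgroup.center Q)) = a' at *
  generalize (Quotient.out (b : Q ⧸ Subgroup.center Q)) = b' at *
  rw [ha, hb, commutatorElement_def, commutatorElement_def]
  have hz' := Subgroup.mem_center_iff.1 hz
  have hw' := Subgroup.mem_center_iff.1 hw
  have e1 : a' * z * (b' * w) = a' * b' * (w * z) := by
    rw [mul_assoc, ← mul_assoc z b' w, ← hz' b', mul_assoc b' z w, ← hz' w, ← mul_assoc, mul_assoc]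
  have e2 : (a' * z)⁻¹ * (b' * w)⁻¹ = (w * z)⁻¹ * (a'⁻¹ * b'⁻¹) := by
    have hb1 : w⁻¹ * b'⁻¹ = b'⁻¹ * w⁻¹ := by
      rw [← _root_.mul_inv_rev, ← _root_.mul_inv_rev, hw' b']
    have ha1 : z⁻¹ * a'⁻¹ = a'⁻¹ * z⁻¹ := by
      rw [← _root_.mul_inv_rev, ← _root_.mul_inv_rev, hz' a']
    have hw1 : ∀ q, q * w⁻¹ = w⁻¹ * q := by
      intro q
      have := hw' q
      rw [mul_inv_eq_iff_eq_mul, mul_assoc, this, ← mul_assoc, inv_mul_cancel, one_mul]
    rw [_root_.mul_inv_rev, _root_.mul_inv_rev, _root_.mul_inv_rev, hb1, mul_assoc z⁻¹,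
      ← mul_assoc a'⁻¹, ← mul_assoc, ← mul_assoc, hw1, ← mul_assoc, ← mul_assoc,
      hw1 z⁻¹]
    exact mul_assoc _ _ _
  rw [mul_assoc (a' * z * (b' * w)), e1, e2]
  group

end PkgF

open PkgF in
theorem finiteIndex_normalClosure (n : ℕ) (hn : 3 ≤ n) (M : ℤ) (hM : 2 ≤ M) :
    (Subgroup.normalClosure {g : SpecialLinearGroup (Fin n) ℤ |
      ∃ (i j : Fin n) (h : i ≠ j), g = SpecialLinearGroup.transvection h M}).FiniteIndex := by
  obtain ⟨m, rfl⟩ := Int.eq_ofNat_of_zero_le (by omega : (0 : ℤ) ≤ M)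
  have hm : 2 ≤ m := by exact_mod_cast hM
  change (NC n (m : ℤ)).FiniteIndex
  have : NeZero m := ⟨by omega⟩
  obtain ⟨π, hπ⟩ : ∃ π : G n →* G n ⧸ NC n (m : ℤ), π = QuotientGroup.mk' (NC n (m : ℤ)) := ⟨_, rfl⟩
  have hsurj : Function.Surjective π := by rw [hπ]; exact QuotientGroup.mk'_surjective _
  have hker : ∀ g, π g = 1 ↔ g ∈ NC n (m : ℤ) := by
    intro g
    rw [hπ]
    exact QuotientGroup.eq_one_iff g
  -- the image of the congruence subgroup is central
  have hcen : CG n m ≤ (Subgroup.center (G n ⧸ NC n (m : ℤ))).comap π := by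
    intro g hg
    rw [Subgroup.mem_comap, Subgroup.mem_center_iff]
    have h1 : (⊤ : Subgroup (G n)) ≤ (Subgroup.centralizer {π g}).comap π := by
      rw [← closure_elem n, Subgroup.closure_le]
      rintro x ⟨i, j, h, c, rfl⟩
      have h2 : (SpecialLinearGroup.transvection h c : G n) =
          (SpecialLinearGroup.transvection h 1) ^ c := by rw [zpow_el, mul_one]
      rw [h2]
      refine Subgroup.zpow_mem _ ?_ c
      rw [Subgroup.mem_comap, Subgroup.mem_centralizer_singleton_iff]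
      have h3 := (hker _).2 (central hn hm hg h)
      rw [map_mul, map_mul, map_mul, map_inv, map_inv, mul_inv_eq_one, mul_inv_eq_iff_eq_mul] at h3
      exact h3.symm
    intro q
    obtain ⟨x, rfl⟩ := hsurj q
    have h4 := h1 (Subgroup.mem_top x)
    rw [Subgroup.mem_comap, Subgroup.mem_centralizer_singleton_iff] at h4
    exact h4
  have hCG : (CG n m).FiniteIndex := by
    have : Finite (SpecialLinearGroup (Fin n) (ZMod m)) := inferInstance
    unfold CG
    infer_instance
  have h5 : ((Subgroup.center (G n ⧸ NC n (m : ℤ))).comap π).FiniteIndex :=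
    Subgroup.finiteIndex_of_le hcen
  have h6 : (Subgroup.center (G n ⧸ NC n (m : ℤ))).FiniteIndex := by
    refine ⟨?_⟩
    rw [← Subgroup.index_comap_of_surjective _ hsurj]
    exact h5.index_ne_zero
  have h7 : Finite (commutatorSet (G n ⧸ NC n (m : ℤ))) := finite_comm
  have h8 : commutator (G n ⧸ NC n (m : ℤ)) = ⊤ := by
    rw [eq_top_iff, ← Subgroup.map_top_of_surjective π hsurj, ← perfect hn, commutator_def,
      commutator_def, Subgroup.map_commutator]
    exact Subgroup.commutator_mono le_top le_top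
  have h9 : Finite (commutator (G n ⧸ NC n (m : ℤ))) := inferInstance
  have h10 : Finite (G n ⧸ NC n (m : ℤ)) := by
    rw [h8] at h9
    exact Finite.of_equiv _ Subgroup.topEquiv.toEquiv
  exact Subgroup.finiteIndex_of_finite_quotient

end Pool.Agent.T2H86.TV
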