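import Pool.Agent.T2H86.TV.Basic

/-!
# Package K: a subgroup containing all `E_ij(N)` contains the normal closure of the `E_ij(N²)`

(Tits, Vaserstein, Suslin.)  `K` contains all `tv e_k (N φ)` (`φ_k = 0`) and `tv v (N e_k^*)`
(`v_k = 0`), products of the `E_ij(N c)`.
(c) `v_k = 0`, `φ_k = 0`, `φ ⬝ᵥ v = 0`:  the commutator of `tv e_k (N φ)` and `tv v (N e_k^*)` is
  `tv v (∓ N² φ)`; so `tv v (N² φ) ∈ K`.
(e) `φ_k = 0`, `φ ⬝ᵥ v = 0` (any `v`): `v = v' + v_k e_k`, `tv v (N² φ) = tv v' (N² φ) * tv (v_k e_k) (N² φ) ∈ K`.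
(f) `ρ ⬝ᵥ v = 1`, `φ ⬝ᵥ v = 0`: `φ = ∑_{i,j} ρ_i φ_j (v_i e_j^* - v_j e_i^*)`, every term kills `v` and has
  a zero coordinate (`n ≥ 3`), so `tv v (N² φ)`, the product of the `tv v (N² ρ_i φ_j (v_i e_j^* - v_j e_i^*))`,
  is in `K` (it is convenient to show that `{φ | φ ⬝ᵥ v = 0 ∧ tv v (N² φ) ∈ K}` is an additive subgroup).
(g) `g E_ij(N²) g⁻¹ = tv (g e_i) (N² e_j^* g⁻¹)` (`conj_tv`, `elem_eq`), and `ρ = e_i^* g⁻¹`.
-/

set_option autoImplicit false

namespace Pool.Agent.T2H86.TV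

open Matrix

namespace PackK

variable {n : ℕ}

/-- the forms `φ` with `tv v φ ∈ K` -/
def SR (K : Subgroup (SpecialLinearGroup (Fin n) ℤ)) (v : Fin n → ℤ) :
    AddSubgroup (Fin n → ℤ) where
  carrier := {φ | ∃ h : φ ⬝ᵥ v = 0, tv v φ h ∈ K}
  zero_mem' := ⟨zero_dotProduct _, by rw [tv_zero_right]; exact K.one_mem⟩
  add_mem' := by
    rintro φ ψ ⟨h1, h2⟩ ⟨h3, h4⟩
    have h5 : (φ + ψ) ⬝ᵥ v = 0 := by rw [add_dotProduct, h1, h3, add_zero]
    refine ⟨h5, ?_⟩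
    rw [← tv_mul_right v φ ψ h1 h3 h5]
    exact K.mul_mem h2 h4
  neg_mem' := by
    rintro φ ⟨h1, h2⟩
    have h3 : (-φ) ⬝ᵥ v = 0 := by rw [neg_dotProduct, h1, neg_zero]
    refine ⟨h3, ?_⟩
    rw [← tv_inv v φ h1 h3]
    exact K.inv_mem h2

/-- the vectors `v` with `tv v φ ∈ K` -/
def SL (K : Subgroup (SpecialLinearGroup (Fin n) ℤ)) (φ : Fin n → ℤ) :
    AddSubgroup (Fin n → ℤ) where
  carrier := {v | ∃ h : φ ⬝ᵥ v = 0, tv v φ h ∈ K}
  zero_mem' := ⟨dotProduct_zero _, by rw [tv_zero_left]; exact K.one_mem⟩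
  add_mem' := by
    rintro v w ⟨h1, h2⟩ ⟨h3, h4⟩
    have h5 : φ ⬝ᵥ (v + w) = 0 := by rw [dotProduct_add, h1, h3, add_zero]
    refine ⟨h5, ?_⟩
    rw [← tv_mul_left v w φ h1 h3 h5]
    exact K.mul_mem h2 h4
  neg_mem' := by
    rintro v ⟨h1, h2⟩
    have h3 : φ ⬝ᵥ (-v) = 0 := by rw [dotProduct_neg, h1, neg_zero]
    have h4 : (-φ) ⬝ᵥ v = 0 := by rw [neg_dotProduct, h1, neg_zero]
    refine ⟨h3, ?_⟩
    have h5 : tv (-v) φ h3 = (tv v φ h1)⁻¹ := by
      rw [tv_inv v φ h1 h4]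
      apply tv_congr
      rw [neg_vecMulVec, vecMulVec_neg]
    rw [h5]
    exact K.inv_mem h2

theorem mem_SR {K : Subgroup (SpecialLinearGroup (Fin n) ℤ)} {v φ : Fin n → ℤ} :
    φ ∈ SR K v ↔ ∃ h : φ ⬝ᵥ v = 0, tv v φ h ∈ K := Iff.rfl

theorem mem_SL {K : Subgroup (SpecialLinearGroup (Fin n) ℤ)} {v φ : Fin n → ℤ} :
    v ∈ SL K φ ↔ ∃ h : φ ⬝ᵥ v = 0, tv v φ h ∈ K := Iff.rfl

/-- (a) -/
theorem mem_a {N : ℤ} {K : Subgroup (SpecialLinearGroup (Fin n) ℤ)}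
    (hK : ∀ (i j : Fin n) (h : i ≠ j), SpecialLinearGroup.transvection h N ∈ K)
    (k : Fin n) (φ : Fin n → ℤ) (hφ : φ k = 0) : N • φ ∈ SR K (Pi.single k 1) := by
  have h1 : N • φ = ∑ j, φ j • (Pi.single j N : Fin n → ℤ) := by
    ext a
    rw [Finset.sum_apply]
    simp [Pi.single_apply, mul_comm]
  rw [h1]
  refine AddSubgroup.sum_mem _ fun j _ => ?_
  by_cases hj : k = j
  · subst hj
    rw [hφ, zero_smul]
    exact AddSubgroup.zero_mem _
  · refine AddSubgroup.zsmul_mem _ ?_ _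
    refine ⟨single_dot_single hj N 1, ?_⟩
    rw [← elem_eq hj N]
    exact hK k j hj

/-- (b) -/
theorem mem_b {N : ℤ} {K : Subgroup (SpecialLinearGroup (Fin n) ℤ)}
    (hK : ∀ (i j : Fin n) (h : i ≠ j), SpecialLinearGroup.transvection h N ∈ K)
    (k : Fin n) (v : Fin n → ℤ) (hv : v k = 0) : v ∈ SL K (Pi.single k N) := by
  have h1 : v = ∑ j, v j • (Pi.single j 1 : Fin n → ℤ) := by
    ext a
    rw [Finset.sum_apply]
    simp [Pi.single_apply]
  rw [h1]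
  refine AddSubgroup.sum_mem _ fun j _ => ?_
  by_cases hj : j = k
  · subst hj
    rw [hv, zero_smul]
    exact AddSubgroup.zero_mem _
  · refine AddSubgroup.zsmul_mem _ ?_ _
    refine ⟨single_dot_single hj N 1, ?_⟩
    rw [← elem_eq hj N]
    exact hK j k hj

/-- (c) -/
theorem mem_c {N : ℤ} {K : Subgroup (SpecialLinearGroup (Fin n) ℤ)}
    (hK : ∀ (i j : Fin n) (h : i ≠ j), SpecialLinearGroup.transvection h N ∈ K)
    (k : Fin n) (v φ : Fin n → ℤ) (hv : v k = 0) (hφ : φ k = 0) (hφv : φ ⬝ᵥ v = 0) :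
    (N ^ 2) • φ ∈ SR K v := by
  obtain ⟨ha, hA⟩ := mem_SR.1 (mem_a hK k φ hφ)
  obtain ⟨hb, hB⟩ := mem_SL.1 (mem_b hK k v hv)
  have hC := K.mul_mem (K.inv_mem hA) (K.mul_mem (K.mul_mem hB hA) (K.inv_mem hB))
  have h1 : act (tv v (Pi.single k N) hb) (Pi.single k 1) = Pi.single k 1 + N • v := by
    rw [act_tv]
    congr 2
    simp
  have h2 : cact (tv v (Pi.single k N) hb) (N • φ) = N • φ := by
    rw [cact_tv, smul_dotProduct, hφv]
    simp
  have h3 : (N • φ) ⬝ᵥ (Pi.single k 1 + N • v) = 0 := by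
    rw [dotProduct_add, ha, dotProduct_smul, smul_dotProduct, hφv]
    simp
  have h4 : (N • φ) ⬝ᵥ (N • v) = 0 := by
    rw [dotProduct_smul, smul_dotProduct, hφv]
    simp
  rw [conj_tv _ _ _ _ (by rw [h1, h2]; exact h3)] at hC
  have h5 : tv (act (tv v (Pi.single k N) hb) (Pi.single k 1))
      (cact (tv v (Pi.single k N) hb) (N • φ)) (by rw [h1, h2]; exact h3) =
      tv (Pi.single k 1) (N • φ) ha * tv (N • v) (N • φ) h4 := by
    rw [tv_mul_left _ _ _ ha h4 h3]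
    apply tv_congr
    rw [h1, h2]
  rw [h5, inv_mul_cancel_left] at hC
  have h6 : ((N ^ 2) • φ) ⬝ᵥ v = 0 := by rw [smul_dotProduct, hφv, smul_zero]
  refine ⟨h6, ?_⟩
  have h7 : tv v ((N ^ 2) • φ) h6 = tv (N • v) (N • φ) h4 := by
    apply tv_congr
    ext i j
    simp only [vecMulVec_apply, Pi.smul_apply, smul_eq_mul]
    ring
  rw [h7]
  exact hC

/-- (e) -/
theorem mem_e {N : ℤ} {K : Subgroup (SpecialLinearGroup (Fin n) ℤ)}
    (hK : ∀ (i j : Fin n) (h : i ≠ j), SpecialLinearGroup.transvection h N ∈ K)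
    (k : Fin n) (v φ : Fin n → ℤ) (hφ : φ k = 0) (hφv : φ ⬝ᵥ v = 0) :
    (N ^ 2) • φ ∈ SR K v := by
  have hs : φ ⬝ᵥ (Pi.single k (v k) : Fin n → ℤ) = 0 := by
    rw [dotProduct_single, hφ, zero_mul]
  have hv' : (v - Pi.single k (v k) : Fin n → ℤ) k = 0 := by simp
  have hφv' : φ ⬝ᵥ (v - Pi.single k (v k)) = 0 := by
    rw [dotProduct_sub, hφv, hs, sub_zero]
  obtain ⟨h1, h2⟩ := mem_SR.1 (mem_c hK k _ φ hv' hφ hφv')
  obtain ⟨h3, h4⟩ := mem_SR.1 (mem_a hK k ((N * v k) • φ) (by simp [hφ]))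
  have h5 : ((N ^ 2) • φ) ⬝ᵥ v = 0 := by rw [smul_dotProduct, hφv, smul_zero]
  have h6 : ((N ^ 2) • φ) ⬝ᵥ (Pi.single k (v k) : Fin n → ℤ) = 0 := by
    rw [smul_dotProduct, hs, smul_zero]
  have h7 : tv (Pi.single k (v k)) ((N ^ 2) • φ) h6 = tv (Pi.single k 1) (N • (N * v k) • φ) h3 := by
    apply tv_congr
    ext i j
    simp only [vecMulVec_apply, Pi.smul_apply, smul_eq_mul, Pi.single_apply]
    split_ifs <;> ring
  refine ⟨h5, ?_⟩
  have h8 : tv v ((N ^ 2) • φ) h5 =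
      tv (v - Pi.single k (v k)) ((N ^ 2) • φ) h1 * tv (Pi.single k (v k)) ((N ^ 2) • φ) h6 := by
    rw [tv_mul_left _ _ _ h1 h6 (by rw [sub_add_cancel]; exact h5)]
    apply tv_congr
    rw [sub_add_cancel]
  rw [h8, h7]
  exact K.mul_mem h2 h4

theorem exists_ne_ne (hn : 3 ≤ n) (i j : Fin n) : ∃ k : Fin n, k ≠ i ∧ k ≠ j := by
  by_contra hcon
  push Not at hcon
  have h1 : (Finset.univ : Finset (Fin n)) ⊆ {i, j} := by
    intro k _
    by_cases h : k = i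
    · simp [h]
    · simp [hcon k h]
  have h2 := Finset.card_le_card h1
  have h3 : ({i, j} : Finset (Fin n)).card ≤ 2 := Finset.card_le_two
  rw [Finset.card_univ, Fintype.card_fin] at h2
  omega

/-- (f) -/
theorem mem_f (hn : 3 ≤ n) {N : ℤ} {K : Subgroup (SpecialLinearGroup (Fin n) ℤ)}
    (hK : ∀ (i j : Fin n) (h : i ≠ j), SpecialLinearGroup.transvection h N ∈ K)
    (v φ ρ : Fin n → ℤ) (hρ : ρ ⬝ᵥ v = 1) (hφv : φ ⬝ᵥ v = 0) :
    (N ^ 2) • φ ∈ SR K v := by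
  have h1 : (N ^ 2) • φ = ∑ i, ∑ j, (ρ i * φ j) •
      ((N ^ 2) • (Pi.single j (v i) - Pi.single i (v j) : Fin n → ℤ)) := by
    have h2 : φ = ∑ i, ∑ j, (ρ i * φ j) •
      (Pi.single j (v i) - Pi.single i (v j) : Fin n → ℤ) := by
      ext a
      have e1 : (∑ i, ∑ j, (ρ i * φ j) •
          (Pi.single j (v i) - Pi.single i (v j) : Fin n → ℤ)) a =
          ∑ i, ∑ j, ((ρ i * φ j) * (if a = j then v i else 0) -
            (ρ i * φ j) * (if a = i then v j else 0)) := by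
        rw [Finset.sum_apply]
        refine Finset.sum_congr rfl fun i _ => ?_
        rw [Finset.sum_apply]
        refine Finset.sum_congr rfl fun j _ => ?_
        simp only [Pi.smul_apply, Pi.sub_apply, Pi.single_apply, smul_eq_mul]
        ring
      rw [e1]
      have e2 : ∀ i, ∑ j, ((ρ i * φ j) * (if a = j then v i else 0) -
            (ρ i * φ j) * (if a = i then v j else 0)) =
          (ρ i * v i) * φ a - (if a = i then ρ i * (φ ⬝ᵥ v) else 0) := by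
        intro i
        rw [Finset.sum_sub_distrib]
        congr 1
        · simp only [mul_ite, mul_zero, Finset.sum_ite_eq, Finset.mem_univ, if_true]
          ring
        · split_ifs with h
          · rw [dotProduct, Finset.mul_sum]
            refine Finset.sum_congr rfl fun j _ => ?_
            ring
          · simp
      rw [Finset.sum_congr rfl fun i _ => e2 i, Finset.sum_sub_distrib, ← Finset.sum_mul]
      have e3 : ∑ i, ρ i * v i = 1 := hρ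
      rw [e3, hφv]
      simp
    conv_lhs => rw [h2]
    rw [Finset.smul_sum]
    refine Finset.sum_congr rfl fun i _ => ?_
    rw [Finset.smul_sum]
    refine Finset.sum_congr rfl fun j _ => ?_
    rw [smul_comm]
  rw [h1]
  refine AddSubgroup.sum_mem _ fun i _ => AddSubgroup.sum_mem _ fun j _ =>
    AddSubgroup.zsmul_mem _ ?_ _
  obtain ⟨k, hki, hkj⟩ := exists_ne_ne hn i j
  refine mem_e hK k v _ ?_ ?_
  · simp [hki, hkj]
  · rw [sub_dotProduct, single_dotProduct, single_dotProduct]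
    ring

end PackK

open PackK in
theorem normalClosure_sq_le (n : ℕ) (hn : 3 ≤ n) (N : ℤ) (K : Subgroup (SpecialLinearGroup (Fin n) ℤ))
    (hK : ∀ (i j : Fin n) (h : i ≠ j), SpecialLinearGroup.transvection h N ∈ K) :
    Subgroup.normalClosure {g : SpecialLinearGroup (Fin n) ℤ |
      ∃ (i j : Fin n) (h : i ≠ j), g = SpecialLinearGroup.transvection h (N ^ 2)} ≤ K := by
  rw [Subgroup.normalClosure, Subgroup.closure_le]
  intro x hx
  rw [Group.mem_conjugatesOfSet_iff] at hx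
  obtain ⟨a, ⟨i, j, hij, rfl⟩, hc⟩ := hx
  rw [isConj_iff] at hc
  obtain ⟨g, rfl⟩ := hc
  have h0 := single_dot_single hij (N ^ 2) 1
  rw [elem_eq hij (N ^ 2) h0]
  have h1 : cact g (Pi.single j (N ^ 2)) ⬝ᵥ act g (Pi.single i 1) = 0 := by
    rw [cact_dot_act, h0]
  rw [conj_tv g _ _ h0 h1]
  have h2 : cact g (Pi.single j (N ^ 2)) = (N ^ 2) • cact g (Pi.single j 1) := by
    rw [← cact_smul]
    congr 1
    rw [← Pi.single_smul, smul_eq_mul, mul_one]
  have h3 : cact g (Pi.single j 1) ⬝ᵥ act g (Pi.single i 1) = 0 := by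
    rw [cact_dot_act, single_dot_single hij]
  have h4 : cact g (Pi.single i 1) ⬝ᵥ act g (Pi.single i 1) = 1 := by
    rw [cact_dot_act]
    simp
  obtain ⟨h5, h6⟩ := mem_SR.1 (mem_f hn hK (act g (Pi.single i 1)) (cact g (Pi.single j 1))
    (cact g (Pi.single i 1)) h4 h3)
  have h7 : tv (act g (Pi.single i 1)) (cact g (Pi.single j (N ^ 2))) h1 =
      tv (act g (Pi.single i 1)) ((N ^ 2) • cact g (Pi.single j 1)) h5 := by
    apply tv_congr
    rw [h2]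
  rw [h7]
  exact h6

end Pool.Agent.T2H86.TV
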