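import Pool.Agent.T2H86.TV.Steps
import Pool.Agent.T2H86.TV.PackF
import Pool.Agent.T2H86.TV.PackK

/-!
# Two independent forms with the same vector: the subgroup has finite index
-/

set_option autoImplicit false

namespace Pool.Agent.T2H86.TV

open Matrix

variable {n : ℕ} {H : Subgroup (SpecialLinearGroup (Fin n) ℤ)}

theorem nonvanish2 {v x φ ψ : Fin n → ℚ} (hn : 2 ≤ n) (hv : v ≠ 0)
    (hx : x ∉ Submodule.span ℚ {v}) (hφ : φ ≠ 0) (hψ : ψ ∉ Submodule.span ℚ {φ}) :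
    ∃ g ∈ GG n, (φ ⬝ᵥ act g⁻¹ v) * (ψ ⬝ᵥ act g⁻¹ x) - (ψ ⬝ᵥ act g⁻¹ v) * (φ ⬝ᵥ act g⁻¹ x) ≠ 0 := by
  obtain ⟨p, q, hp1, hp2, hq1, hq2⟩ := exists_dual hφ hψ
  have hp0 : p ≠ 0 := by
    rintro rfl
    rw [dotProduct_zero] at hp1
    exact zero_ne_one hp1
  obtain ⟨k, hk, ek⟩ := GG_trans hn hv hp0
  have hx1 : act k x ∉ Submodule.span ℚ {p} := by
    intro h
    obtain ⟨c, hc⟩ := Submodule.mem_span_singleton.1 h
    apply hx
    rw [Submodule.mem_span_singleton]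
    refine ⟨c, ?_⟩
    rw [← act_inv_act k x, ← hc, act_smul, ← ek, act_inv_act]
  by_cases h : ψ ⬝ᵥ act k x = 0
  · have h1 : act k x ∉ Submodule.span ℚ {p, q} := by
      intro h2
      obtain ⟨c, d, hc⟩ := Submodule.mem_span_pair.1 h2
      rw [← hc, dotProduct_add, dotProduct_smul, dotProduct_smul, hp2, hq2] at h
      simp only [smul_eq_mul, mul_zero, mul_one, zero_add] at h
      apply hx1
      rw [Submodule.mem_span_singleton]
      exact ⟨c, by rw [← hc, h, zero_smul, add_zero]⟩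
    obtain ⟨η, hη, hη1⟩ := exists_form _ h1
    have ηp : η ⬝ᵥ p = 0 := hη _ (Submodule.subset_span (by simp))
    have ηq : η ⬝ᵥ q = 0 := hη _ (Submodule.subset_span (by simp))
    refine ⟨(tv q η ηq * k)⁻¹, (GG n).inv_mem ((GG n).mul_mem (tv_mem_GG _) hk), ?_⟩
    rw [inv_inv, act_mul, act_mul, ek, act_tv, act_tv, ηp, hη1, zero_smul, add_zero, one_smul,
      dotProduct_add, h, hq2, hp1, hp2]
    norm_num
  · refine ⟨k⁻¹, (GG n).inv_mem hk, ?_⟩
    rw [inv_inv, ek, hp1, hp2, one_mul, zero_mul, sub_zero]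
    exact h

/-- two independent forms with the vector `v` give all forms -/
theorem Wfull (hn : 2 ≤ n) (hH : ZariskiDense H) {v φ ψ : Fin n → ℚ} (hv : v ≠ 0) (hφ : φ ≠ 0)
    (hψ : ψ ∉ Submodule.span ℚ {φ}) (h1 : Tr H v φ) (h2 : Tr H v ψ) (χ : Fin n → ℚ)
    (hχ : χ ⬝ᵥ v = 0) : Tr H v χ := by
  by_contra hcon
  obtain ⟨x, hx, hx1⟩ := exists_form (Wv H v) (x := χ) hcon
  have hxv : x ∉ Submodule.span ℚ {v} :=
    notMem_span_singleton χ hχ (by rw [dotProduct_comm, hx1]; exact one_ne_zero)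
  have hreg : IsReg (fun A => fi φ v A * fi ψ x A - fi ψ v A * fi φ x A) :=
    IsReg.sub ((isReg_adjugate _ _).mul (isReg_adjugate _ _))
      ((isReg_adjugate _ _).mul (isReg_adjugate _ _))
  obtain ⟨g, hg, e1, e2⟩ := generic hH (isReg_mulVec φ v) hreg (nonvanish hn hv hφ)
    (nonvanish2 hn hv hxv hφ hψ)
  set a := toQ g with ha
  change φ ⬝ᵥ act a v ≠ 0 at e1
  change (φ ⬝ᵥ act a⁻¹ v) * (ψ ⬝ᵥ act a⁻¹ x) - (ψ ⬝ᵥ act a⁻¹ v) * (φ ⬝ᵥ act a⁻¹ x) ≠ 0 at e2
  have t1 := (h1.conj hg).smul_right (ψ ⬝ᵥ act a⁻¹ v)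
  have t2 := (h2.conj hg).smul_right (φ ⬝ᵥ act a⁻¹ v)
  rw [← ha] at t1 t2
  have t3 := t2.sub_right t1
  have t4 : Tr H v ((φ ⬝ᵥ act a⁻¹ v) • cact a ψ - (ψ ⬝ᵥ act a⁻¹ v) • cact a φ) := by
    refine t3.comm h1 ?_ e1
    simp only [sub_dotProduct, smul_dotProduct, cact_dot, smul_eq_mul]
    ring
  have t5 := hx _ t4
  apply e2
  rw [dotProduct_comm] at t5
  simpa only [sub_dotProduct, smul_dotProduct, cact_dot, smul_eq_mul] using t5

/-- all transvections with vector `v` -/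
def Vf (H : Subgroup (SpecialLinearGroup (Fin n) ℤ)) (v : Fin n → ℚ) : Prop :=
  ∀ χ, χ ⬝ᵥ v = 0 → Tr H v χ

theorem Vf.conj {v : Fin n → ℚ} (h : Vf H v) {g : SpecialLinearGroup (Fin n) ℤ} (hg : g ∈ H) :
    Vf H (act (toQ g) v) := by
  intro χ hχ
  have h1 : cact (toQ g)⁻¹ χ ⬝ᵥ v = 0 := by
    rw [cact_dot, inv_inv, hχ]
  have h2 := (h _ h1).conj hg
  rwa [← cact_mul, mul_inv_cancel, cact_one] at h2

theorem span_Vf (hn : 2 ≤ n) (hH : ZariskiDense H) {v : Fin n → ℚ} (hv : v ≠ 0) (h : Vf H v) :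
    ⊤ ≤ Submodule.span ℚ {x | Vf H x} := by
  by_contra hcon
  rw [top_le_iff, Submodule.eq_top_iff'] at hcon
  push Not at hcon
  obtain ⟨y, hy⟩ := hcon
  obtain ⟨η, hη, hη1⟩ := exists_form _ hy
  have hη0 : η ≠ 0 := by
    rintro rfl
    rw [zero_dotProduct] at hη1
    exact zero_ne_one hη1
  obtain ⟨g, hg, e⟩ := generic1 hH (isReg_mulVec η v) (nonvanish hn hv hη0)
  exact e (hη _ (Submodule.subset_span (h.conj hg)))

theorem exists_dot (f : (Fin n → ℚ) →ₗ[ℚ] ℚ) : ∃ η : Fin n → ℚ, ∀ y, η ⬝ᵥ y = f y := by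
  refine ⟨fun j => f (Pi.single j 1), fun y => ?_⟩
  conv_rhs => rw [pi_eq_sum_univ' y]
  rw [map_sum, dotProduct]
  refine Finset.sum_congr rfl fun j _ => ?_
  rw [map_smul, smul_eq_mul, mul_comm]

theorem eq_of_dot {φ ψ : Fin n → ℚ} (h : ∀ y, φ ⬝ᵥ y = ψ ⬝ᵥ y) : φ = ψ := by
  ext j
  have := h (Pi.single j 1)
  simpa using this

theorem Tr_all_basis {ι : Type} [Fintype ι] [DecidableEq ι] (h3 : 3 ≤ Fintype.card ι)
    (b : Module.Basis ι ℚ (Fin n → ℚ)) (hb : ∀ i, Vf H (b i)) (v φ : Fin n → ℚ)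
    (h : φ ⬝ᵥ v = 0) : Tr H v φ := by
  have hc : ∀ i, ∃ η : Fin n → ℚ, ∀ y, η ⬝ᵥ y = b.coord i y := fun i => exists_dot _
  choose c hc using hc
  have hcb : ∀ i j, c i ⬝ᵥ b j = if i = j then 1 else 0 := by
    intro i j
    rw [hc, Module.Basis.coord_apply, Module.Basis.repr_self, Finsupp.single_apply]
    simp [eq_comm]
  have hsum : ∀ y, ∑ i, (c i ⬝ᵥ y) • b i = y := by
    intro y
    simp only [hc, Module.Basis.coord_apply]
    exact b.sum_repr y
  have hfsum : ∀ χ : Fin n → ℚ, ∑ i, (χ ⬝ᵥ b i) • c i = χ := by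
    intro χ
    apply eq_of_dot
    intro y
    rw [sum_dotProduct]
    conv_rhs => rw [← hsum y, dotProduct_sum]
    refine Finset.sum_congr rfl fun i _ => ?_
    rw [smul_dotProduct, dotProduct_smul, smul_eq_mul, smul_eq_mul, mul_comm]
  have ha : ∀ k v, c k ⬝ᵥ v = 0 → Tr H v (c k) := by
    intro k v hv
    rw [← mem_Wf, ← hsum v]
    refine Submodule.sum_mem _ fun i _ => ?_
    by_cases hik : i = k
    · rw [hik, hv, zero_smul]
      exact Submodule.zero_mem _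
    · refine Submodule.smul_mem _ _ ?_
      rw [mem_Wf]
      refine hb i _ ?_
      rw [hcb, if_neg (Ne.symm hik)]
  have hcc : ∀ k v φ, c k ⬝ᵥ v = 0 → φ ⬝ᵥ b k = 0 → φ ⬝ᵥ v = 0 → Tr H v φ := by
    intro k v φ h1 h2 h3
    refine (hb k φ h2).comm (ha k v h1) h3 ?_
    rw [hcb, if_pos rfl]
    exact one_ne_zero
  have he : ∀ k v φ, φ ⬝ᵥ b k = 0 → φ ⬝ᵥ v = 0 → Tr H v φ := by
    intro k v φ h2 h3
    have h4 : v = (v - (c k ⬝ᵥ v) • b k) + (c k ⬝ᵥ v) • b k := by abel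
    rw [h4]
    refine (hcc k _ φ ?_ h2 ?_).add_left ((hb k φ h2).smul_left _)
    · rw [dotProduct_sub, dotProduct_smul, hcb, if_pos rfl, smul_eq_mul, mul_one, sub_self]
    · rw [dotProduct_sub, dotProduct_smul, h2, h3, smul_zero, sub_zero]
  by_cases hv : v = 0
  · rw [hv]
    exact Tr.zero_left _
  · have h1 : ∃ k, c k ⬝ᵥ v ≠ 0 := by
      by_contra hcon
      push Not at hcon
      apply hv
      rw [← hsum v]
      simp [hcon]
    obtain ⟨k, hk⟩ := h1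
    have h2 : φ = ∑ i, (φ ⬝ᵥ b i) • (c i - ((c i ⬝ᵥ v) * (c k ⬝ᵥ v)⁻¹) • c k) := by
      simp only [smul_sub, Finset.sum_sub_distrib, hfsum]
      have h3 : ∑ i, (φ ⬝ᵥ b i) • ((c i ⬝ᵥ v) * (c k ⬝ᵥ v)⁻¹) • c k =
          ((φ ⬝ᵥ v) * (c k ⬝ᵥ v)⁻¹) • c k := by
        conv_rhs => rw [← hsum v, dotProduct_sum, Finset.sum_mul, Finset.sum_smul]
        refine Finset.sum_congr rfl fun i _ => ?_
        rw [smul_smul, dotProduct_smul, smul_eq_mul, hsum]
        congr 1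
        ring
      rw [h3, h, zero_mul, zero_smul, sub_zero]
    rw [h2, ← mem_Wv]
    refine Submodule.sum_mem _ fun i _ => Submodule.smul_mem _ _ ?_
    rw [mem_Wv]
    obtain ⟨l, hl⟩ : ∃ l, l ∉ ({i, k} : Finset ι) := by
      by_contra hcon
      push Not at hcon
      have h4 : Fintype.card ι ≤ ({i, k} : Finset ι).card := by
        rw [← Finset.card_univ]
        exact Finset.card_le_card fun x _ => hcon x
      have h5 : ({i, k} : Finset ι).card ≤ 2 := Finset.card_le_two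
      omega
    simp only [Finset.mem_insert, Finset.mem_singleton, not_or] at hl
    refine he l v _ ?_ ?_
    · rw [sub_dotProduct, smul_dotProduct, hcb, hcb, if_neg (Ne.symm hl.1), if_neg (Ne.symm hl.2)]
      simp
    · rw [sub_dotProduct, smul_dotProduct, smul_eq_mul, mul_assoc, inv_mul_cancel₀ hk, mul_one,
        sub_self]

theorem Tr_all (hn : 3 ≤ n) (hH : ZariskiDense H) (hgood : Good H) (v φ : Fin n → ℚ)
    (h : φ ⬝ᵥ v = 0) : Tr H v φ := by
  classical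
  obtain ⟨v0, φ0, ψ0, hv0, hφ0, hψ0, t1, t2⟩ := hgood
  have h1 : Vf H v0 := fun χ hχ => Wfull (by omega) hH hv0 hφ0 hψ0 t1 t2 χ hχ
  have h2 := span_Vf (by omega) hH hv0 h1
  obtain ⟨ι, hι, b, hb⟩ : ∃ (ι : Type) (_ : Fintype ι) (b : Module.Basis ι ℚ (Fin n → ℚ)),
      ∀ i, Vf H (b i) :=
    ⟨_, @Fintype.ofFinite _ (Module.Finite.finite_basis (Module.Basis.ofSpan h2)),
      Module.Basis.ofSpan h2, fun i => Module.Basis.ofSpan_subset h2 ⟨i, rfl⟩⟩
  have hcard := Module.finrank_eq_card_basis b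
  rw [Module.finrank_fin_fun] at hcard
  exact Tr_all_basis (by rw [← hcard]; exact hn) b hb v φ h

theorem toQ_coe_apply (g : SpecialLinearGroup (Fin n) ℤ) (i j : Fin n) :
    (toQ g : Matrix (Fin n) (Fin n) ℚ) i j = ((g : Matrix (Fin n) (Fin n) ℤ) i j : ℚ) := rfl

theorem elem_mem_of_Tr {i j : Fin n} (hij : i ≠ j)
    (h : Tr H (Pi.single i 1) (Pi.single j 1)) :
    ∃ N : ℕ, 0 < N ∧ (SpecialLinearGroup.transvection hij (N : ℤ) :
      SpecialLinearGroup (Fin n) ℤ) ∈ H := by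
  obtain ⟨h0, N, hN, g, hg, e⟩ := h
  refine ⟨N, hN, ?_⟩
  have : g = SpecialLinearGroup.transvection hij (N : ℤ) := by
    rw [elem_eq hij _ (single_dot_single hij _ _)]
    apply sl_ext
    ext a b
    have h1 := congrFun (congrFun e a) b
    rw [toQ_coe_apply] at h1
    have h2 : ((g : Matrix (Fin n) (Fin n) ℤ) a b : ℚ) =
        (((1 + vecMulVec (Pi.single i 1) (Pi.single j (N : ℤ)) : Matrix (Fin n) (Fin n) ℤ) a b : ℤ) : ℚ) := by
      rw [h1, Matrix.add_apply, Matrix.add_apply, vecMulVec_apply, vecMulVec_apply, Matrix.one_apply,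
        Matrix.one_apply, Pi.smul_apply, Pi.single_apply, Pi.single_apply, Pi.single_apply,
        Pi.single_apply]
      push_cast
      split_ifs <;> simp
    exact_mod_cast h2
  rwa [← this]

theorem finiteIndex_of_good (hn : 3 ≤ n) (hH : ZariskiDense H) (hgood : Good H) :
    H.FiniteIndex := by
  have h1 : ∀ (i j : Fin n) (hij : i ≠ j), ∃ N : ℕ, 0 < N ∧
      (SpecialLinearGroup.transvection hij (N : ℤ) : SpecialLinearGroup (Fin n) ℤ) ∈ H :=
    fun i j hij => elem_mem_of_Tr hij (Tr_all hn hH hgood _ _ (single_dot_single hij _ _))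
  have h2 : ∀ (p : Fin n × Fin n), ∃ N : ℕ, 0 < N ∧ ∀ hij : p.1 ≠ p.2,
      (SpecialLinearGroup.transvection hij (N : ℤ) : SpecialLinearGroup (Fin n) ℤ) ∈ H := by
    intro p
    by_cases hp : p.1 = p.2
    · exact ⟨1, one_pos, fun h => absurd hp h⟩
    · obtain ⟨N, hN, h⟩ := h1 _ _ hp
      exact ⟨N, hN, fun _ => h⟩
  choose N hN hmem using h2
  set M : ℕ := 2 * ∏ p, N p with hM
  have hMpos : 0 < ∏ p, N p := Finset.prod_pos fun p _ => hN p
  have hpow : ∀ (i j : Fin n) (hij : i ≠ j) (a k : ℕ),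
      (SpecialLinearGroup.transvection hij (a : ℤ) : SpecialLinearGroup (Fin n) ℤ) ∈ H →
      (SpecialLinearGroup.transvection hij ((a * k : ℕ) : ℤ) : SpecialLinearGroup (Fin n) ℤ) ∈ H := by
    intro i j hij a k ha
    induction k with
    | zero =>
      rw [mul_zero, Nat.cast_zero, SpecialLinearGroup.transvection_coeff_zero]
      exact H.one_mem
    | succ k ih =>
      rw [mul_add, mul_one, Nat.cast_add, SpecialLinearGroup.transvection_add]
      exact H.mul_mem ih ha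
  have hall : ∀ (i j : Fin n) (hij : i ≠ j),
      (SpecialLinearGroup.transvection hij (M : ℤ) : SpecialLinearGroup (Fin n) ℤ) ∈ H := by
    intro i j hij
    obtain ⟨k, hk⟩ : N (i, j) ∣ M := (Finset.dvd_prod_of_mem N (Finset.mem_univ (i, j))).mul_left 2
    rw [hk]
    exact hpow i j hij _ k (hmem (i, j) hij)
  have h3 := normalClosure_sq_le n hn (M : ℤ) H hall
  have h4 : (2 : ℤ) ≤ (M : ℤ) ^ 2 := by
    have h5 : (2 : ℤ) ≤ M := by
      rw [hM]; push_cast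
      have : (1 : ℤ) ≤ ∏ p, (N p : ℤ) := by exact_mod_cast hMpos
      linarith
    nlinarith
  have h5 := finiteIndex_normalClosure n hn ((M : ℤ) ^ 2) h4
  exact Subgroup.finiteIndex_of_le h3

theorem eq_top_of_profinitelyDense (hH : ProfinitelyDense H) (hf : H.FiniteIndex) : H = ⊤ := by
  rw [eq_top_iff]
  intro g _
  have hfin : Finite (SpecialLinearGroup (Fin n) ℤ ⧸ H.normalCore) := inferInstance
  obtain ⟨h, hh, e⟩ := hH (SpecialLinearGroup (Fin n) ℤ ⧸ H.normalCore)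
    (QuotientGroup.mk' H.normalCore) g
  have h1 : h⁻¹ * g ∈ H.normalCore := by
    rw [← QuotientGroup.eq]
    exact e
  have h2 := H.normalCore_le h1
  have h3 := H.mul_mem hh h2
  rwa [mul_inv_cancel_left] at h3

end Pool.Agent.T2H86.TV
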