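import Pool.Agent.T2H86.TV.Basic
import Pool.Agent.H185.ZM.Euc

/-!
# Package E: `SL(n, ℤ)` is generated by elementary matrices

Proof (fixed `n`, no block matrices).
Let `E` be the closure. For `k ≤ n` let `P k` be: every `g ∈ SL(n,ℤ)` with `g e_i = e_i` for all `i < k`
lies in `E`.  `P n` is clear (`g = 1`), and one shows `P (k+1) → P k` (or does a downward induction).
Let `v = g e_k` (column `k`).  The row `ρ = e_k^* g⁻¹` satisfies `ρ (g e_k) = 1` and
`ρ_i = ρ (g e_i) = 0` for `i < k`, so `∑_{l ≥ k} ρ_l v_l = 1`.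
* If `k = n - 1` (last index): `v_k` is a unit and `g` is upper triangular with diagonal
  `(1, …, 1, v_k)`, so `v_k = det g = 1`.
* Otherwise, with `j = k + 1`: by the Euclidean algorithm on the pair `(v_k, v_l)` (row operations
  `E_{kl}(c)`, `E_{lk}(c)`, `l > k`, which do not change the columns `i < k`), for each `l > k` in turn,
  make `v_l = 0` for all `l > k`; then `ρ' v = 1` gives `v_k = ± 1`; if `v_k = -1` use `j`:
  `(-1, 0) → (-1, 1) → (1, 1) → (1, 0)`.
* Now `v_k = 1` and `v_l = 0` for `l > k`; kill `v_i`, `i < k`, by `E_{ik}(-v_i)`.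
  The new matrix has `g e_i = e_i` for `i < k + 1`; use `P (k+1)`.
(Another organisation: strong induction on `∑_{l ≥ k} |v_l|`: if two entries `v_a, v_b` with
`a, b ≥ k`, `a ≠ b`, are nonzero, subtract a multiple of the smaller from the larger.)
-/

set_option autoImplicit false

namespace Pool.Agent.T2H86.TV

open Matrix

theorem closure_elem (n : ℕ) :
    Subgroup.closure {g : SpecialLinearGroup (Fin n) ℤ |
      ∃ (i j : Fin n) (h : i ≠ j) (c : ℤ), g = SpecialLinearGroup.transvection h c} = ⊤ := by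
  rw [← Pool.Agent.H185.ZM.EE_eq_top (n := n) (R := ℤ)]
  unfold Pool.Agent.H185.ZM.EE
  congr 1
  ext g
  constructor
  · rintro ⟨i, j, h, c, rfl⟩
    exact ⟨i, j, h, c, rfl⟩
  · rintro ⟨i, j, h, c, rfl⟩
    exact ⟨i, j, h, c, rfl⟩

end Pool.Agent.T2H86.TV
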