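import Pool.Agent.T2H86.TV.Basic

/-!
# Package G: generic elements of a Zariski dense subgroup

Proofs.
`one-parameter fact`: for `F` regular, matrices `A B C`, there is `p : Polynomial ℚ` with
  `p.eval t = F (A * (B + t • C))`-like expressions for all `t` (substitute linear polynomials:
  `MvPolynomial.aeval (fun ij => Polynomial.C _ + Polynomial.X * Polynomial.C _) P`).

`generic`: let `𝔾` be the subgroup of `SL(n,ℚ)` generated by the `tv x ξ`.
 (i) If `F` is regular and `F` vanishes on (the image of) `SL(n,ℤ)` then it vanishes on `𝔾`: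
   the set of regular `F` vanishing on `SL(n,ℤ)` is stable under right translation by `tv x ξ`: for `g ∈ SL(n,ℤ)`,
   `t ↦ F (g * tv x (t ξ))` is a polynomial in `t` vanishing for all `t ∈ m ℤ` where `m > 0` is such that
   `m x_i ξ_j ∈ ℤ` (then `tv x (m k ξ)` is the image of an integral matrix), so it is zero. Then use
   induction on a word in the generators (`Subgroup.closure_induction` or lists), finally evaluate at `g = 1`.
 (ii) If `F₁ (a) ≠ 0`, `F₂ (b) ≠ 0`, `a, b ∈ 𝔾`, there is `c ∈ 𝔾` with `F₁ c ≠ 0` and `F₂ c ≠ 0`: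
   induction on the length of a word for `a⁻¹ b = tv x ξ * w`: the polynomials `t ↦ F₁ (a * tv x (t ξ))`
   (nonzero at `t = 0`) and `t ↦ F₂ (a * tv x (t ξ) * w)` (nonzero at `t = 1`) are both nonzero at some `t`;
   replace `a` by `a * tv x (t ξ)` and `b` by `a * tv x (t ξ) * w`.
 So `F₁ * F₂` does not vanish on `𝔾`, hence not on `SL(n,ℤ)`, hence not on `H`.

`zariskiDense_of_profinitelyDense`: let `P` (over `ℚ`) vanish on `H`, `g ∈ SL(n,ℤ)`. Clear denominators: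
  `m • P = map P'`, `P'` over `ℤ`, `m > 0` (`MvPolynomial.induction_on`). For every `N ≥ 1` there is `h ∈ H` with the same
  image as `g` in the finite group `SL(n, ℤ/N)` (universe `Type`), so `P'(g) ≡ P'(h) = 0 (mod N)`. Hence `P'(g) = 0`.
-/

set_option autoImplicit false

namespace Pool.Agent.T2H86.TV

open Matrix

variable {n : ℕ}

/-- `H` is Zariski dense in `SL_n`: every polynomial in the matrix entries, with rational
coefficients, which vanishes on `H` vanishes on `SL(n, ℤ)` -/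
def ZariskiDense (H : Subgroup (SpecialLinearGroup (Fin n) ℤ)) : Prop :=
  ∀ P : MvPolynomial (Fin n × Fin n) ℚ,
    (∀ h ∈ H, MvPolynomial.eval (fun ij => (((h : Matrix (Fin n) (Fin n) ℤ) ij.1 ij.2 : ℤ) : ℚ)) P = 0) →
    ∀ g : SpecialLinearGroup (Fin n) ℤ,
      MvPolynomial.eval (fun ij => (((g : Matrix (Fin n) (Fin n) ℤ) ij.1 ij.2 : ℤ) : ℚ)) P = 0

/-- `H` is dense in the profinite topology of `SL(n, ℤ)`: it has the same image as `SL(n, ℤ)` under
every homomorphism to a finite group -/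
def ProfinitelyDense (H : Subgroup (SpecialLinearGroup (Fin n) ℤ)) : Prop :=
  ∀ (Q : Type) [Group Q] [Finite Q] (f : SpecialLinearGroup (Fin n) ℤ →* Q)
    (g : SpecialLinearGroup (Fin n) ℤ), ∃ h ∈ H, f h = f g

/-- the embedding `SL(n, ℤ) → SL(n, ℚ)` -/
def toQ : SpecialLinearGroup (Fin n) ℤ →* SpecialLinearGroup (Fin n) ℚ :=
  SpecialLinearGroup.map (Int.castRingHom ℚ)

/-- the subgroup of `SL(n, ℚ)` generated by all transvections -/
def GG (n : ℕ) : Subgroup (SpecialLinearGroup (Fin n) ℚ) :=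
  Subgroup.closure {g | ∃ (x ξ : Fin n → ℚ) (h : ξ ⬝ᵥ x = 0), g = tv x ξ h}

/-- regular functions -/
def IsReg (F : Matrix (Fin n) (Fin n) ℚ → ℚ) : Prop :=
  ∃ P : MvPolynomial (Fin n × Fin n) ℚ, ∀ A, F A = MvPolynomial.eval (fun ij => A ij.1 ij.2) P

theorem isReg_const (c : ℚ) : IsReg (fun _ : Matrix (Fin n) (Fin n) ℚ => c) :=
  ⟨MvPolynomial.C c, fun A => by rw [MvPolynomial.eval_C]⟩

theorem IsReg.add {F G : Matrix (Fin n) (Fin n) ℚ → ℚ} (hF : IsReg F) (hG : IsReg G) :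
    IsReg (fun A => F A + G A) := by
  obtain ⟨P, hP⟩ := hF
  obtain ⟨Q, hQ⟩ := hG
  exact ⟨P + Q, fun A => by simp only [map_add, hP, hQ]⟩

theorem IsReg.sub {F G : Matrix (Fin n) (Fin n) ℚ → ℚ} (hF : IsReg F) (hG : IsReg G) :
    IsReg (fun A => F A - G A) := by
  obtain ⟨P, hP⟩ := hF
  obtain ⟨Q, hQ⟩ := hG
  exact ⟨P - Q, fun A => by simp only [map_sub, hP, hQ]⟩

theorem IsReg.mul {F G : Matrix (Fin n) (Fin n) ℚ → ℚ} (hF : IsReg F) (hG : IsReg G) :
    IsReg (fun A => F A * G A) := by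
  obtain ⟨P, hP⟩ := hF
  obtain ⟨Q, hQ⟩ := hG
  exact ⟨P * Q, fun A => by simp only [map_mul, hP, hQ]⟩

theorem isReg_entry (i j : Fin n) : IsReg (fun A : Matrix (Fin n) (Fin n) ℚ => A i j) :=
  ⟨MvPolynomial.X (i, j), fun A => by rw [MvPolynomial.eval_X]⟩

theorem isReg_sum {ι : Type} (s : Finset ι) {F : ι → Matrix (Fin n) (Fin n) ℚ → ℚ}
    (hF : ∀ i, IsReg (F i)) : IsReg (fun A => ∑ i ∈ s, F i A) := by
  choose P hP using hF
  exact ⟨∑ i ∈ s, P i, fun A => by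
    rw [map_sum]
    exact Finset.sum_congr rfl fun i _ => hP i A⟩

theorem isReg_mulVec (φ v : Fin n → ℚ) : IsReg (fun A => φ ⬝ᵥ (A *ᵥ v)) := by
  unfold dotProduct mulVec dotProduct
  exact isReg_sum _ fun i => (isReg_const _).mul (isReg_sum _ fun j =>
    (isReg_entry i j).mul (isReg_const _))

theorem isReg_adj_entry (i j : Fin n) :
    IsReg (fun A : Matrix (Fin n) (Fin n) ℚ => A.adjugate i j) := by
  refine ⟨(mvPolynomialX (Fin n) (Fin n) ℚ).adjugate i j, fun A => ?_⟩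
  have h1 := (MvPolynomial.eval fun p : Fin n × Fin n => A p.1 p.2).map_adjugate
    (mvPolynomialX (Fin n) (Fin n) ℚ)
  rw [mvPolynomialX_mapMatrix_eval] at h1
  exact (congrFun (congrFun h1 i) j).symm

theorem isReg_adjugate (φ v : Fin n → ℚ) : IsReg (fun A => φ ⬝ᵥ (A.adjugate *ᵥ v)) := by
  unfold dotProduct mulVec dotProduct
  exact isReg_sum _ fun i => (isReg_const _).mul (isReg_sum _ fun j =>
    (isReg_adj_entry i j).mul (isReg_const _))

/-- the composition with a right multiplication -/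
theorem IsReg.comp_mul {F : Matrix (Fin n) (Fin n) ℚ → ℚ} (hF : IsReg F)
    (B : Matrix (Fin n) (Fin n) ℚ) : IsReg (fun A => F (A * B)) := by
  obtain ⟨P, hP⟩ := hF
  have h1 : ∀ i j, IsReg (fun A : Matrix (Fin n) (Fin n) ℚ => (A * B) i j) := by
    intro i j
    simp only [Matrix.mul_apply]
    exact isReg_sum _ fun k => (isReg_entry i k).mul (isReg_const _)
  choose Q hQ using h1
  refine ⟨MvPolynomial.bind₁ (fun ij : Fin n × Fin n => Q ij.1 ij.2) P, fun A => ?_⟩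
  show F (A * B) = _
  rw [hP, ← MvPolynomial.coe_aeval_eq_eval, ← MvPolynomial.coe_aeval_eq_eval]
  show MvPolynomial.aeval _ P = MvPolynomial.aeval _ (MvPolynomial.bind₁ _ P)
  rw [MvPolynomial.aeval_bind₁]
  congr 2
  funext ij
  exact hQ ij.1 ij.2 A

/-- a regular function on a polynomial family of matrices -/
theorem IsReg.poly {F : Matrix (Fin n) (Fin n) ℚ → ℚ} (hF : IsReg F)
    {M : ℚ → Matrix (Fin n) (Fin n) ℚ} (hM : ∀ i j, ∃ p : Polynomial ℚ, ∀ t, M t i j = p.eval t) :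
    ∃ p : Polynomial ℚ, ∀ t, F (M t) = p.eval t := by
  obtain ⟨P, hP⟩ := hF
  choose q hq using hM
  refine ⟨MvPolynomial.aeval (fun ij : Fin n × Fin n => q ij.1 ij.2) P, fun t => ?_⟩
  rw [hP]
  have h1 : Polynomial.eval t (MvPolynomial.aeval (fun ij : Fin n × Fin n => q ij.1 ij.2) P)
      = Polynomial.aeval t (MvPolynomial.aeval (fun ij : Fin n × Fin n => q ij.1 ij.2) P) := by
    rw [Polynomial.coe_aeval_eq_eval]
  rw [h1, ← MvPolynomial.coe_aeval_eq_eval]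
  have h2 := MvPolynomial.comp_aeval_apply (fun ij : Fin n × Fin n => q ij.1 ij.2)
    (Polynomial.aeval (R := ℚ) t) P
  rw [h2]
  show MvPolynomial.aeval _ P = _
  congr 2
  funext ij
  rw [hq, Polynomial.coe_aeval_eq_eval]

theorem tv_family {x ξ : Fin n → ℚ} (A B : Matrix (Fin n) (Fin n) ℚ) (i j : Fin n) :
    ∃ p : Polynomial ℚ, ∀ t : ℚ, (A * (1 + vecMulVec x (t • ξ)) * B) i j = p.eval t := by
  refine ⟨Polynomial.C ((A * B) i j) + Polynomial.X * Polynomial.C ((A * vecMulVec x ξ * B) i j),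
    fun t => ?_⟩
  have h1 : A * (1 + vecMulVec x (t • ξ)) * B = A * B + t • (A * vecMulVec x ξ * B) := by
    rw [vecMulVec_smul, mul_add, mul_one, add_mul, Matrix.mul_smul, Matrix.smul_mul]
  rw [h1]
  simp only [Matrix.add_apply, Matrix.smul_apply, smul_eq_mul, Polynomial.eval_add,
    Polynomial.eval_mul, Polynomial.eval_C, Polynomial.eval_X]

theorem mem_GG {x ξ : Fin n → ℚ} (h : ξ ⬝ᵥ x = 0) : tv x ξ h ∈ GG n :=
  Subgroup.subset_closure ⟨x, ξ, h, rfl⟩

theorem smul_dot {x ξ : Fin n → ℚ} (h : ξ ⬝ᵥ x = 0) (t : ℚ) : (t • ξ) ⬝ᵥ x = 0 := by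
  rw [smul_dotProduct, h, smul_zero]

/-- a multiple of a transvection is integral -/
theorem exists_integral {x ξ : Fin n → ℚ} (h : ξ ⬝ᵥ x = 0) : ∃ m : ℤ, m ≠ 0 ∧
    ∀ k : ℤ, ∃ g : SpecialLinearGroup (Fin n) ℤ, toQ g = tv x (((m * k : ℤ) : ℚ) • ξ) (smul_dot h _) := by
  obtain ⟨b, hb⟩ := IsLocalization.exist_integer_multiples_of_finite (nonZeroDivisors ℤ)
    (fun ij : Fin n × Fin n => x ij.1 * ξ ij.2)
  choose c hc using hb
  refine ⟨b, nonZeroDivisors.ne_zero b.2, fun k => ?_⟩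
  have hc' : ∀ i j, ((c (i, j) : ℤ) : ℚ) = ((b : ℤ) : ℚ) * (x i * ξ j) := by
    intro i j
    have := hc (i, j)
    simpa using this
  let C : Matrix (Fin n) (Fin n) ℤ := 1 + Matrix.of fun i j => k * c (i, j)
  have hC : (Int.castRingHom ℚ).mapMatrix C = 1 + vecMulVec x ((((b : ℤ) * k : ℤ) : ℚ) • ξ) := by
    ext i j
    rw [RingHom.mapMatrix_apply, Matrix.map_apply]
    simp only [C, Matrix.add_apply, Matrix.of_apply, vecMulVec_apply, Pi.smul_apply, smul_eq_mul,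
      map_add, map_mul, Matrix.one_apply]
    have e1 : (Int.castRingHom ℚ) (c (i, j)) = ((b : ℤ) : ℚ) * (x i * ξ j) := hc' i j
    rw [e1]
    push_cast
    split_ifs
    · simp
      ring
    · simp
      ring
  have hd : C.det = 1 := by
    have h1 : (Int.castRingHom ℚ) C.det = 1 := by
      rw [RingHom.map_det, hC, det_one_add_vecMulVec, smul_dot h, add_zero]
    have h2 : ((C.det : ℤ) : ℚ) = ((1 : ℤ) : ℚ) := by
      rw [Int.cast_one]
      exact h1
    exact_mod_cast h2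
  refine ⟨⟨C, hd⟩, ?_⟩
  apply sl_ext
  rw [tv_coe]
  exact hC

theorem toQ_coe (g : SpecialLinearGroup (Fin n) ℤ) (i j : Fin n) :
    (toQ g : Matrix (Fin n) (Fin n) ℚ) i j = (((g : Matrix (Fin n) (Fin n) ℤ) i j : ℤ) : ℚ) := rfl

/-- a polynomial with a zero at every multiple of `m` is zero -/
theorem poly_zero {p : Polynomial ℚ} {m : ℤ} (hm : m ≠ 0)
    (h : ∀ k : ℤ, p.eval ((m * k : ℤ) : ℚ) = 0) : p = 0 := by
  by_contra hp
  have hfin : {t : ℚ | p.IsRoot t}.Finite := Polynomial.finite_setOfPred_isRoot hp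
  have hinj : Function.Injective (fun k : ℤ => ((m * k : ℤ) : ℚ)) := by
    intro a b hab
    have h0 : ((m * a : ℤ) : ℚ) = ((m * b : ℤ) : ℚ) := hab
    have h1 : m * a = m * b := by exact_mod_cast h0
    exact mul_left_cancel₀ hm h1
  exact (Set.infinite_range_of_injective hinj) (hfin.subset (by
    rintro _ ⟨k, rfl⟩
    exact h k))

theorem vanish_step {F : Matrix (Fin n) (Fin n) ℚ → ℚ} (hF : IsReg F)
    (h0 : ∀ g : SpecialLinearGroup (Fin n) ℤ, F (toQ g : Matrix (Fin n) (Fin n) ℚ) = 0)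
    {x ξ : Fin n → ℚ} (h : ξ ⬝ᵥ x = 0) (g : SpecialLinearGroup (Fin n) ℤ) :
    F ((toQ g : Matrix (Fin n) (Fin n) ℚ) * (tv x ξ h : Matrix (Fin n) (Fin n) ℚ)) = 0 := by
  obtain ⟨m, hm, hk⟩ := exists_integral h
  obtain ⟨p, hp⟩ := hF.poly (fun i j => tv_family (x := x) (ξ := ξ)
    (toQ g : Matrix (Fin n) (Fin n) ℚ) 1 i j)
  have hz : p = 0 := by
    refine poly_zero hm fun k => ?_
    rw [← hp, mul_one]
    obtain ⟨g', hg'⟩ := hk k
    have h1 := h0 (g * g')
    rw [map_mul, hg'] at h1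
    exact h1
  have h1 := hp 1
  rw [hz, Polynomial.eval_zero, one_smul, mul_one] at h1
  exact h1

/-- a regular function vanishing on `SL(n, ℤ)` vanishes on `GG` -/
theorem vanish_GG {w : SpecialLinearGroup (Fin n) ℚ} (hw : w ∈ GG n) :
    ∀ F : Matrix (Fin n) (Fin n) ℚ → ℚ, IsReg F →
    (∀ g : SpecialLinearGroup (Fin n) ℤ, F (toQ g : Matrix (Fin n) (Fin n) ℚ) = 0) →
    ∀ g : SpecialLinearGroup (Fin n) ℤ,
      F ((toQ g : Matrix (Fin n) (Fin n) ℚ) * (w : Matrix (Fin n) (Fin n) ℚ)) = 0 := by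
  unfold GG at hw
  induction hw using Subgroup.closure_induction_right with
  | one =>
    intro F _ h0 g
    have h1 : ((1 : SpecialLinearGroup (Fin n) ℚ) : Matrix (Fin n) (Fin n) ℚ) = 1 := rfl
    rw [h1, mul_one]
    exact h0 g
  | mul_right w hw y hy ih =>
    obtain ⟨x, ξ, h, rfl⟩ := hy
    intro F hF h0 g
    rw [sl_mul, ← mul_assoc]
    exact ih (fun A => F (A * (tv x ξ h : Matrix (Fin n) (Fin n) ℚ))) (hF.comp_mul _)
      (vanish_step hF h0 h) g
  | mul_inv_cancel w hw y hy ih =>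
    obtain ⟨x, ξ, h, rfl⟩ := hy
    intro F hF h0 g
    have h' : (-ξ) ⬝ᵥ x = 0 := by rw [neg_dotProduct, h, neg_zero]
    rw [tv_inv x ξ h h', sl_mul, ← mul_assoc]
    exact ih (fun A => F (A * (tv x (-ξ) h' : Matrix (Fin n) (Fin n) ℚ))) (hF.comp_mul _)
      (vanish_step hF h0 h') g

theorem both_step {F G : Matrix (Fin n) (Fin n) ℚ → ℚ} (hF : IsReg F) (hG : IsReg G)
    {x ξ : Fin n → ℚ} (h : ξ ⬝ᵥ x = 0) {y : SpecialLinearGroup (Fin n) ℚ}
    (ih : ∀ a ∈ GG n, F (a : Matrix (Fin n) (Fin n) ℚ) ≠ 0 →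
      G ((a * y : SpecialLinearGroup (Fin n) ℚ) : Matrix (Fin n) (Fin n) ℚ) ≠ 0 →
      ∃ c ∈ GG n, F (c : Matrix (Fin n) (Fin n) ℚ) ≠ 0 ∧ G (c : Matrix (Fin n) (Fin n) ℚ) ≠ 0) :
    ∀ a ∈ GG n, F (a : Matrix (Fin n) (Fin n) ℚ) ≠ 0 →
      G ((a * (tv x ξ h * y) : SpecialLinearGroup (Fin n) ℚ) : Matrix (Fin n) (Fin n) ℚ) ≠ 0 →
      ∃ c ∈ GG n, F (c : Matrix (Fin n) (Fin n) ℚ) ≠ 0 ∧ G (c : Matrix (Fin n) (Fin n) ℚ) ≠ 0 := by
  intro a ha h1 h2
  obtain ⟨p, hp⟩ := hF.poly (fun i j => tv_family (x := x) (ξ := ξ)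
    (a : Matrix (Fin n) (Fin n) ℚ) 1 i j)
  obtain ⟨q, hq⟩ := hG.poly (fun i j => tv_family (x := x) (ξ := ξ)
    (a : Matrix (Fin n) (Fin n) ℚ) (y : Matrix (Fin n) (Fin n) ℚ) i j)
  have hp0 : p ≠ 0 := by
    rintro rfl
    apply h1
    have h3 := hp 0
    rw [Polynomial.eval_zero, zero_smul, vecMulVec_zero, add_zero, mul_one, mul_one] at h3
    exact h3
  have hq0 : q ≠ 0 := by
    rintro rfl
    apply h2
    have h3 := hq 1
    rw [Polynomial.eval_zero, one_smul] at h3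
    rw [← mul_assoc]
    exact h3
  have hfin : {t : ℚ | (p * q).IsRoot t}.Finite :=
    Polynomial.finite_setOfPred_isRoot (mul_ne_zero hp0 hq0)
  obtain ⟨t, ht⟩ := hfin.exists_notMem
  have ht' : p.eval t ≠ 0 ∧ q.eval t ≠ 0 := by
    have h3 : (p * q).eval t ≠ 0 := ht
    rw [Polynomial.eval_mul] at h3
    exact mul_ne_zero_iff.1 h3
  refine ih (a * tv x (t • ξ) (smul_dot h t)) ((GG n).mul_mem ha (mem_GG _)) ?_ ?_
  · have h3 := hp t
    rw [mul_one] at h3
    rw [sl_mul, tv_coe, h3]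
    exact ht'.1
  · have h3 := hq t
    rw [sl_mul, sl_mul, tv_coe, h3]
    exact ht'.2

theorem both_GG {F G : Matrix (Fin n) (Fin n) ℚ → ℚ} (hF : IsReg F) (hG : IsReg G)
    {w : SpecialLinearGroup (Fin n) ℚ} (hw : w ∈ GG n) :
    ∀ a ∈ GG n, F (a : Matrix (Fin n) (Fin n) ℚ) ≠ 0 →
      G ((a * w : SpecialLinearGroup (Fin n) ℚ) : Matrix (Fin n) (Fin n) ℚ) ≠ 0 →
      ∃ c ∈ GG n, F (c : Matrix (Fin n) (Fin n) ℚ) ≠ 0 ∧ G (c : Matrix (Fin n) (Fin n) ℚ) ≠ 0 := by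
  have hw' := hw
  unfold GG at hw'
  induction hw' using Subgroup.closure_induction_left with
  | one =>
    intro a ha h1 h2
    rw [mul_one] at h2
    exact ⟨a, ha, h1, h2⟩
  | mul_left z hz y hy ih =>
    obtain ⟨x, ξ, h, rfl⟩ := hz
    exact both_step hF hG h (ih hy)
  | inv_mul_cancel z hz y hy ih =>
    obtain ⟨x, ξ, h, rfl⟩ := hz
    have h' : (-ξ) ⬝ᵥ x = 0 := by rw [neg_dotProduct, h, neg_zero]
    rw [tv_inv x ξ h h']
    exact both_step hF hG h' (ih hy)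

/-- two generic conditions hold simultaneously at some element of a Zariski dense subgroup -/
theorem generic {H : Subgroup (SpecialLinearGroup (Fin n) ℤ)} (hH : ZariskiDense H)
    {F G : Matrix (Fin n) (Fin n) ℚ → ℚ} (hF : IsReg F) (hG : IsReg G)
    (hFa : ∃ a ∈ GG n, F (a : Matrix (Fin n) (Fin n) ℚ) ≠ 0)
    (hGb : ∃ b ∈ GG n, G (b : Matrix (Fin n) (Fin n) ℚ) ≠ 0) :
    ∃ h ∈ H, F (toQ h : Matrix (Fin n) (Fin n) ℚ) ≠ 0 ∧ G (toQ h : Matrix (Fin n) (Fin n) ℚ) ≠ 0 := by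
  obtain ⟨a, ha, hFa⟩ := hFa
  obtain ⟨b, hb, hGb⟩ := hGb
  obtain ⟨c, hc, h1, h2⟩ := both_GG hF hG ((GG n).mul_mem ((GG n).inv_mem ha) hb) a ha hFa
    (by rw [mul_inv_cancel_left]; exact hGb)
  by_contra hcon
  push Not at hcon
  obtain ⟨P, hP⟩ := hF.mul hG
  have h3 : ∀ h ∈ H, MvPolynomial.eval
      (fun ij => (((h : Matrix (Fin n) (Fin n) ℤ) ij.1 ij.2 : ℤ) : ℚ)) P = 0 := by
    intro h hh
    have h4 := hP (toQ h : Matrix (Fin n) (Fin n) ℚ)
    simp only [toQ_coe] at h4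
    rw [← h4]
    by_cases h5 : F (toQ h : Matrix (Fin n) (Fin n) ℚ) = 0
    · rw [h5, zero_mul]
    · rw [hcon h hh h5, mul_zero]
  have h4 := hH P h3
  have h5 := vanish_GG hc (fun A => F A * G A) (hF.mul hG) (fun g => by
    have h6 := hP (toQ g : Matrix (Fin n) (Fin n) ℚ)
    simp only [toQ_coe] at h6
    rw [h4] at h6
    exact h6) 1
  have h6 : ((toQ (1 : SpecialLinearGroup (Fin n) ℤ) : SpecialLinearGroup (Fin n) ℚ) :
      Matrix (Fin n) (Fin n) ℚ) = 1 := by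
    rw [map_one]
    rfl
  rw [h6, one_mul] at h5
  rcases mul_eq_zero.1 h5 with h7 | h7
  · exact h1 h7
  · exact h2 h7

/-- clearing the denominators -/
theorem clear_den {σ : Type} (P : MvPolynomial σ ℚ) : ∃ (m : ℤ) (P' : MvPolynomial σ ℤ), m ≠ 0 ∧
    MvPolynomial.map (Int.castRingHom ℚ) P' = MvPolynomial.C (m : ℚ) * P := by
  induction P using MvPolynomial.induction_on with
  | C a =>
    refine ⟨a.den, MvPolynomial.C a.num, by exact_mod_cast a.den_nz, ?_⟩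
    rw [MvPolynomial.map_C, ← MvPolynomial.C_mul]
    congr 1
    have := Rat.mul_den_eq_num a
    push_cast
    rw [mul_comm]
    exact this.symm
  | add p q hp hq =>
    obtain ⟨m, P, hm, h1⟩ := hp
    obtain ⟨k, Q, hk, h2⟩ := hq
    refine ⟨m * k, MvPolynomial.C k * P + MvPolynomial.C m * Q, mul_ne_zero hm hk, ?_⟩
    rw [map_add, map_mul, map_mul, h1, h2, MvPolynomial.map_C, MvPolynomial.map_C]
    push_cast
    rw [MvPolynomial.C_mul]
    simp only [eq_intCast, map_intCast]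
    ring
  | mul_X p i hp =>
    obtain ⟨m, P, hm, h1⟩ := hp
    refine ⟨m, P * MvPolynomial.X i, hm, ?_⟩
    rw [map_mul, h1, MvPolynomial.map_X, mul_assoc]

theorem zariskiDense_of_profinitelyDense {H : Subgroup (SpecialLinearGroup (Fin n) ℤ)}
    (hH : ProfinitelyDense H) : ZariskiDense H := by
  intro P hP g
  obtain ⟨m, P', hm, hP'⟩ := clear_den P
  have key : ∀ h : SpecialLinearGroup (Fin n) ℤ,
      ((MvPolynomial.eval (fun ij => (h : Matrix (Fin n) (Fin n) ℤ) ij.1 ij.2) P' : ℤ) : ℚ)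
      = m * MvPolynomial.eval (fun ij => (((h : Matrix (Fin n) (Fin n) ℤ) ij.1 ij.2 : ℤ) : ℚ)) P := by
    intro h
    have h1 := congrArg (MvPolynomial.eval
      (fun ij : Fin n × Fin n => (((h : Matrix (Fin n) (Fin n) ℤ) ij.1 ij.2 : ℤ) : ℚ))) hP'
    rw [map_mul, MvPolynomial.eval_C, MvPolynomial.eval_map] at h1
    rw [← h1]
    have h2 := MvPolynomial.eval₂_comp_left (Int.castRingHom ℚ) (RingHom.id ℤ)
      (fun ij : Fin n × Fin n => (h : Matrix (Fin n) (Fin n) ℤ) ij.1 ij.2) P'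
    rw [RingHom.comp_id] at h2
    exact h2
  have hz : MvPolynomial.eval (fun ij => (g : Matrix (Fin n) (Fin n) ℤ) ij.1 ij.2) P' = 0 := by
    set z := MvPolynomial.eval (fun ij => (g : Matrix (Fin n) (Fin n) ℤ) ij.1 ij.2) P' with hzd
    let N : ℕ := z.natAbs + 1
    have : NeZero N := ⟨Nat.succ_ne_zero _⟩
    obtain ⟨h, hh, he⟩ := hH (SpecialLinearGroup (Fin n) (ZMod N))
      (SpecialLinearGroup.map (Int.castRingHom (ZMod N))) g
    have h0 : MvPolynomial.eval (fun ij => (h : Matrix (Fin n) (Fin n) ℤ) ij.1 ij.2) P' = 0 := by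
      have h1 := key h
      rw [hP h hh, mul_zero] at h1
      exact_mod_cast h1
    have hc : ∀ f : SpecialLinearGroup (Fin n) ℤ, (Int.castRingHom (ZMod N))
        (MvPolynomial.eval (fun ij => (f : Matrix (Fin n) (Fin n) ℤ) ij.1 ij.2) P')
        = MvPolynomial.eval₂ (Int.castRingHom (ZMod N)) (fun ij =>
          (SpecialLinearGroup.map (Int.castRingHom (ZMod N)) f :
            Matrix (Fin n) (Fin n) (ZMod N)) ij.1 ij.2) P' := by
      intro f
      have h2 := MvPolynomial.eval₂_comp_left (Int.castRingHom (ZMod N)) (RingHom.id ℤ)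
        (fun ij : Fin n × Fin n => (f : Matrix (Fin n) (Fin n) ℤ) ij.1 ij.2) P'
      rw [RingHom.comp_id] at h2
      exact h2
    have h3 := hc g
    rw [← he, ← hc h, h0, map_zero] at h3
    have h4 : ((z : ℤ) : ZMod N) = 0 := h3
    rw [ZMod.intCast_zmod_eq_zero_iff_dvd] at h4
    by_contra hne
    have h5 := Int.natAbs_dvd_natAbs.2 h4
    rw [Int.natAbs_natCast] at h5
    have h6 := Nat.le_of_dvd (Int.natAbs_pos.2 hne) h5
    simp only [N] at h6
    omega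
  have h1 := key g
  rw [hz, Int.cast_zero] at h1
  rcases mul_eq_zero.1 h1.symm with h2 | h2
  · exact absurd (by exact_mod_cast h2) hm
  · exact h2

end Pool.Agent.T2H86.TV
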