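import Pool.Agent.T2H86.TV.Full

/-!
# Transvections in every direction of a plane, and two close transvections
-/

set_option autoImplicit false

namespace Pool.Agent.T2H86.TV

open Matrix

variable {n : ℕ} {H : Subgroup (SpecialLinearGroup (Fin n) ℤ)}

/-- `x` is the direction of a transvection -/
def Dir (H : Subgroup (SpecialLinearGroup (Fin n) ℤ)) (x : Fin n → ℚ) : Prop :=
  ∃ π : Fin n → ℚ, π ≠ 0 ∧ Tr H x π

theorem Dir.smul {x : Fin n → ℚ} (h : Dir H x) (c : ℚ) : Dir H (c • x) := by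
  obtain ⟨π, h0, h1⟩ := h
  exact ⟨π, h0, h1.smul_left c⟩

theorem Dir.conj {x : Fin n → ℚ} (h : Dir H x) {g : SpecialLinearGroup (Fin n) ℤ} (hg : g ∈ H) :
    Dir H (act (toQ g) x) := by
  obtain ⟨π, h0, h1⟩ := h
  exact ⟨_, cact_ne_zero h0, h1.conj hg⟩

theorem exists_notMem_span_pair (hn : 3 ≤ n) (u v : Fin n → ℚ) :
    ∃ w, w ∉ Submodule.span ℚ {u, v} := by
  by_contra hcon
  push Not at hcon
  have h1 : Submodule.span ℚ {u, v} = ⊤ := by
    rw [eq_top_iff]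
    exact fun x _ => hcon x
  have h2 : Module.finrank ℚ (Submodule.span ℚ {u, v}) ≤ 2 := by
    classical
    have h3 := finrank_span_finset_le_card (R := ℚ) ({u, v} : Finset (Fin n → ℚ))
    have h4 : ({u, v} : Finset (Fin n → ℚ)).card ≤ 2 := Finset.card_le_two
    rw [Finset.coe_pair] at h3
    exact h3.trans h4
  rw [h1, finrank_top, Module.finrank_fin_fun] at h2
  omega

/-- transvections in every direction of a plane -/
theorem good_of_plane (hn : 3 ≤ n) (hH : ZariskiDense H) {v w : Fin n → ℚ} (hv : v ≠ 0)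
    (hw : w ∉ Submodule.span ℚ {v})
    (h : ∀ p q : ℚ, (p, q) ≠ (0, 0) → Dir H (p • v + q • w)) : Good H := by
  obtain ⟨y0, hy0⟩ := exists_notMem_span_pair hn v w
  obtain ⟨η, hη, hη1⟩ := exists_form _ hy0
  have hη0 : η ≠ 0 := by
    rintro rfl
    rw [zero_dotProduct] at hη1
    exact zero_ne_one hη1
  have ηv : η ⬝ᵥ v = 0 := hη _ (Submodule.subset_span (by simp))
  have ηw : η ⬝ᵥ w = 0 := hη _ (Submodule.subset_span (by simp))
  obtain ⟨π0, hπ0, t0⟩ := h 1 0 (by simp)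
  rw [one_smul, zero_smul, add_zero] at t0
  obtain ⟨g, hg, e⟩ := generic1 hH (isReg_mulVec η v) (nonvanish (by omega) hv hη0)
  change η ⬝ᵥ act (toQ g) v ≠ 0 at e
  have t1 := t0.conj hg
  set y := act (toQ g) v with hy
  set ξ := cact (toQ g) π0 with hξ
  have hyne : y ≠ 0 := act_ne_zero hv
  have hξne : ξ ≠ 0 := cact_ne_zero hπ0
  obtain ⟨p, q, hpq, hx⟩ : ∃ p q : ℚ, (p, q) ≠ (0, 0) ∧ ξ ⬝ᵥ (p • v + q • w) = 0 := by
    by_cases hc : ξ ⬝ᵥ v = 0
    · exact ⟨1, 0, by simp, by simp [hc]⟩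
    · refine ⟨ξ ⬝ᵥ w, -(ξ ⬝ᵥ v), ?_, ?_⟩
      · intro h1
        rw [Prod.mk.injEq, neg_eq_zero] at h1
        exact hc h1.2
      · rw [dotProduct_add, dotProduct_smul, dotProduct_smul, smul_eq_mul, smul_eq_mul]
        ring
  obtain ⟨π, hπ, t2⟩ := h p q hpq
  set x := p • v + q • w with hxdef
  have hx0 : x ≠ 0 := by
    intro h1
    by_cases hq : q = 0
    · have hp : p ≠ 0 := by
        rintro rfl
        exact hpq (by rw [hq])
      rw [hxdef, hq, zero_smul, add_zero] at h1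
      exact (smul_ne_zero hp hv) h1
    · apply hw
      rw [Submodule.mem_span_singleton]
      refine ⟨-(q⁻¹ * p), ?_⟩
      have h2 : q • w = -(p • v) := by
        rw [eq_neg_iff_add_eq_zero, add_comm]
        exact h1
      rw [neg_smul, ← smul_smul, ← smul_neg, ← h2, smul_smul, inv_mul_cancel₀ hq, one_smul]
  refine pair_case (by omega) hH hyne hx0 hξne hπ t1 t2 ?_ ?_
  · rintro ⟨h1, -⟩
    obtain ⟨c, hc⟩ := Submodule.mem_span_singleton.1 h1
    have h2 : η ⬝ᵥ x = 0 := by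
      rw [hxdef, dotProduct_add, dotProduct_smul, dotProduct_smul, ηv, ηw]
      simp
    rw [← hc, dotProduct_smul, smul_eq_mul, mul_eq_zero] at h2
    rcases h2 with h2 | h2
    · exact hx0 (by rw [← hc, h2, zero_smul])
    · exact e h2
  · rw [hx, zero_mul]

/-- rounding -/
theorem exists_near (p q : ℤ) (hq : q ≠ 0) : ∃ k : ℤ, 2 * |p + k * q| ≤ |q| := by
  have h1 := Int.emod_add_mul_ediv p q
  have h2 := Int.emod_nonneg p hq
  have h3 := Int.emod_lt_abs p hq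
  by_cases h : 2 * (p % q) ≤ |q|
  · refine ⟨-(p / q), ?_⟩
    have h4 : p + -(p / q) * q = p % q := by linarith [mul_comm q (p / q)]
    rw [h4, abs_of_nonneg h2]
    exact h
  · rcases lt_or_gt_of_ne hq with h5 | h5
    · refine ⟨-(p / q) + 1, ?_⟩
      have h4 : p + (-(p / q) + 1) * q = p % q + q := by linarith [mul_comm q (p / q)]
      rw [abs_of_neg h5] at h h3 ⊢
      rw [h4, abs_of_neg (by linarith)]
      linarith
    · refine ⟨-(p / q) - 1, ?_⟩
      have h4 : p + (-(p / q) - 1) * q = p % q - q := by linarith [mul_comm q (p / q)]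
      rw [abs_of_pos h5] at h h3 ⊢
      rw [h4, abs_of_neg (by linarith)]
      linarith

theorem act_tv_zpow {v φ : Fin n → ℚ} (h : φ ⬝ᵥ v = 0) (k : ℤ) (x : Fin n → ℚ) :
    act (tv v φ h ^ k) x = x + ((k : ℚ) * (φ ⬝ᵥ x)) • v := by
  rw [tv_zpow _ _ _ _ (dot_smul_zero h _), act_tv, smul_dotProduct, smul_eq_mul]

theorem Tr_of_act {g : SpecialLinearGroup (Fin n) ℤ} (hg : g ∈ H) {x χ : Fin n → ℚ}
    (h0 : χ ⬝ᵥ x = 0) (h : ∀ z, act (toQ g) z = z + (χ ⬝ᵥ z) • x) : Tr H x χ := by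
  refine ⟨h0, 1, one_pos, g, hg, ?_⟩
  have h1 : ∀ z, (toQ g : Matrix (Fin n) (Fin n) ℚ) *ᵥ z = (1 + vecMulVec x (((1 : ℕ) : ℚ) • χ)) *ᵥ z := by
    intro z
    have h2 := h z
    rw [act] at h2
    rw [h2, add_mulVec, one_mulVec, vecMulVec_mulVec]
    congr 1
    ext i
    simp [mul_comm]
  exact Matrix.ext_of_mulVec_single fun i => h1 _

/-- the third cusp, for the parameter `± 4` -/
theorem cusp {s t : SpecialLinearGroup (Fin n) ℤ} (hs : s ∈ H) (ht : t ∈ H) {v φ w ψ : Fin n → ℚ}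
    (h1 : φ ⬝ᵥ v = 0) (h2 : ψ ⬝ᵥ w = 0) (es : toQ s = tv v φ h1) (et : toQ t = tv w ψ h2)
    (e : ℤ) (he : e = 1 ∨ e = -1) (hc : (φ ⬝ᵥ w) * (ψ ⬝ᵥ v) = 4 * e) :
    Dir H ((φ ⬝ᵥ w) • v + (2 : ℚ) • w) := by
  set a := φ ⬝ᵥ w with ha
  set b := ψ ⬝ᵥ v with hb
  have hee : (e : ℚ) * e = 1 := by
    rcases he with rfl | rfl <;> norm_num
  have hb0 : b ≠ 0 := by
    intro h
    rw [h, mul_zero] at hc
    rcases he with rfl | rfl <;> norm_num at hc
  have he0 : (e : ℚ) ≠ 0 := by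
    rcases he with rfl | rfl <;> norm_num
  refine ⟨(e : ℚ) • ψ - ((e : ℚ) * b / 2) • φ, ?_, ?_⟩
  · intro h
    have h3 : ((e : ℚ) • ψ - ((e : ℚ) * b / 2) • φ) ⬝ᵥ v = e * b := by
      rw [sub_dotProduct, smul_dotProduct, smul_dotProduct, h1, ← hb]
      simp
    rw [h, zero_dotProduct] at h3
    exact mul_ne_zero he0 hb0 h3.symm
  · have hm : (s * t ^ (-e)) * (s * t ^ (-e)) ∈ H :=
      H.mul_mem (H.mul_mem hs (H.zpow_mem ht _)) (H.mul_mem hs (H.zpow_mem ht _))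
    have hr : ∀ z, act (toQ (s * t ^ (-e))) z =
        z + ((φ ⬝ᵥ z) - e * (ψ ⬝ᵥ z) * a) • v - (e * (ψ ⬝ᵥ z)) • w := by
      intro z
      rw [map_mul, map_zpow, es, et, act_mul, act_tv_zpow, act_tv, dotProduct_add, dotProduct_smul,
        ← ha]
      push_cast
      simp only [smul_eq_mul, neg_mul, neg_smul, sub_smul, add_smul]
      abel
    refine Tr_of_act hm ?_ fun z => ?_
    · simp only [sub_dotProduct, smul_dotProduct, dotProduct_add, dotProduct_smul, h1, h2, ← ha,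
        ← hb, smul_eq_mul]
      ring
    · have hφ : φ ⬝ᵥ act (toQ (s * t ^ (-e))) z = (φ ⬝ᵥ z) - e * (ψ ⬝ᵥ z) * a := by
        rw [hr, dotProduct_sub, dotProduct_add, dotProduct_smul, dotProduct_smul, h1, ← ha,
          smul_eq_mul, smul_eq_mul]
        ring
      have hψ : ψ ⬝ᵥ act (toQ (s * t ^ (-e))) z = b * (φ ⬝ᵥ z) - 3 * (ψ ⬝ᵥ z) := by
        rw [hr, dotProduct_sub, dotProduct_add, dotProduct_smul, dotProduct_smul, h2, ← hb,
          smul_eq_mul, smul_eq_mul]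
        linear_combination (-(e : ℚ) * (ψ ⬝ᵥ z)) * hc - 4 * (ψ ⬝ᵥ z) * hee
      rw [map_mul, act_mul, hr (act _ z), hφ, hψ, hr z]
      simp only [sub_dotProduct, smul_dotProduct, smul_eq_mul]
      have k1 : (φ ⬝ᵥ z - e * (ψ ⬝ᵥ z) * a) + (φ ⬝ᵥ z - e * (ψ ⬝ᵥ z) * a -
          e * (b * (φ ⬝ᵥ z) - 3 * (ψ ⬝ᵥ z)) * a) = (e * (ψ ⬝ᵥ z) - e * b / 2 * (φ ⬝ᵥ z)) * a := by
        linear_combination (-(e : ℚ) / 2 * (φ ⬝ᵥ z)) * hc - 2 * (φ ⬝ᵥ z) * hee
      have k2 : e * (ψ ⬝ᵥ z) + e * (b * (φ ⬝ᵥ z) - 3 * (ψ ⬝ᵥ z)) =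
          -((e * (ψ ⬝ᵥ z) - e * b / 2 * (φ ⬝ᵥ z)) * 2) := by ring
      have k3 : ∀ (α β γ δ : ℚ), z + α • v - γ • w + β • v - δ • w =
          z + ((α + β) • v + (-(γ + δ)) • w) := by
        intro α β γ δ
        rw [add_smul, neg_smul, add_smul]
        abel
      rw [k3, k1, k2, neg_neg, smul_add, smul_smul, smul_smul]

/-- all directions of the plane of two close transvections -/
theorem close_dir {s t : SpecialLinearGroup (Fin n) ℤ} (hs : s ∈ H) (ht : t ∈ H)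
    {v φ w ψ : Fin n → ℚ} (h1 : φ ⬝ᵥ v = 0) (h2 : ψ ⬝ᵥ w = 0) (es : toQ s = tv v φ h1)
    (et : toQ t = tv w ψ h2) (c : ℤ) (hc : (φ ⬝ᵥ w) * (ψ ⬝ᵥ v) = c) (hc0 : c ≠ 0) (hc4 : |c| ≤ 4)
    (hφ : φ ≠ 0) (hψ : ψ ≠ 0) (N : ℕ) : ∀ p q : ℤ, q.natAbs ≤ N → (p ≠ 0 ∨ q ≠ 0) →
      Dir H (((φ ⬝ᵥ w) * p) • v + (q : ℚ) • w) := by
  have tv1 : Tr H v φ := Tr_of_act hs h1 fun z => by rw [es, act_tv]
  have tv2 : Tr H w ψ := Tr_of_act ht h2 fun z => by rw [et, act_tv]
  set a := φ ⬝ᵥ w with ha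
  set b := ψ ⬝ᵥ v with hb
  -- the two operations
  have ops : ∀ (p q k : ℤ), Dir H ((a * ((p + k * q : ℤ) : ℚ)) • v + (q : ℚ) • w) →
      Dir H ((a * p) • v + (q : ℚ) • w) := by
    intro p q k hd
    have h3 := hd.conj (H.zpow_mem hs (-k))
    rw [map_zpow, es, act_tv_zpow] at h3
    convert h3 using 1
    rw [dotProduct_add, dotProduct_smul, dotProduct_smul, h1, ← ha, smul_eq_mul, smul_eq_mul,
      mul_zero, zero_add]
    push_cast
    have : (a * ((p : ℚ) + k * q)) • v + (q : ℚ) • w + (-(k : ℚ) * (q * a)) • v =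
      (a * ((p : ℚ) + k * q) + (-(k : ℚ) * (q * a))) • v + (q : ℚ) • w := by
      rw [add_smul]; abel
    rw [this]
    congr 2
    ring
  have opt : ∀ (p q k : ℤ), Dir H ((a * p) • v + ((q + k * (c * p) : ℤ) : ℚ) • w) →
      Dir H ((a * p) • v + (q : ℚ) • w) := by
    intro p q k hd
    have h3 := hd.conj (H.zpow_mem ht (-k))
    rw [map_zpow, et, act_tv_zpow] at h3
    convert h3 using 1
    rw [dotProduct_add, dotProduct_smul, dotProduct_smul, h2, ← hb, smul_eq_mul, smul_eq_mul,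
      mul_zero, add_zero]
    push_cast
    have : (a * (p : ℚ)) • v + ((q : ℚ) + k * (c * p)) • w + (-(k : ℚ) * (a * p * b)) • w =
      (a * (p : ℚ)) • v + (((q : ℚ) + k * (c * p)) + (-(k : ℚ) * (a * p * b))) • w := by
      rw [add_smul _ (-(k : ℚ) * (a * p * b))]; abel
    rw [this]
    congr 2
    rw [← hc]
    ring
  induction N with
  | zero =>
    intro p q hq hpq
    have hq0 : q = 0 := by omega
    rw [hq0, Int.cast_zero, zero_smul, add_zero]
    exact Dir.smul ⟨φ, hφ, tv1⟩ _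
  | succ N ih =>
    intro p q hq hpq
    by_cases hq0 : q = 0
    · rw [hq0, Int.cast_zero, zero_smul, add_zero]
      exact Dir.smul ⟨φ, hφ, tv1⟩ _
    obtain ⟨k, hk⟩ := exists_near p q hq0
    apply ops p q k
    set r := p + k * q with hr
    by_cases hr0 : r = 0
    · rw [hr0, Int.cast_zero, mul_zero, zero_smul, zero_add]
      exact Dir.smul ⟨ψ, hψ, tv2⟩ _
    obtain ⟨l, hl⟩ := exists_near q (c * r) (mul_ne_zero hc0 hr0)
    have h5 : |c * r| ≤ 4 * |r| := by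
      rw [abs_mul]
      exact mul_le_mul_of_nonneg_right hc4 (abs_nonneg _)
    by_cases hlt : |q + l * (c * r)| < |q|
    · apply opt r q l
      refine ih r _ ?_ (Or.inl hr0)
      have h6 : ((q + l * (c * r)).natAbs : ℤ) < (q.natAbs : ℤ) := by
        rw [← Int.abs_eq_natAbs, ← Int.abs_eq_natAbs]
        exact hlt
      omega
    · -- equality
      have h6 : 2 * |r| = |q| := by omega
      have h7 : |c * r| = 4 * |r| := by omega
      have h8 : |c| = 4 := by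
        rw [abs_mul] at h7
        exact mul_right_cancel₀ (abs_ne_zero.2 hr0) h7
      obtain ⟨e, he, hce⟩ : ∃ e : ℤ, (e = 1 ∨ e = -1) ∧ c = 4 * e := by
        rcases abs_eq (by norm_num : (0 : ℤ) ≤ 4) |>.1 h8 with h | h
        · exact ⟨1, Or.inl rfl, by rw [h]; norm_num⟩
        · exact ⟨-1, Or.inr rfl, by rw [h]; norm_num⟩
      have h9 : q = 2 * r ∨ q = -(2 * r) := by
        have : |q| = |2 * r| := by rw [abs_mul, abs_two, h6]
        exact abs_eq_abs.1 this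
      rcases h9 with h9 | h9
      · have h10 := (cusp hs ht h1 h2 es et e he (by rw [← ha, ← hb, hc, hce]; push_cast; rfl)).smul
          (r : ℚ)
        rw [← ha] at h10
        convert h10 using 1
        rw [smul_add, smul_smul, smul_smul, h9]
        push_cast
        congr 2 <;> ring
      · -- apply the cusp to the inverses
        have k1 : (-φ) ⬝ᵥ v = 0 := by rw [neg_dotProduct, h1, neg_zero]
        have k2 : (-ψ) ⬝ᵥ w = 0 := by rw [neg_dotProduct, h2, neg_zero]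
        have h10 := (cusp (H.inv_mem hs) (H.inv_mem ht) k1 k2
          (by rw [map_inv, es, tv_inv _ _ _ k1]) (by rw [map_inv, et, tv_inv _ _ _ k2]) e he
          (by rw [neg_dotProduct, neg_dotProduct, ← ha, ← hb, neg_mul_neg, hc, hce]; push_cast; rfl)).smul
          (-(r : ℚ))
        rw [neg_dotProduct, ← ha] at h10
        convert h10 using 1
        rw [smul_add, smul_smul, smul_smul, h9]
        push_cast
        congr 2 <;> ring

end Pool.Agent.T2H86.TV
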