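import Pool.Agent.T2H86.TV.Close

/-!
# The stabiliser of the axis of a transvection
-/

set_option autoImplicit false

namespace Pool.Agent.T2H86.TV

open Matrix

variable {n : ℕ} {H : Subgroup (SpecialLinearGroup (Fin n) ℤ)}

/-- a rational eigenvalue of an element of `SL(n, ℤ)` is an integer -/
theorem eigen_int (g : SpecialLinearGroup (Fin n) ℤ) {x : Fin n → ℚ} (hx : x ≠ 0) {c : ℚ}
    (h : act (toQ g) x = c • x) : ∃ k : ℤ, (k : ℚ) = c := by
  have h1 : ((Matrix.scalar (Fin n) c) - (toQ g : Matrix (Fin n) (Fin n) ℚ)).det = 0 := by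
    rw [← Matrix.exists_mulVec_eq_zero_iff]
    refine ⟨x, hx, ?_⟩
    rw [act] at h
    rw [sub_mulVec, h, Matrix.scalar_apply, ← smul_one_eq_diagonal, smul_mulVec, one_mulVec,
      sub_self]
  rw [← Matrix.eval_charpoly] at h1
  have h2 : (toQ g : Matrix (Fin n) (Fin n) ℚ).charpoly =
      ((g : Matrix (Fin n) (Fin n) ℤ).charpoly).map (Int.castRingHom ℚ) := by
    rw [← Matrix.charpoly_map]
    rfl
  rw [h2] at h1
  have h3 : Polynomial.aeval c (g : Matrix (Fin n) (Fin n) ℤ).charpoly = 0 := by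
    rw [Polynomial.aeval_def, Polynomial.eval₂_eq_eval_map]
    exact h1
  obtain ⟨k, hk⟩ := isInteger_of_is_root_of_monic (Matrix.charpoly_monic _) h3
  exact ⟨k, by simpa using hk⟩

theorem eigen_unit (g : SpecialLinearGroup (Fin n) ℤ) {x : Fin n → ℚ} (hx : x ≠ 0) {c : ℚ}
    (h : act (toQ g) x = c • x) : c = 1 ∨ c = -1 := by
  obtain ⟨k, hk⟩ := eigen_int g hx h
  have hc : c ≠ 0 := by
    rintro rfl
    rw [zero_smul] at h
    exact act_ne_zero hx h
  have h' : act (toQ g⁻¹) x = c⁻¹ • x := by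
    rw [map_inv]
    have h1 : act (toQ g)⁻¹ (act (toQ g) x) = x := act_inv_act _ _
    rw [h, act_smul] at h1
    rw [← h1, smul_smul, inv_mul_cancel₀ hc, one_smul, h1]
  obtain ⟨l, hl⟩ := eigen_int g⁻¹ hx h'
  have h2 : k * l = 1 := by
    have : (k : ℚ) * l = 1 := by rw [hk, hl, mul_inv_cancel₀ hc]
    exact_mod_cast this
  rcases Int.eq_one_or_neg_one_of_mul_eq_one h2 with h3 | h3
  · left; rw [← hk, h3]; norm_num
  · right; rw [← hk, h3]; norm_num

theorem act_pow_succ (g : SpecialLinearGroup (Fin n) ℚ) (k : ℕ) (x : Fin n → ℚ) :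
    act (g ^ (k + 1)) x = act g (act (g ^ k) x) := by
  rw [pow_succ', act_mul]

theorem act_pow_fix {g : SpecialLinearGroup (Fin n) ℚ} {v : Fin n → ℚ} (h : act g v = v) (k : ℕ) :
    act (g ^ k) v = v := by
  induction k with
  | zero => rw [pow_zero, act_one]
  | succ k ih => rw [act_pow_succ, ih, h]

/-- if `g^k x - x` is a multiple of the fixed vector `v` then so is `g^(kj) x - x` -/
theorem act_pow_mul {g : SpecialLinearGroup (Fin n) ℚ} {v x : Fin n → ℚ} (h : act g v = v) {c : ℚ}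
    {k : ℕ} (hk : act (g ^ k) x = x + c • v) (j : ℕ) :
    act (g ^ (k * j)) x = x + (j * c) • v := by
  induction j with
  | zero => rw [mul_zero, pow_zero, act_one]; simp
  | succ j ih =>
    rw [mul_add, mul_one, add_comm, pow_add, act_mul, ih, act_add, act_smul, act_pow_fix h, hk]
    push_cast
    rw [add_mul, one_mul, add_smul]
    abel

/-- vectors moved along `v` by some positive power of `g` -/
def Sv (g : SpecialLinearGroup (Fin n) ℚ) (v : Fin n → ℚ) (h : act g v = v) :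
    Submodule ℚ (Fin n → ℚ) where
  carrier := {x | ∃ k : ℕ, 0 < k ∧ ∃ c : ℚ, act (g ^ k) x = x + c • v}
  zero_mem' := ⟨1, one_pos, 0, by rw [act, mulVec_zero]; simp⟩
  add_mem' := by
    rintro x y ⟨k, hk, c, hc⟩ ⟨l, hl, d, hd⟩
    refine ⟨k * l, Nat.mul_pos hk hl, l * c + k * d, ?_⟩
    have h1 := act_pow_mul h hc l
    have h2 := act_pow_mul h hd k
    rw [act_add, h1, mul_comm k l, h2, add_smul]
    abel
  smul_mem' := by
    rintro a x ⟨k, hk, c, hc⟩
    refine ⟨k, hk, a * c, ?_⟩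
    rw [act_smul, hc, smul_add, smul_smul]

theorem nonvanish3 {v φ : Fin n → ℚ} (hv : v ≠ 0) (hφ : φ ≠ 0) (h0 : φ ⬝ᵥ v = 0) :
    ∃ g ∈ GG n, (φ ⬝ᵥ act g v) * (φ ⬝ᵥ act g⁻¹ v) ≠ 0 := by
  obtain ⟨y, hy⟩ := exists_dot_ne hφ
  have h1 : v ∉ Submodule.span ℚ {y} := by
    intro h
    obtain ⟨c, hc⟩ := Submodule.mem_span_singleton.1 h
    rw [← hc, dotProduct_smul, smul_eq_mul, mul_eq_zero] at h0
    rcases h0 with h0 | h0
    · exact hv (by rw [← hc, h0, zero_smul])
    · exact hy h0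
  obtain ⟨η, hη, hη1⟩ := exists_form _ h1
  have hηy : η ⬝ᵥ y = 0 := hη _ (Submodule.mem_span_singleton_self _)
  refine ⟨tv y η hηy, tv_mem_GG _, ?_⟩
  have h2 : (-η) ⬝ᵥ y = 0 := by rw [neg_dotProduct, hηy, neg_zero]
  rw [tv_inv _ _ _ h2, act_tv, act_tv, neg_dotProduct, hη1, dotProduct_add, dotProduct_add, h0,
    dotProduct_smul, dotProduct_smul]
  simp [hy]

/-- the main step: an element fixing `v` -/
theorem good_of_fix (hn : 3 ≤ n) (hH : ZariskiDense H) {t u : SpecialLinearGroup (Fin n) ℤ}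
    (htH : t ∈ H) (huH : u ∈ H) {v φ : Fin n → ℤ} (hv : v ≠ 0) (hφ : φ ≠ 0)
    (ht : (t : Matrix (Fin n) (Fin n) ℤ) = 1 + vecMulVec v φ)
    (hu : act (toQ u) (cst v) = cst v)
    (hut : ∀ a b : ℤ, u ^ a = t ^ b → a = 0 ∧ b = 0) : Good H := by
  have h1 : cst φ ⬝ᵥ cst v = 0 := by rw [cst_dot, dot_zero_of_eq ht, Int.cast_zero]
  have et : toQ t = tv (cst v) (cst φ) h1 := toQ_eq ht h1
  have hvQ := cst_ne_zero hv
  have hφQ := cst_ne_zero hφ
  have tr0 := Tr_of_mem htH ht
  by_cases hS : Sv (toQ u) (cst v) hu = ⊤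
  · -- some power of `u` is a transvection along `v`
    have h2 : ∀ i : Fin n, ∃ k : ℕ, 0 < k ∧ ∃ c : ℚ,
        act (toQ u ^ k) (Pi.single i 1) = Pi.single i 1 + c • cst v := by
      intro i
      have : (Pi.single i 1 : Fin n → ℚ) ∈ Sv (toQ u) (cst v) hu := by rw [hS]; trivial
      exact this
    choose k hk c hc using h2
    set K : ℕ := ∏ i, k i with hK
    have hKpos : 0 < K := Finset.prod_pos fun i _ => hk i
    have h3 : ∀ i : Fin n, ∃ d : ℚ, act (toQ u ^ K) (Pi.single i 1) = Pi.single i 1 + d • cst v := by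
      intro i
      obtain ⟨j, hj⟩ : k i ∣ K := Finset.dvd_prod_of_mem k (Finset.mem_univ i)
      exact ⟨_, by rw [hj]; exact act_pow_mul hu (hc i) j⟩
    choose ψ hψ using h3
    have h4 : ∀ z, act (toQ (u ^ K)) z = z + (ψ ⬝ᵥ z) • cst v := by
      intro z
      have h5 : (toQ (u ^ K) : Matrix (Fin n) (Fin n) ℚ) = 1 + vecMulVec (cst v) ψ := by
        refine Matrix.ext_of_mulVec_single fun i => ?_
        have h6 := hψ i
        rw [← map_pow, act] at h6
        rw [h6, add_mulVec, one_mulVec, vecMulVec_mulVec]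
        congr 1
        ext j
        simp [mul_comm]
      rw [act, h5, add_mulVec, one_mulVec, vecMulVec_mulVec]
      congr 1
      ext j
      simp [mul_comm]
    have h5 : ψ ⬝ᵥ cst v = 0 := by
      have h6 := h4 (cst v)
      rw [map_pow, act_pow_fix hu] at h6
      have h7 : (ψ ⬝ᵥ cst v) • cst v = 0 := by
        have := h6.symm
        rwa [add_eq_left] at this
      rcases smul_eq_zero.1 h7 with h8 | h8
      · exact h8
      · exact absurd h8 hvQ
    have tr1 : Tr H (cst v) ψ := Tr_of_act (H.pow_mem huH K) h5 h4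
    by_cases h6 : ψ ∈ Submodule.span ℚ {cst φ}
    · exfalso
      obtain ⟨c, hc⟩ := Submodule.mem_span_singleton.1 h6
      have h7 : toQ (u ^ ((K * c.den : ℕ) : ℤ)) = toQ (t ^ c.num) := by
        have k1 : ((c.num : ℚ) • cst φ) ⬝ᵥ cst v = 0 := dot_smul_zero h1 _
        have e1 : toQ (u ^ K) = tv (cst v) ψ h5 := by
          apply sl_ext
          refine Matrix.ext_of_mulVec_single fun i => ?_
          have := h4 (Pi.single i 1)
          rw [act] at this
          rw [this]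
          have h8 := act_tv (cst v) ψ h5 (Pi.single i 1)
          rw [act] at h8
          rw [h8]
        rw [map_zpow toQ t, et, tv_zpow _ _ _ _ k1, zpow_natCast, pow_mul, map_pow, e1,
          tv_pow _ _ _ _ (dot_smul_zero h5 _)]
        apply tv_congr
        rw [← hc, smul_smul]
        congr 2
        rw [mul_comm]
        exact Rat.mul_den_eq_num c
      have h8 : u ^ ((K * c.den : ℕ) : ℤ) = t ^ c.num := by
        apply sl_ext
        ext i j
        have h9 := congrArg (fun x : SpecialLinearGroup (Fin n) ℚ => (x : Matrix (Fin n) (Fin n) ℚ) i j) h7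
        simp only [toQ_coe] at h9
        exact_mod_cast h9
      have h9 := (hut _ _ h8).1
      have h10 : 0 < K * c.den := Nat.mul_pos hKpos c.den_pos
      omega
    · exact ⟨cst v, cst φ, ψ, hvQ, hφQ, h6, tr0, tr1⟩
  · -- generic conjugate
    obtain ⟨y, hy⟩ : ∃ y, y ∉ Sv (toQ u) (cst v) hu := by
      by_contra hcon
      push Not at hcon
      exact hS (Submodule.eq_top_iff'.2 hcon)
    obtain ⟨η, hη, hη1⟩ := exists_form _ hy
    have hη0 : η ≠ 0 := by
      rintro rfl
      rw [zero_dotProduct] at hη1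
      exact zero_ne_one hη1
    have hreg : IsReg (fun A => ff (cst φ) (cst v) A * fi (cst φ) (cst v) A) :=
      (isReg_mulVec _ _).mul (isReg_adjugate _ _)
    obtain ⟨g, hg, e1, e2⟩ := generic hH (isReg_mulVec η (cst v)) hreg
      (nonvanish (by omega) hvQ hη0) (nonvanish3 hvQ hφQ h1)
    change η ⬝ᵥ act (toQ g) (cst v) ≠ 0 at e1
    change (cst φ ⬝ᵥ act (toQ g) (cst v)) * (cst φ ⬝ᵥ act (toQ g)⁻¹ (cst v)) ≠ 0 at e2
    -- integral versions
    set v' : Fin n → ℤ := (g : Matrix (Fin n) (Fin n) ℤ) *ᵥ v with hv'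
    set φ' : Fin n → ℤ := φ ᵥ* ((g⁻¹ : SpecialLinearGroup (Fin n) ℤ) : Matrix (Fin n) (Fin n) ℤ)
      with hφ'
    have ev : act (toQ g) (cst v) = cst v' := by
      ext i
      rw [act, hv']
      simp only [cst, mulVec, dotProduct, toQ_coe]
      push_cast
      rfl
    have eφ : cact (toQ g) (cst φ) = cst φ' := by
      ext i
      rw [cact, hφ', ← map_inv]
      simp only [cst, vecMul, dotProduct, toQ_coe]
      push_cast
      rfl
    have tr1 := tr0.conj hg
    rw [ev, eφ] at tr1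
    rw [ev] at e1
    rw [← cact_dot, ev, eφ] at e2
    set β : ℤ := (φ ⬝ᵥ v') * (φ' ⬝ᵥ v) with hβ
    have hβ0 : β ≠ 0 := by
      intro h
      apply e2
      rw [cst_dot, cst_dot]
      exact_mod_cast h
    have hφv : φ' ⬝ᵥ v' = 0 := by
      have h3 := tr1.1
      rw [cst_dot] at h3
      exact_mod_cast h3
    -- a power of `u` congruent to the identity
    have : NeZero β.natAbs := ⟨Int.natAbs_ne_zero.2 hβ0⟩
    obtain ⟨k, hk, hk1⟩ : ∃ k : ℕ, 0 < k ∧
        (SpecialLinearGroup.map (Int.castRingHom (ZMod β.natAbs)) u) ^ k = 1 := by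
      have h3 := isOfFinOrder_of_finite (SpecialLinearGroup.map (n := Fin n)
        (Int.castRingHom (ZMod β.natAbs)) u)
      rw [isOfFinOrder_iff_pow_eq_one] at h3
      exact h3
    have hdvd : β ∣ φ' ⬝ᵥ (((u ^ k : SpecialLinearGroup (Fin n) ℤ) : Matrix (Fin n) (Fin n) ℤ) *ᵥ v') := by
      rw [← Int.natAbs_dvd, ← ZMod.intCast_zmod_eq_zero_iff_dvd]
      have h3 : ∀ i j, ((((u ^ k : SpecialLinearGroup (Fin n) ℤ) :
          Matrix (Fin n) (Fin n) ℤ) i j : ℤ) : ZMod β.natAbs) = (1 : Matrix (Fin n) (Fin n) (ZMod β.natAbs)) i j := by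
        intro i j
        rw [← map_pow] at hk1
        exact congrArg (fun x : SpecialLinearGroup (Fin n) (ZMod β.natAbs) =>
          (x : Matrix (Fin n) (Fin n) (ZMod β.natAbs)) i j) hk1
      have h4 : ((φ' ⬝ᵥ v' : ℤ) : ZMod β.natAbs) = 0 := by rw [hφv, Int.cast_zero]
      simp only [dotProduct, mulVec] at h4 ⊢
      push_cast at h4 ⊢
      simp only [h3, Matrix.one_apply]
      refine Eq.trans (Finset.sum_congr rfl fun i _ => ?_) h4
      simp
    obtain ⟨b, hb⟩ := hdvd
    -- the element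
    set x := u ^ k * t ^ (-b) with hx
    have hxH : x ∈ H := H.mul_mem (H.pow_mem huH k) (H.zpow_mem htH _)
    have hukQ : act (toQ u ^ k) (cst v') = cst (((u ^ k : SpecialLinearGroup (Fin n) ℤ) :
        Matrix (Fin n) (Fin n) ℤ) *ᵥ v') := by
      ext i
      rw [← map_pow, act]
      simp only [cst, mulVec, dotProduct, toQ_coe]
      push_cast
      rfl
    have hxv : act (toQ x) (cst v') =
        act (toQ u ^ k) (cst v') + (-(b : ℚ) * (cst φ ⬝ᵥ cst v')) • cst v := by
      rw [hx, map_mul, map_pow, map_zpow, et, act_mul, act_tv_zpow, act_add, act_smul,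
        act_pow_fix hu]
      push_cast
      rfl
    have hzero : cst φ' ⬝ᵥ act (toQ x) (cst v') = 0 := by
      rw [hxv, dotProduct_add, dotProduct_smul, hukQ, cst_dot, hb, cst_dot, cst_dot, hβ, smul_eq_mul]
      push_cast
      ring
    have tr2 := tr1.conj hxH
    have hv'0 : cst v' ≠ 0 := by rw [← ev]; exact act_ne_zero hvQ
    have hφ'0 : cst φ' ≠ 0 := by rw [← eφ]; exact cact_ne_zero hφQ
    refine pair_case (by omega) hH hv'0 (act_ne_zero hv'0) hφ'0 (cact_ne_zero hφ'0) tr1 tr2 ?_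
      (by rw [hzero, zero_mul])
    rintro ⟨h3, -⟩
    obtain ⟨c, hc⟩ := Submodule.mem_span_singleton.1 h3
    have hS' : cst v' ∈ Sv (toQ u) (cst v) hu := by
      set d : ℚ := (b : ℚ) * (cst φ ⬝ᵥ cst v') with hd
      have h4 : act (toQ u ^ k) (cst v') = c • cst v' + d • cst v := by
        rw [hc, hxv, add_assoc, ← add_smul, neg_mul, neg_add_cancel, zero_smul, add_zero]
      rcases eigen_unit x hv'0 hc.symm with h5 | h5
      · exact ⟨k, hk, d, by rw [h4, h5, one_smul]⟩
      · refine ⟨k + k, by omega, 0, ?_⟩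
        rw [pow_add, act_mul, h4, act_add, act_smul, act_smul, h4, act_pow_fix hu, h5]
        simp only [neg_smul, one_smul, zero_smul, add_zero, neg_add_rev, neg_neg]
        abel
    exact e1 (hη _ hS')

/-- an element stabilising the line of `v` -/
theorem good_of_line (hn : 3 ≤ n) (hH : ZariskiDense H) {t u : SpecialLinearGroup (Fin n) ℤ}
    (htH : t ∈ H) (huH : u ∈ H) {v φ : Fin n → ℤ} (hv : v ≠ 0) (hφ : φ ≠ 0)
    (ht : (t : Matrix (Fin n) (Fin n) ℤ) = 1 + vecMulVec v φ) {c : ℚ}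
    (hu : act (toQ u) (cst v) = c • cst v)
    (hut : ∀ a b : ℤ, u ^ a = t ^ b → a = 0 ∧ b = 0) : Good H := by
  rcases eigen_unit u (cst_ne_zero hv) hu with h | h
  · exact good_of_fix hn hH htH huH hv hφ ht (by rw [hu, h, one_smul]) hut
  · refine good_of_fix hn hH htH (H.mul_mem huH huH) hv hφ ht ?_ ?_
    · rw [map_mul, act_mul, hu, act_smul, hu, h, smul_smul]
      norm_num
    · intro a b hab
      have h1 : u ^ (2 * a) = t ^ b := by
        rw [← hab, ← pow_two, ← zpow_natCast, ← _root_.zpow_mul]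
        norm_num
      have h2 := hut _ _ h1
      exact ⟨by omega, h2.2⟩

/-- an element stabilising the hyperplane of `φ` -/
theorem good_of_form (hn : 3 ≤ n) (hH : ZariskiDense H) {t u : SpecialLinearGroup (Fin n) ℤ}
    (htH : t ∈ H) (huH : u ∈ H) {v φ : Fin n → ℤ} (hv : v ≠ 0) (hφ : φ ≠ 0)
    (ht : (t : Matrix (Fin n) (Fin n) ℤ) = 1 + vecMulVec v φ) {c : ℚ} (hc : c ≠ 0)
    (hu : cact (toQ u) (cst φ) = c • cst φ)
    (hut : ∀ a b : ℤ, u ^ a = t ^ b → a = 0 ∧ b = 0) : Good H := by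
  have tr0 := Tr_of_mem htH ht
  have tr1 := tr0.conj huH
  rw [hu] at tr1
  have tr2 := tr1.smul_right c⁻¹
  rw [smul_smul, inv_mul_cancel₀ hc, one_smul] at tr2
  by_cases h : act (toQ u) (cst v) ∈ Submodule.span ℚ {cst v}
  · obtain ⟨d, hd⟩ := Submodule.mem_span_singleton.1 h
    exact good_of_line hn hH htH huH hv hφ ht hd.symm hut
  · exact dualcase (by omega) hH (cst_ne_zero hv) h (cst_ne_zero hφ) tr0 tr2

end Pool.Agent.T2H86.TV
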