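import Pool.Agent.T2H86.TV.Tr

/-!
# From two transvections to two transvections with the same vector
-/

set_option autoImplicit false

namespace Pool.Agent.T2H86.TV

open Matrix

variable {n : ℕ} {H : Subgroup (SpecialLinearGroup (Fin n) ℤ)}

theorem act_inv_eq (g : SpecialLinearGroup (Fin n) ℚ) (v : Fin n → ℚ) :
    act g⁻¹ v = (g : Matrix (Fin n) (Fin n) ℚ).adjugate *ᵥ v := rfl

theorem exists_dot_ne {φ : Fin n → ℚ} (hφ : φ ≠ 0) : ∃ y, φ ⬝ᵥ y ≠ 0 := by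
  obtain ⟨η, -, h⟩ := exists_form (⊥ : Submodule ℚ (Fin n → ℚ)) (x := φ) (by simpa using hφ)
  exact ⟨η, by rw [dotProduct_comm, h]; exact one_ne_zero⟩

theorem nonvanish {v φ : Fin n → ℚ} (hn : 2 ≤ n) (hv : v ≠ 0) (hφ : φ ≠ 0) :
    ∃ g ∈ GG n, φ ⬝ᵥ act g v ≠ 0 := by
  obtain ⟨y, hy⟩ := exists_dot_ne hφ
  have hy0 : y ≠ 0 := by
    rintro rfl
    exact hy (dotProduct_zero _)
  obtain ⟨g, hg, e⟩ := GG_trans hn hv hy0
  exact ⟨g, hg, by rwa [e]⟩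

theorem generic1 (hH : ZariskiDense H) {F : Matrix (Fin n) (Fin n) ℚ → ℚ} (hF : IsReg F)
    (hFa : ∃ a ∈ GG n, F (a : Matrix (Fin n) (Fin n) ℚ) ≠ 0) :
    ∃ h ∈ H, F (toQ h : Matrix (Fin n) (Fin n) ℚ) ≠ 0 := by
  obtain ⟨h, hh, h1, -⟩ := generic hH hF (isReg_const 1) hFa
    ⟨1, (GG n).one_mem, one_ne_zero⟩
  exact ⟨h, hh, h1⟩

/-- there are two independent forms with the same vector -/
def Good (H : Subgroup (SpecialLinearGroup (Fin n) ℤ)) : Prop :=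
  ∃ v φ ψ : Fin n → ℚ, v ≠ 0 ∧ φ ≠ 0 ∧ ψ ∉ Submodule.span ℚ {φ} ∧ Tr H v φ ∧ Tr H v ψ

theorem heis {v φ w ψ : Fin n → ℚ} (h : Tr H v φ) (h' : Tr H w ψ) (hφ : φ ≠ 0) (hw : w ≠ 0)
    (h0 : φ ⬝ᵥ w = 0) (h1 : ψ ⬝ᵥ v ≠ 0) : Good H :=
  ⟨w, φ, ψ, hw, hφ, notMem_span_singleton v (by rw [dotProduct_comm, h.1])
    (by rwa [dotProduct_comm]), h.comm h' h0 h1, h'⟩

theorem cact_ne_zero {g : SpecialLinearGroup (Fin n) ℚ} {φ : Fin n → ℚ} (hφ : φ ≠ 0) :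
    cact g φ ≠ 0 := by
  intro h
  apply hφ
  have h1 : cact g⁻¹ (cact g φ) = φ := by rw [← cact_mul, inv_mul_cancel, cact_one]
  rw [← h1, h, cact, zero_vecMul]

theorem act_ne_zero {g : SpecialLinearGroup (Fin n) ℚ} {v : Fin n → ℚ} (hv : v ≠ 0) :
    act g v ≠ 0 := by
  intro h
  apply hv
  rw [← act_inv_act g v, h, act, mulVec_zero]

theorem ne_zero_of_notMem_span {u v : Fin n → ℚ} (h : v ∉ Submodule.span ℚ {u}) : v ≠ 0 := by
  rintro rfl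
  exact h (Submodule.zero_mem _)

/-- two transvections with the same form -/
theorem dualcase (hn : 2 ≤ n) (hH : ZariskiDense H) {v w φ : Fin n → ℚ} (hv : v ≠ 0)
    (hw : w ∉ Submodule.span ℚ {v}) (hφ : φ ≠ 0) (h : Tr H v φ) (h' : Tr H w φ) : Good H := by
  obtain ⟨g, hg, e⟩ := generic1 hH (isReg_mulVec φ v) (nonvanish hn hv hφ)
  change φ ⬝ᵥ act (toQ g) v ≠ 0 at e
  have h2 := h.conj hg
  set a := toQ g with ha
  by_cases hc : cact a φ ⬝ᵥ v = 0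
  · exact heis h2 h (cact_ne_zero hφ) hv hc e
  · have h3 : Tr H ((cact a φ ⬝ᵥ v) • w - (cact a φ ⬝ᵥ w) • v) φ := by
      rw [sub_eq_add_neg, ← neg_smul]
      exact (h'.smul_left _).add_left (h.smul_left _)
    refine heis h2 h3 (cact_ne_zero hφ) ?_ ?_ e
    · intro h4
      apply hw
      rw [Submodule.mem_span_singleton]
      refine ⟨(cact a φ ⬝ᵥ v)⁻¹ * (cact a φ ⬝ᵥ w), ?_⟩
      rw [← smul_smul, ← sub_eq_zero.1 h4, smul_smul, inv_mul_cancel₀ hc, one_smul]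
    · rw [dotProduct_sub, dotProduct_smul, dotProduct_smul, smul_eq_mul, smul_eq_mul]
      ring

/-- dual pair of vectors of two independent forms -/
theorem exists_dual {φ ψ : Fin n → ℚ} (hφ : φ ≠ 0) (h : ψ ∉ Submodule.span ℚ {φ}) :
    ∃ x y : Fin n → ℚ, φ ⬝ᵥ x = 1 ∧ ψ ⬝ᵥ x = 0 ∧ φ ⬝ᵥ y = 0 ∧ ψ ⬝ᵥ y = 1 := by
  obtain ⟨y, hy, hy1⟩ := exists_form _ h
  have h0 : φ ∉ Submodule.span ℚ {ψ} := by
    intro h1
    obtain ⟨c, hc⟩ := Submodule.mem_span_singleton.1 h1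
    have hc0 : c ≠ 0 := by
      rintro rfl
      exact hφ (by rw [← hc, zero_smul])
    apply h
    rw [Submodule.mem_span_singleton]
    exact ⟨c⁻¹, by rw [← hc, smul_smul, inv_mul_cancel₀ hc0, one_smul]⟩
  obtain ⟨x, hx, hx1⟩ := exists_form _ h0
  refine ⟨x, y, by rw [dotProduct_comm, hx1], ?_, ?_, by rw [dotProduct_comm, hy1]⟩
  · rw [dotProduct_comm]; exact hx _ (Submodule.mem_span_singleton_self _)
  · rw [dotProduct_comm]; exact hy _ (Submodule.mem_span_singleton_self _)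

/-- the function `φ (A v)` -/
abbrev ff (φ v : Fin n → ℚ) : Matrix (Fin n) (Fin n) ℚ → ℚ := fun A => φ ⬝ᵥ (A *ᵥ v)

/-- the function `φ (A⁻¹ v)` -/
abbrev fi (φ v : Fin n → ℚ) : Matrix (Fin n) (Fin n) ℚ → ℚ := fun A => φ ⬝ᵥ (A.adjugate *ᵥ v)

/-- two commuting transvections in general position: nonvanishing of the quartic -/
theorem quartic {v w φ ψ : Fin n → ℚ} (hv : v ≠ 0) (hw : w ∉ Submodule.span ℚ {v}) (hφ : φ ≠ 0)
    (hψ : ψ ∉ Submodule.span ℚ {φ}) (h11 : φ ⬝ᵥ v = 0) (h12 : φ ⬝ᵥ w = 0) (h21 : ψ ⬝ᵥ v = 0)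
    (h22 : ψ ⬝ᵥ w = 0) :
    ∃ g ∈ GG n, (ψ ⬝ᵥ act g v) * (φ ⬝ᵥ act g w) * (φ ⬝ᵥ act g⁻¹ v) * (ψ ⬝ᵥ act g⁻¹ w) -
      (φ ⬝ᵥ act g v) * (ψ ⬝ᵥ act g w) * (φ ⬝ᵥ act g⁻¹ w) * (ψ ⬝ᵥ act g⁻¹ v) ≠ 0 := by
  obtain ⟨x, y, hx1, hx2, hy1, hy2⟩ := exists_dual hφ hψ
  -- forms dual to `v`, `w`, killing `x`, `y`
  have key : ∀ a b : Fin n → ℚ, φ ⬝ᵥ a = 0 → φ ⬝ᵥ b = 0 → ψ ⬝ᵥ a = 0 → ψ ⬝ᵥ b = 0 →
      b ∉ Submodule.span ℚ {a} → ∃ η : Fin n → ℚ, η ⬝ᵥ a = 0 ∧ η ⬝ᵥ b = 1 ∧ η ⬝ᵥ x = 0 ∧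
        η ⬝ᵥ y = 0 := by
    intro a b ha hb ha' hb' hab
    have h1 : b ∉ Submodule.span ℚ {a, x, y} := by
      intro h
      rw [Submodule.mem_span_insert] at h
      obtain ⟨c, z, hz, hc⟩ := h
      obtain ⟨d, e, hz⟩ := Submodule.mem_span_pair.1 hz
      have h2 : φ ⬝ᵥ b = d := by
        rw [hc, ← hz, dotProduct_add, dotProduct_smul, dotProduct_add, dotProduct_smul,
          dotProduct_smul, ha, hx1, hy1]
        simp
      have h3 : ψ ⬝ᵥ b = e := by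
        rw [hc, ← hz, dotProduct_add, dotProduct_smul, dotProduct_add, dotProduct_smul,
          dotProduct_smul, ha', hx2, hy2]
        simp
      rw [hb] at h2
      rw [hb'] at h3
      apply hab
      rw [hc, ← hz, ← h2, ← h3]
      simp [Submodule.mem_span_singleton]
    obtain ⟨η, hη, hη1⟩ := exists_form _ h1
    exact ⟨η, hη _ (Submodule.subset_span (by simp)), hη1,
      hη _ (Submodule.subset_span (by simp)), hη _ (Submodule.subset_span (by simp))⟩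
  have hv' : v ∉ Submodule.span ℚ {w} := by
    intro h
    obtain ⟨c, hc⟩ := Submodule.mem_span_singleton.1 h
    have hc0 : c ≠ 0 := by
      rintro rfl
      exact hv (by rw [← hc, zero_smul])
    apply hw
    rw [Submodule.mem_span_singleton]
    exact ⟨c⁻¹, by rw [← hc, smul_smul, inv_mul_cancel₀ hc0, one_smul]⟩
  obtain ⟨η1, h1w, h1v, h1x, h1y⟩ := key w v h12 h11 h22 h21 hv'
  obtain ⟨η2, h2v, h2w, h2x, h2y⟩ := key v w h11 h12 h21 h22 hw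
  have k1 : (-ψ) ⬝ᵥ x = 0 := by rw [neg_dotProduct, hx2, neg_zero]
  have k2 : η1 ⬝ᵥ ((2 : ℚ) • x + y) = 0 := by
    rw [dotProduct_add, dotProduct_smul, h1x, h1y]; simp
  have k3 : η2 ⬝ᵥ (x + y) = 0 := by rw [dotProduct_add, h2x, h2y]; simp
  set g : SpecialLinearGroup (Fin n) ℚ := tv x (-ψ) k1 * (tv ((2 : ℚ) • x + y) η1 k2 * tv (x + y) η2 k3)
    with hg
  have gv : act g v = v + x + y := by
    rw [hg, act_mul, act_mul, act_tv (x + y), h2v, zero_smul, add_zero,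
      act_tv ((2 : ℚ) • x + y), h1v, one_smul,
      act_tv, neg_dotProduct, dotProduct_add, dotProduct_add, dotProduct_smul, h21, hx2, hy2]
    simp only [smul_zero, zero_add, neg_smul, one_smul, two_smul]
    abel
  have gw : act g w = w + y := by
    rw [hg, act_mul, act_mul, act_tv (x + y), h2w, one_smul, act_tv ((2 : ℚ) • x + y),
      dotProduct_add, dotProduct_add, h1w, h1x, h1y, act_tv, neg_dotProduct]
    simp only [add_zero, zero_smul, dotProduct_add, h22, hx2, hy2, zero_add, neg_smul, one_smul]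
    abel
  have iv : act g⁻¹ v = v - (2 : ℚ) • x - y := by
    have h1 : act g (v - (2 : ℚ) • x - y) = v := by
      rw [hg, act_mul, act_mul, act_tv (x + y), dotProduct_sub, dotProduct_sub, dotProduct_smul,
        h2v, h2x, h2y, act_tv ((2 : ℚ) • x + y)]
      simp only [smul_zero, sub_zero, zero_smul, add_zero, dotProduct_sub, dotProduct_smul, h1v,
        h1x, h1y, one_smul]
      rw [act_tv, neg_dotProduct]
      simp only [dotProduct_add, dotProduct_sub, dotProduct_smul, h21, hx2, hy2, smul_zero]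
      simp
    rw [← h1, act_inv_act, h1]
  have iw : act g⁻¹ w = w - x - y := by
    have h1 : act g (w - x - y) = w := by
      rw [hg, act_mul, act_mul, act_tv (x + y), dotProduct_sub, dotProduct_sub,
        h2w, h2x, h2y, act_tv ((2 : ℚ) • x + y)]
      simp only [sub_zero, one_smul]
      rw [act_tv, neg_dotProduct]
      simp only [dotProduct_add, dotProduct_sub, dotProduct_smul, h22, hx2, hy2, h1w, h1x, h1y,
        smul_zero]
      simp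
    rw [← h1, act_inv_act, h1]
  refine ⟨g, (GG n).mul_mem (tv_mem_GG _) ((GG n).mul_mem (tv_mem_GG _) (tv_mem_GG _)), ?_⟩
  rw [gv, gw, iv, iw]
  simp only [dotProduct_add, dotProduct_sub, dotProduct_smul, h11, h12, h21, h22, hx1, hx2, hy1,
    hy2, smul_eq_mul]
  norm_num

/-- two commuting transvections in general position -/
theorem commcase (hH : ZariskiDense H) {v w φ ψ : Fin n → ℚ} (hv : v ≠ 0)
    (hw : w ∉ Submodule.span ℚ {v}) (hφ : φ ≠ 0) (hψ : ψ ∉ Submodule.span ℚ {φ})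
    (h12 : φ ⬝ᵥ w = 0) (h21 : ψ ⬝ᵥ v = 0) (h : Tr H v φ) (h' : Tr H w ψ) : Good H := by
  have h11 := h.1
  have h22 := h'.1
  have hreg : IsReg (fun A => (ff ψ v A) * (ff φ w A) * (fi φ v A) * (fi ψ w A) -
      (ff φ v A) * (ff ψ w A) * (fi φ w A) * (fi ψ v A)) :=
    IsReg.sub ((((isReg_mulVec _ _).mul (isReg_mulVec _ _)).mul (isReg_adjugate _ _)).mul
      (isReg_adjugate _ _)) ((((isReg_mulVec _ _).mul (isReg_mulVec _ _)).mul
      (isReg_adjugate _ _)).mul (isReg_adjugate _ _))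
  obtain ⟨g, hg, e⟩ := generic1 hH hreg (quartic hv hw hφ hψ h11 h12 h21 h22)
  set a := toQ g with ha
  change (ψ ⬝ᵥ act a v) * (φ ⬝ᵥ act a w) * (φ ⬝ᵥ act a⁻¹ v) * (ψ ⬝ᵥ act a⁻¹ w) -
      (φ ⬝ᵥ act a v) * (ψ ⬝ᵥ act a w) * (φ ⬝ᵥ act a⁻¹ w) * (ψ ⬝ᵥ act a⁻¹ v) ≠ 0 at e
  set m1 : ℚ := (ψ ⬝ᵥ act a v) * (ψ ⬝ᵥ act a⁻¹ w) with hm1
  set m2 : ℚ := -((φ ⬝ᵥ act a v) * (ψ ⬝ᵥ act a⁻¹ v)) with hm2
  obtain ⟨N, hN, g1, hg1, e1⟩ := (h.smul_right m1).exists_tv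
  obtain ⟨M, hM, g2, hg2, e2⟩ := (h'.smul_right m2).exists_tv
  set d := toQ (g1 ^ M * g2 ^ N) with hd
  have hdm : g1 ^ M * g2 ^ N ∈ H := H.mul_mem (H.pow_mem hg1 M) (H.pow_mem hg2 N)
  set K : ℚ := (M : ℚ) * N with hK
  have hK0 : K ≠ 0 := by
    rw [hK]
    exact mul_ne_zero (by exact_mod_cast hM.ne') (by exact_mod_cast hN.ne')
  have z1 : (K * m1) • φ ⬝ᵥ v = 0 := by rw [smul_dotProduct, h11, smul_zero]
  have z2 : (K * m2) • ψ ⬝ᵥ w = 0 := by rw [smul_dotProduct, h22, smul_zero]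
  have hd' : d = tv v ((K * m1) • φ) z1 * tv w ((K * m2) • ψ) z2 := by
    rw [hd, map_mul, map_pow, map_pow, e1, e2,
      tv_pow _ _ _ _ (dot_smul_zero (dot_smul_zero (dot_smul_zero h11 _) _) _),
      tv_pow _ _ _ _ (dot_smul_zero (dot_smul_zero (dot_smul_zero h22 _) _) _)]
    congr 1
    · apply tv_congr
      congr 1
      rw [smul_smul, smul_smul]
    · apply tv_congr
      congr 1
      rw [smul_smul, smul_smul, hK]
      congr 1
      ring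
  have hact : ∀ z : Fin n → ℚ, act d z = z + (K * m1 * (φ ⬝ᵥ z)) • v + (K * m2 * (ψ ⬝ᵥ z)) • w := by
    intro z
    rw [hd', act_mul, act_tv, act_tv]
    simp only [smul_dotProduct, dotProduct_add, dotProduct_smul, h12, smul_eq_mul, mul_zero,
      add_zero]
    abel
  have hcact : ∀ χ : Fin n → ℚ, cact d χ =
      χ - (K * m1 * (χ ⬝ᵥ v)) • φ - (K * m2 * (χ ⬝ᵥ w)) • ψ := by
    intro χ
    rw [hd', cact_mul, cact_tv, cact_tv]
    simp only [sub_dotProduct, smul_dotProduct, h21, smul_eq_mul, mul_zero, sub_zero, smul_smul]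
    rw [sub_right_comm]
    congr 2
    · congr 1
      ring
    · ring
  have t1 := (h.conj hg).conj hdm
  have t2 := h'.conj hg
  rw [← ha] at t1 t2
  rw [← hd] at t1
  refine heis t2 t1 (cact_ne_zero ?_) (act_ne_zero (act_ne_zero hv)) ?_ ?_
  · exact ne_zero_of_notMem_span hψ
  · rw [hact]
    simp only [dotProduct_add, dotProduct_smul, cact_dot, act_inv_act, h21, smul_eq_mul, hm1, hm2]
    ring
  · rw [hcact]
    simp only [sub_dotProduct, smul_dotProduct, cact_dot, act_inv_act, h12, smul_eq_mul]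
    intro h0
    apply e
    have h1 : K * ((ψ ⬝ᵥ act a v) * (φ ⬝ᵥ act a w) * (φ ⬝ᵥ act a⁻¹ v) * (ψ ⬝ᵥ act a⁻¹ w) -
      (φ ⬝ᵥ act a v) * (ψ ⬝ᵥ act a w) * (φ ⬝ᵥ act a⁻¹ w) * (ψ ⬝ᵥ act a⁻¹ v)) = 0 := by
      rw [hm1, hm2] at h0
      linear_combination -h0
    exact (mul_eq_zero.1 h1).resolve_left hK0

/-- two transvections with trace of the product `n` -/
theorem pair_case (hn : 2 ≤ n) (hH : ZariskiDense H) {v w φ ψ : Fin n → ℚ} (hv : v ≠ 0)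
    (hw : w ≠ 0) (hφ : φ ≠ 0) (hψ : ψ ≠ 0) (h : Tr H v φ) (h' : Tr H w ψ)
    (hne : ¬ (w ∈ Submodule.span ℚ {v} ∧ ψ ∈ Submodule.span ℚ {φ}))
    (h0 : (φ ⬝ᵥ w) * (ψ ⬝ᵥ v) = 0) : Good H := by
  by_cases h1 : φ ⬝ᵥ w = 0
  · by_cases h2 : ψ ⬝ᵥ v = 0
    · by_cases h3 : w ∈ Submodule.span ℚ {v}
      · have h4 : ψ ∉ Submodule.span ℚ {φ} := fun h5 => hne ⟨h3, h5⟩
        obtain ⟨c, hc⟩ := Submodule.mem_span_singleton.1 h3
        have h5 := h.smul_left c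
        rw [hc] at h5
        exact ⟨w, φ, ψ, hw, hφ, h4, h5, h'⟩
      · by_cases h4 : ψ ∈ Submodule.span ℚ {φ}
        · obtain ⟨c, hc⟩ := Submodule.mem_span_singleton.1 h4
          have h5 := h.smul_right c
          rw [hc] at h5
          exact dualcase hn hH hv h3 hψ h5 h'
        · exact commcase hH hv h3 hφ h4 h1 h2 h h'
    · exact heis h h' hφ hw h1 h2
  · have h2 : ψ ⬝ᵥ v = 0 := (mul_eq_zero.1 h0).resolve_left h1
    exact heis h' h hψ hv h2 h1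

end Pool.Agent.T2H86.TV
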