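import Pool.Agent.T2H86.TV.Stab

/-!
# Commuting unipotents of `SL(3, ℤ)`
-/

set_option autoImplicit false

namespace Pool.Agent.T2H86.TV

open Matrix

section general

variable {n : ℕ} {H : Subgroup (SpecialLinearGroup (Fin n) ℤ)}

theorem toQ_injective : Function.Injective (toQ : SpecialLinearGroup (Fin n) ℤ → _) := by
  intro a b h
  apply sl_ext
  ext i j
  have h9 := congrArg (fun x : SpecialLinearGroup (Fin n) ℚ => (x : Matrix (Fin n) (Fin n) ℚ) i j) h
  simp only [toQ_coe] at h9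
  exact_mod_cast h9

/-- a rational transvection which is integral has a power with integral data -/
theorem exists_integral_pow {g : SpecialLinearGroup (Fin n) ℤ} (hg : g ≠ 1) {v φ : Fin n → ℚ}
    (h0 : φ ⬝ᵥ v = 0) (h : toQ g = tv v φ h0) :
    ∃ (k : ℤ) (w ψ : Fin n → ℤ), k ≠ 0 ∧ w ≠ 0 ∧ ψ ≠ 0 ∧
      ((g ^ k : SpecialLinearGroup (Fin n) ℤ) : Matrix (Fin n) (Fin n) ℤ) = 1 + vecMulVec w ψ := by
  set A : Matrix (Fin n) (Fin n) ℤ := (g : Matrix (Fin n) (Fin n) ℤ) - 1 with hA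
  have hAQ : ∀ i j, (A i j : ℚ) = v i * φ j := by
    intro i j
    have h1 : (toQ g : Matrix (Fin n) (Fin n) ℚ) i j = (1 + vecMulVec v φ) i j := by rw [h]; rfl
    rw [toQ_coe, Matrix.add_apply, vecMulVec_apply] at h1
    rw [hA, Matrix.sub_apply]
    push_cast
    rw [h1, Matrix.one_apply, Matrix.one_apply]
    split_ifs <;> simp
  obtain ⟨i, j, hij⟩ : ∃ i j, A i j ≠ 0 := by
    by_contra hcon
    push Not at hcon
    apply hg
    apply sl_ext
    have : A = 0 := by ext i j; exact hcon i j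
    rw [hA, sub_eq_zero] at this
    exact this
  refine ⟨A i j, fun k => A k j, fun l => A i l, hij, ?_, ?_, ?_⟩
  · intro h1; exact hij (congrFun h1 i)
  · intro h1; exact hij (congrFun h1 j)
  · ext k l
    have h2 : (toQ (g ^ (A i j)) : Matrix (Fin n) (Fin n) ℚ) k l = (1 + vecMulVec v (((A i j : ℤ) : ℚ) • φ)) k l := by
      rw [map_zpow, h, tv_zpow _ _ _ _ (dot_smul_zero h0 _)]
      rfl
    rw [toQ_coe, Matrix.add_apply, vecMulVec_apply, Pi.smul_apply, smul_eq_mul] at h2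
    rw [Matrix.add_apply, vecMulVec_apply]
    have h3 : (((A i j : ℤ) : ℚ)) * (v k * φ l) = (A k j : ℚ) * (A i l : ℚ) := by
      rw [hAQ, hAQ, hAQ]; ring
    have h4 : v k * (((A i j : ℤ) : ℚ) * φ l) = (A k j : ℚ) * (A i l : ℚ) := by
      rw [← h3]; ring
    rw [h4, Matrix.one_apply] at h2
    rw [Matrix.one_apply]
    split_ifs at h2 ⊢ <;> exact_mod_cast h2

/-- a transvection and a commuting element without common powers -/
theorem good_of_commute (hn : 3 ≤ n) (hH : ZariskiDense H) {g u : SpecialLinearGroup (Fin n) ℤ}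
    (hgH : g ∈ H) (huH : u ∈ H) (hg : g ≠ 1) {v φ : Fin n → ℚ} (h0 : φ ⬝ᵥ v = 0)
    (h : toQ g = tv v φ h0) (hcomm : u * g = g * u)
    (hut : ∀ a b : ℤ, u ^ a = g ^ b → a = 0 ∧ b = 0) : Good H := by
  obtain ⟨k, w, ψ, hk, hw, hψ, e⟩ := exists_integral_pow hg h0 h
  have hcomm' : u * g ^ k = g ^ k * u := by
    have h1 : Commute u g := hcomm
    exact h1.zpow_right k
  have h1 : cst ψ ⬝ᵥ cst w = 0 := by rw [cst_dot, dot_zero_of_eq e, Int.cast_zero]
  have et := toQ_eq e h1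
  obtain ⟨y, hy⟩ := exists_dot_ne (cst_ne_zero hψ)
  have h2 : act (toQ (u * g ^ k)) y = act (toQ (g ^ k * u)) y := by rw [hcomm']
  rw [map_mul, map_mul, act_mul, act_mul, et, act_tv, act_tv, act_add, act_smul, add_right_inj] at h2
  have h3 : act (toQ u) (cst w) = ((cst ψ ⬝ᵥ y)⁻¹ * (cst ψ ⬝ᵥ act (toQ u) y)) • cst w := by
    rw [← smul_smul, ← h2, smul_smul, inv_mul_cancel₀ hy, one_smul]
  refine good_of_line hn hH (H.zpow_mem hgH k) huH hw hψ e h3 ?_
  intro a b hab
  rw [← _root_.zpow_mul] at hab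
  have h4 := hut _ _ hab
  exact ⟨h4.1, (mul_eq_zero.1 h4.2).resolve_left hk⟩

end general

/-- powers of a unipotent in a chain -/
theorem chain_zpow {n : ℕ} {X : SpecialLinearGroup (Fin n) ℚ} {e0 e1 e2 : Fin n → ℚ} {α β : ℚ}
    (h0 : act X e0 = e0 + α • e1 + β • e2) (h1 : act X e1 = e1 + α • e2) (h2 : act X e2 = e2)
    (k : ℤ) : act (X ^ k) e0 = e0 + (k * α) • e1 + (k * β + k * (k - 1) / 2 * α ^ 2) • e2 ∧
      act (X ^ k) e1 = e1 + (k * α) • e2 ∧ act (X ^ k) e2 = e2 := by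
  have i2 : act X⁻¹ e2 = e2 := by
    conv_lhs => rw [← h2]
    rw [act_inv_act]
  have i1 : act X⁻¹ e1 = e1 + (-α) • e2 := by
    have h3 : act X (e1 + (-α) • e2) = e1 := by
      rw [act_add, act_smul, h1, h2, neg_smul]
      abel
    rw [← h3, act_inv_act, h3]
  have i0 : act X⁻¹ e0 = e0 + (-α) • e1 + (α ^ 2 - β) • e2 := by
    have h3 : act X (e0 + (-α) • e1 + (α ^ 2 - β) • e2) = e0 := by
      rw [act_add, act_add, act_smul, act_smul, h0, h1, h2]
      module
    rw [← h3, act_inv_act, h3]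
  induction k with
  | zero => simp [act_one]
  | succ k ih =>
    obtain ⟨j0, j1, j2⟩ := ih
    rw [_root_.zpow_add_one, act_mul, act_mul, act_mul, h0, h1, h2, act_add, act_add, act_smul, act_smul,
      act_add, act_smul, j0, j1, j2]
    push_cast
    refine ⟨?_, ?_, rfl⟩
    · module
    · module
  | pred k ih =>
    obtain ⟨j0, j1, j2⟩ := ih
    rw [_root_.zpow_sub_one, act_mul, act_mul, act_mul, i0, i1, i2, act_add, act_add, act_smul,
      act_smul, act_add, act_smul, j0, j1, j2]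
    push_cast
    refine ⟨?_, ?_, rfl⟩
    · module
    · module

section three

variable {H : Subgroup (SpecialLinearGroup (Fin 3) ℤ)}

/-- the nilpotent part -/
abbrev nil (g : SpecialLinearGroup (Fin 3) ℤ) : Matrix (Fin 3) (Fin 3) ℚ :=
  (toQ g : Matrix (Fin 3) (Fin 3) ℚ) - 1

theorem act_eq_nil (g : SpecialLinearGroup (Fin 3) ℤ) (z : Fin 3 → ℚ) :
    act (toQ g) z = z + nil g *ᵥ z := by
  rw [nil, sub_mulVec, one_mulVec, act]
  abel

/-- a matrix of size three with square zero has rank at most one -/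
theorem rank_one_of_sq {A : Matrix (Fin 3) (Fin 3) ℚ} (hA : A * A = 0) (hA0 : A ≠ 0) :
    ∃ v φ : Fin 3 → ℚ, A = vecMulVec v φ := by
  obtain ⟨e, he⟩ : ∃ e, A *ᵥ e ≠ 0 := by
    by_contra hcon
    push Not at hcon
    exact hA0 (Matrix.ext_of_mulVec_single fun i => by rw [hcon, zero_mulVec])
  -- the range is spanned by `A e`
  have hr : ∀ z, A *ᵥ z ∈ Submodule.span ℚ {A *ᵥ e} := by
    intro z
    by_contra hz
    -- then `A e`, `A z`, `e`, ... are independent: four vectors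
    have hli : LinearIndependent ℚ ![A *ᵥ e, A *ᵥ z, e, z] := by
      rw [Fintype.linearIndependent_iff]
      intro c hc
      simp only [Fin.sum_univ_four, Matrix.cons_val_zero, Matrix.cons_val_one, Matrix.cons_val] at hc
      have h1 := congrArg (fun x => A *ᵥ x) hc
      simp only [mulVec_add, mulVec_smul, mulVec_mulVec, hA, zero_mulVec, smul_zero, zero_add,
        mulVec_zero] at h1
      have h3 : c 3 = 0 := by
        by_contra h3
        apply hz
        rw [Submodule.mem_span_singleton]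
        refine ⟨-((c 3)⁻¹ * c 2), ?_⟩
        have h4 : c 3 • (A *ᵥ z) = -(c 2 • (A *ᵥ e)) := by
          rw [eq_neg_iff_add_eq_zero, add_comm]; exact h1
        rw [neg_smul, ← smul_smul, ← smul_neg, ← h4, smul_smul, inv_mul_cancel₀ h3, one_smul]
      rw [h3, zero_smul, add_zero] at h1
      have h2 : c 2 = 0 := (smul_eq_zero.1 h1).resolve_right he
      rw [h3, h2, zero_smul, zero_smul, add_zero, add_zero] at hc
      have h1' : c 1 = 0 := by
        by_contra h3
        apply hz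
        rw [Submodule.mem_span_singleton]
        refine ⟨-((c 1)⁻¹ * c 0), ?_⟩
        have h4 : c 1 • (A *ᵥ z) = -(c 0 • (A *ᵥ e)) := by
          rw [eq_neg_iff_add_eq_zero, add_comm]; exact hc
        rw [neg_smul, ← smul_smul, ← smul_neg, ← h4, smul_smul, inv_mul_cancel₀ h3, one_smul]
      rw [h1', zero_smul, add_zero] at hc
      have h0 : c 0 = 0 := (smul_eq_zero.1 hc).resolve_right he
      intro i
      fin_cases i <;> assumption
    have := hli.fintype_card_le_finrank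
    simp at this
  have hex : ∀ i : Fin 3, ∃ c : ℚ, A *ᵥ (Pi.single i 1) = c • (A *ᵥ e) := fun i => by
    obtain ⟨c, hc⟩ := Submodule.mem_span_singleton.1 (hr (Pi.single i 1))
    exact ⟨c, hc.symm⟩
  choose φ hφ using hex
  refine ⟨A *ᵥ e, φ, Matrix.ext_of_mulVec_single fun i => ?_⟩
  rw [hφ, vecMulVec_mulVec]
  ext j
  simp [mul_comm]

theorem sq_case (hH : ZariskiDense H) {x y : SpecialLinearGroup (Fin 3) ℤ} (hx : x ∈ H)
    (hy : y ∈ H) (hxy : y * x = x * y) (hsq : nil x * nil x = 0)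
    (h : ∀ a b : ℤ, y ^ a = x ^ b → a = 0 ∧ b = 0) : Good H := by
  have hx1 : x ≠ 1 := by
    rintro rfl
    have := h 0 1 (by simp)
    omega
  have hn0 : nil x ≠ 0 := by
    intro h0
    apply hx1
    apply toQ_injective
    apply sl_ext
    rw [map_one]
    exact sub_eq_zero.1 h0
  obtain ⟨v, φ, hvφ⟩ := rank_one_of_sq hsq hn0
  have h0 : φ ⬝ᵥ v = 0 := by
    have h1 := (toQ x).det_coe
    have h2 : (toQ x : Matrix (Fin 3) (Fin 3) ℚ) = 1 + vecMulVec v φ := by
      rw [← hvφ, nil]; abel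
    rw [h2, det_one_add_vecMulVec] at h1
    linarith
  refine good_of_commute (by norm_num) hH hx hy hx1 h0 ?_ hxy h
  apply sl_ext
  rw [tv_coe, ← hvφ, nil]
  abel

theorem good_three (hH : ZariskiDense H) {x y : SpecialLinearGroup (Fin 3) ℤ} (hx : x ∈ H)
    (hy : y ∈ H) (hxy : x * y = y * x) (hx3 : nil x * nil x * nil x = 0)
    (hy3 : nil y * nil y * nil y = 0)
    (h : ∀ a b : ℤ, x ^ a = y ^ b → a = 0 ∧ b = 0) : Good H := by
  by_cases hx2 : nil x * nil x = 0
  · refine sq_case hH hx hy hxy.symm hx2 fun a b hab => ?_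
    exact (h b a hab.symm).symm
  by_cases hy2 : nil y * nil y = 0
  · exact sq_case hH hy hx hxy hy2 h
  set A := nil x with hA
  set B := nil y with hB
  have hAB : A * B = B * A := by
    have h1 : (toQ x : Matrix (Fin 3) (Fin 3) ℚ) * (toQ y : Matrix (Fin 3) (Fin 3) ℚ) =
        (toQ y : Matrix (Fin 3) (Fin 3) ℚ) * (toQ x : Matrix (Fin 3) (Fin 3) ℚ) := by
      rw [← sl_mul, ← sl_mul, ← map_mul, ← map_mul, hxy]
    rw [hA, hB, nil, nil, sub_mul, mul_sub, sub_mul, mul_sub, h1]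
    simp only [mul_one, one_mul, mul_sub, sub_mul]
    abel
  obtain ⟨e, he⟩ : ∃ e, (A * A) *ᵥ e ≠ 0 := by
    by_contra hcon
    push Not at hcon
    exact hx2 (Matrix.ext_of_mulVec_single fun i => by rw [hcon, zero_mulVec])
  set e1 := A *ᵥ e with he1
  set e2 := A *ᵥ e1 with he2
  have he2' : (A * A) *ᵥ e = e2 := by rw [he2, he1, mulVec_mulVec]
  rw [he2'] at he
  have hAe2 : A *ᵥ e2 = 0 := by
    rw [← he2', mulVec_mulVec, ← mul_assoc, hx3, zero_mulVec]
  have hli : LinearIndependent ℚ ![e, e1, e2] := by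
    rw [Fintype.linearIndependent_iff]
    intro c hc
    simp only [Fin.sum_univ_three, Matrix.cons_val_zero, Matrix.cons_val_one, Matrix.cons_val] at hc
    have h1 := congrArg (fun z => A *ᵥ z) hc
    simp only [mulVec_add, mulVec_smul, mulVec_zero, ← he1, ← he2, hAe2, smul_zero, add_zero] at h1
    have h2 := congrArg (fun z => A *ᵥ z) h1
    simp only [mulVec_add, mulVec_smul, mulVec_zero, ← he2, hAe2, smul_zero, add_zero] at h2
    have c0 : c 0 = 0 := (smul_eq_zero.1 h2).resolve_right he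
    rw [c0, zero_smul, zero_add] at h1
    have c1 : c 1 = 0 := (smul_eq_zero.1 h1).resolve_right he
    rw [c0, c1, zero_smul, zero_smul, zero_add, zero_add] at hc
    have c2 : c 2 = 0 := (smul_eq_zero.1 hc).resolve_right he
    intro i
    fin_cases i <;> assumption
  set b : Module.Basis (Fin 3) ℚ (Fin 3 → ℚ) := basisOfLinearIndependentOfCardEqFinrank hli (by simp)
    with hb
  have hb0 : b 0 = e := by rw [hb]; simp
  have hb1 : b 1 = e1 := by rw [hb]; simp
  have hb2 : b 2 = e2 := by rw [hb]; simp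
  have hsum : ∀ z, b.repr z 0 • e + b.repr z 1 • e1 + b.repr z 2 • e2 = z := by
    intro z
    have := b.sum_repr z
    rwa [Fin.sum_univ_three, hb0, hb1, hb2] at this
  have hABv : ∀ z, A *ᵥ (B *ᵥ z) = B *ᵥ (A *ᵥ z) := by
    intro z
    rw [mulVec_mulVec, mulVec_mulVec, hAB]
  obtain ⟨b0, b1, b2, hBe⟩ : ∃ b0 b1 b2 : ℚ, B *ᵥ e = b0 • e + b1 • e1 + b2 • e2 :=
    ⟨_, _, _, (hsum (B *ᵥ e)).symm⟩
  have hBe1 : B *ᵥ e1 = b0 • e1 + b1 • e2 := by
    rw [he1, ← hABv, hBe, mulVec_add, mulVec_add, mulVec_smul, mulVec_smul, mulVec_smul, hAe2,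
      ← he1, ← he2, smul_zero, add_zero]
  have hBe2 : B *ᵥ e2 = b0 • e2 := by
    rw [he2, ← hABv, hBe1, mulVec_add, mulVec_smul, mulVec_smul, hAe2, ← he2, smul_zero, add_zero]
  have hb00 : b0 = 0 := by
    have h1 : (B * B * B) *ᵥ e2 = (b0 * b0 * b0) • e2 := by
      rw [← mulVec_mulVec, ← mulVec_mulVec, hBe2, mulVec_smul, hBe2, smul_smul, mulVec_smul, hBe2,
        smul_smul]
    rw [hy3, zero_mulVec] at h1
    have h2 := (smul_eq_zero.1 h1.symm).resolve_right he
    have h3 : b0 ^ 3 = 0 := by rw [← h2]; ring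
    exact pow_eq_zero_iff (by norm_num) |>.1 h3
  rw [hb00, zero_smul, zero_add] at hBe hBe1
  rw [hb00, zero_smul] at hBe2
  have x0 : act (toQ x) e = e + (1 : ℚ) • e1 + (0 : ℚ) • e2 := by
    rw [act_eq_nil, ← hA, ← he1]; simp
  have x1 : act (toQ x) e1 = e1 + (1 : ℚ) • e2 := by
    rw [act_eq_nil, ← hA, ← he2]; simp
  have x2 : act (toQ x) e2 = e2 := by
    rw [act_eq_nil, ← hA, hAe2, add_zero]
  have y0 : act (toQ y) e = e + b1 • e1 + b2 • e2 := by
    rw [act_eq_nil, ← hB, hBe, add_assoc]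
  have y1 : act (toQ y) e1 = e1 + b1 • e2 := by
    rw [act_eq_nil, ← hB, hBe1]
  have y2 : act (toQ y) e2 = e2 := by
    rw [act_eq_nil, ← hB, hBe2, add_zero]
  set q : ℤ := (b1.den : ℤ) with hq
  set p : ℤ := b1.num with hp
  have hq0 : q ≠ 0 := by rw [hq]; exact_mod_cast b1.den_nz
  have hpq : (q : ℚ) * b1 = p := by
    rw [hq, hp, mul_comm]; exact_mod_cast Rat.mul_den_eq_num b1
  obtain ⟨X0, X1, X2⟩ := chain_zpow x0 x1 x2 (-p)
  obtain ⟨Y0, Y1, Y2⟩ := chain_zpow y0 y1 y2 q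
  set z := y ^ q * x ^ (-p) with hz
  have z2 : act (toQ z) e2 = e2 := by
    rw [hz, map_mul, map_zpow, map_zpow, act_mul, X2, Y2]
  have z1 : act (toQ z) e1 = e1 := by
    rw [hz, map_mul, map_zpow, map_zpow, act_mul, X1, act_add, act_smul, Y1, Y2, hpq]
    push_cast
    module
  obtain ⟨δ, z0⟩ : ∃ δ : ℚ, act (toQ z) e = e + δ • e2 := by
    refine ⟨((q : ℚ) * b2 + q * (q - 1) / 2 * b1 ^ 2) + (-(p : ℚ)) * (q * b1) +
      ((-(p : ℚ)) * (-(p : ℚ) - 1) / 2), ?_⟩
    rw [hz, map_mul, map_zpow, map_zpow, act_mul, X0, act_add, act_add, act_smul, act_smul, Y0, Y1,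
      Y2]
    push_cast
    rw [hpq]
    module
  -- the form
  obtain ⟨η, hη⟩ := exists_dot (b.coord 0)
  have hηe : η ⬝ᵥ e = 1 := by rw [hη, ← hb0, Module.Basis.coord_apply, Module.Basis.repr_self]; simp
  have hηe1 : η ⬝ᵥ e1 = 0 := by
    rw [hη, ← hb1, Module.Basis.coord_apply, Module.Basis.repr_self]; simp
  have hηe2 : η ⬝ᵥ e2 = 0 := by
    rw [hη, ← hb2, Module.Basis.coord_apply, Module.Basis.repr_self]; simp
  have hz1 : z ≠ 1 := by
    intro h1
    have h2 : x ^ p = y ^ q := by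
      rw [hz, _root_.zpow_neg, mul_inv_eq_one] at h1
      exact h1.symm
    exact hq0 (h _ _ h2).2
  have h0 : (δ • η) ⬝ᵥ e2 = 0 := by rw [smul_dotProduct, hηe2, smul_zero]
  have hzt : toQ z = tv e2 (δ • η) h0 := by
    apply sl_ext
    have key : ∀ w, act (toQ z) w = act (tv e2 (δ • η) h0) w := by
      intro w
      rw [← hsum w, act_add, act_add, act_smul, act_smul, act_smul, z0, z1, z2, act_add, act_add,
        act_smul, act_smul, act_smul, act_tv, act_tv, act_tv, smul_dotProduct, smul_dotProduct,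
        smul_dotProduct, hηe, hηe1, hηe2]
      simp
    exact Matrix.ext_of_mulVec_single fun i => key _
  have hcx : Commute x z := by
    have h1 : Commute x y := hxy
    rw [hz]
    exact (h1.zpow_right q).mul_right ((Commute.refl x).zpow_right _)
  refine good_of_commute (by norm_num) hH (H.mul_mem (H.zpow_mem hy q) (H.zpow_mem hx (-p))) hx hz1 h0
    hzt hcx.eq ?_
  intro a c hac
  have h1 : Commute (y ^ q) (x ^ (-p)) := by
    have h1 : Commute y x := hxy.symm
    exact (h1.zpow_left q).zpow_right _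
  rw [h1.mul_zpow, ← _root_.zpow_mul, ← _root_.zpow_mul] at hac
  have h2 : x ^ (a + p * c) = y ^ (q * c) := by
    rw [_root_.zpow_add, hac, mul_assoc, ← _root_.zpow_add]
    have : -p * c + p * c = 0 := by ring
    rw [this, zpow_zero, mul_one]
  obtain ⟨h3, h4⟩ := h _ _ h2
  have h5 : c = 0 := (mul_eq_zero.1 h4).resolve_left hq0
  rw [h5, mul_zero, add_zero] at h3
  exact ⟨h3, h5⟩

end three

end Pool.Agent.T2H86.TV
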