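import Pool.Agent.T2H86.TV.PackG

/-!
# Rational transvections having a power in `H`
-/

set_option autoImplicit false

namespace Pool.Agent.T2H86.TV

open Matrix

variable {n : ℕ}

/-- some positive power of the rational transvection `1 + v φ` lies in `H` -/
def Tr (H : Subgroup (SpecialLinearGroup (Fin n) ℤ)) (v φ : Fin n → ℚ) : Prop :=
  φ ⬝ᵥ v = 0 ∧ ∃ N : ℕ, 0 < N ∧ ∃ h ∈ H,
    (toQ h : Matrix (Fin n) (Fin n) ℚ) = 1 + vecMulVec v ((N : ℚ) • φ)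

variable {H : Subgroup (SpecialLinearGroup (Fin n) ℤ)}

theorem dot_smul_zero {v φ : Fin n → ℚ} (h : φ ⬝ᵥ v = 0) (c : ℚ) : (c • φ) ⬝ᵥ v = 0 := by
  rw [smul_dotProduct, h, smul_zero]

theorem Tr.exists_tv {v φ : Fin n → ℚ} (h : Tr H v φ) : ∃ N : ℕ, 0 < N ∧ ∃ g ∈ H,
    toQ g = tv v ((N : ℚ) • φ) (dot_smul_zero h.1 _) := by
  obtain ⟨h0, N, hN, g, hg, e⟩ := h
  exact ⟨N, hN, g, hg, sl_ext e⟩

theorem Tr.of_tv {v φ : Fin n → ℚ} (h0 : φ ⬝ᵥ v = 0) {N : ℕ} (hN : 0 < N)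
    {g : SpecialLinearGroup (Fin n) ℤ} (hg : g ∈ H)
    (e : toQ g = tv v ((N : ℚ) • φ) (dot_smul_zero h0 _)) : Tr H v φ :=
  ⟨h0, N, hN, g, hg, by rw [e]; rfl⟩

theorem Tr.zero_right (v : Fin n → ℚ) : Tr H v 0 := by
  refine ⟨zero_dotProduct _, 1, one_pos, 1, H.one_mem, ?_⟩
  rw [map_one, smul_zero, vecMulVec_zero, add_zero]
  rfl

theorem Tr.zero_left (φ : Fin n → ℚ) : Tr H 0 φ := by
  refine ⟨dotProduct_zero _, 1, one_pos, 1, H.one_mem, ?_⟩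
  rw [map_one, zero_vecMulVec, add_zero]
  rfl

theorem Tr.smul_right {v φ : Fin n → ℚ} (h : Tr H v φ) (c : ℚ) : Tr H v (c • φ) := by
  obtain ⟨N, hN, g, hg, e⟩ := h.exists_tv
  have h0 : (c • φ) ⬝ᵥ v = 0 := dot_smul_zero h.1 c
  refine Tr.of_tv h0 (N := N * c.den) (Nat.mul_pos hN c.den_pos) (H.zpow_mem hg c.num) ?_
  rw [map_zpow, e, tv_zpow _ _ _ _ (dot_smul_zero (dot_smul_zero h.1 _) _)]
  apply tv_congr
  congr 1
  rw [smul_smul, smul_smul]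
  congr 1
  push_cast
  have h1 : (c.den : ℚ) * c = c.num := by
    rw [mul_comm]
    exact_mod_cast Rat.mul_den_eq_num c
  rw [mul_assoc, h1, mul_comm]

theorem Tr.smul_left {v φ : Fin n → ℚ} (h : Tr H v φ) (c : ℚ) : Tr H (c • v) φ := by
  obtain ⟨h0, N, hN, g, hg, e⟩ := h.smul_right c
  refine ⟨by rw [dotProduct_smul, h.1, smul_zero], N, hN, g, hg, ?_⟩
  rw [e, smul_comm, vecMulVec_smul, smul_vecMulVec]

theorem Tr.add_right {v φ ψ : Fin n → ℚ} (h : Tr H v φ) (h' : Tr H v ψ) : Tr H v (φ + ψ) := by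
  obtain ⟨N, hN, g, hg, e⟩ := h.exists_tv
  obtain ⟨M, hM, g', hg', e'⟩ := h'.exists_tv
  have h0 : (φ + ψ) ⬝ᵥ v = 0 := by rw [add_dotProduct, h.1, h'.1, add_zero]
  refine Tr.of_tv h0 (N := N * M) (Nat.mul_pos hN hM)
    (H.mul_mem (H.pow_mem hg M) (H.pow_mem hg' N)) ?_
  have h1 : (((M : ℚ) • (N : ℚ) • φ) + ((N : ℚ) • (M : ℚ) • ψ)) ⬝ᵥ v = 0 := by
    simp [add_dotProduct, h.1, h'.1]
  rw [map_mul, map_pow, map_pow, e, e', tv_pow _ _ _ _ (dot_smul_zero (dot_smul_zero h.1 _) _),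
    tv_pow _ _ _ _ (dot_smul_zero (dot_smul_zero h'.1 _) _), tv_mul_right _ _ _ _ _ h1]
  apply tv_congr
  congr 1
  push_cast
  rw [smul_add, smul_smul, smul_smul, mul_comm (M : ℚ)]

theorem Tr.add_left {v w φ : Fin n → ℚ} (h : Tr H v φ) (h' : Tr H w φ) : Tr H (v + w) φ := by
  obtain ⟨N, hN, g, hg, e⟩ := h.exists_tv
  obtain ⟨M, hM, g', hg', e'⟩ := h'.exists_tv
  have h0 : φ ⬝ᵥ (v + w) = 0 := by rw [dotProduct_add, h.1, h'.1, add_zero]
  refine Tr.of_tv h0 (N := N * M) (Nat.mul_pos hN hM)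
    (H.mul_mem (H.pow_mem hg M) (H.pow_mem hg' N)) ?_
  have h2 : (M : ℚ) • (N : ℚ) • φ = ((N * M : ℕ) : ℚ) • φ := by
    rw [smul_smul]; push_cast; rw [mul_comm]
  have h3 : (N : ℚ) • (M : ℚ) • φ = ((N * M : ℕ) : ℚ) • φ := by
    rw [smul_smul]; push_cast; rfl
  have e1 : toQ (g ^ M) = tv v (((N * M : ℕ) : ℚ) • φ) (dot_smul_zero h.1 _) := by
    rw [map_pow, e, tv_pow _ _ _ _ (dot_smul_zero (dot_smul_zero h.1 _) _)]
    apply tv_congr
    rw [h2]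
  have e2 : toQ (g' ^ N) = tv w (((N * M : ℕ) : ℚ) • φ) (dot_smul_zero h'.1 _) := by
    rw [map_pow, e', tv_pow _ _ _ _ (dot_smul_zero (dot_smul_zero h'.1 _) _)]
    apply tv_congr
    rw [h3]
  rw [map_mul, e1, e2, tv_mul_left]

theorem Tr.neg_right {v φ : Fin n → ℚ} (h : Tr H v φ) : Tr H v (-φ) := by
  have := h.smul_right (-1)
  rwa [neg_one_smul] at this

theorem Tr.sub_right {v φ ψ : Fin n → ℚ} (h : Tr H v φ) (h' : Tr H v ψ) : Tr H v (φ - ψ) := by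
  rw [sub_eq_add_neg]
  exact h.add_right h'.neg_right

theorem Tr.conj {v φ : Fin n → ℚ} (h : Tr H v φ) {g : SpecialLinearGroup (Fin n) ℤ} (hg : g ∈ H) :
    Tr H (act (toQ g) v) (cact (toQ g) φ) := by
  obtain ⟨N, hN, x, hx, e⟩ := h.exists_tv
  have h0 : cact (toQ g) φ ⬝ᵥ act (toQ g) v = 0 := by rw [cact_dot_act, h.1]
  refine Tr.of_tv h0 hN (H.mul_mem (H.mul_mem hg hx) (H.inv_mem hg)) ?_
  have h1 : cact (toQ g) ((N : ℚ) • φ) ⬝ᵥ act (toQ g) v = 0 := by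
    rw [cact_dot_act, dot_smul_zero h.1]
  rw [map_mul, map_mul, map_inv, e, conj_tv _ _ _ _ h1]
  apply tv_congr
  rw [cact_smul]

/-- the commutator of two transvections -/
theorem Tr.comm {v φ w ψ : Fin n → ℚ} (h : Tr H v φ) (h' : Tr H w ψ) (h0 : φ ⬝ᵥ w = 0)
    (h1 : ψ ⬝ᵥ v ≠ 0) : Tr H w φ := by
  obtain ⟨N, hN, g, hg, e⟩ := h.exists_tv
  have h2 := h'.conj hg
  rw [e, act_tv, cact_tv, smul_dotProduct, h0, smul_zero, zero_smul, add_zero] at h2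
  have h3 := h2.sub_right h'
  have h4 : ψ - (ψ ⬝ᵥ v) • (N : ℚ) • φ - ψ = (-((ψ ⬝ᵥ v) * N)) • φ := by
    rw [smul_smul, neg_smul]
    abel
  rw [h4] at h3
  have h5 := h3.smul_right ((-((ψ ⬝ᵥ v) * N))⁻¹)
  have hN' : (N : ℚ) ≠ 0 := by exact_mod_cast hN.ne'
  rwa [smul_smul, inv_mul_cancel₀ (neg_ne_zero.2 (mul_ne_zero h1 hN')), one_smul] at h5

/-- the forms of a given vector -/
def Wv (H : Subgroup (SpecialLinearGroup (Fin n) ℤ)) (v : Fin n → ℚ) :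
    Submodule ℚ (Fin n → ℚ) where
  carrier := {φ | Tr H v φ}
  add_mem' := fun h h' => h.add_right h'
  zero_mem' := Tr.zero_right v
  smul_mem' := fun c _ h => h.smul_right c

/-- the vectors of a given form -/
def Wf (H : Subgroup (SpecialLinearGroup (Fin n) ℤ)) (φ : Fin n → ℚ) :
    Submodule ℚ (Fin n → ℚ) where
  carrier := {v | Tr H v φ}
  add_mem' := fun h h' => h.add_left h'
  zero_mem' := Tr.zero_left φ
  smul_mem' := fun c _ h => h.smul_left c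

theorem mem_Wv {v φ : Fin n → ℚ} : φ ∈ Wv H v ↔ Tr H v φ := Iff.rfl

theorem mem_Wf {v φ : Fin n → ℚ} : v ∈ Wf H φ ↔ Tr H v φ := Iff.rfl

/-! ### linear algebra -/

/-- separation of a vector from a subspace by a form -/
theorem exists_form (S : Submodule ℚ (Fin n → ℚ)) {x : Fin n → ℚ} (hx : x ∉ S) :
    ∃ η : Fin n → ℚ, (∀ s ∈ S, η ⬝ᵥ s = 0) ∧ η ⬝ᵥ x = 1 := by
  obtain ⟨f, hf, hS⟩ := Submodule.exists_le_ker_of_notMem hx
  have key : ∀ y : Fin n → ℚ, (fun j => f (Pi.single j 1)) ⬝ᵥ y = f y := by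
    intro y
    conv_rhs => rw [pi_eq_sum_univ' y]
    rw [map_sum, dotProduct]
    refine Finset.sum_congr rfl fun j _ => ?_
    rw [map_smul, smul_eq_mul, mul_comm]
  refine ⟨(f x)⁻¹ • (fun j => f (Pi.single j 1)), fun s hs => ?_, ?_⟩
  · rw [smul_dotProduct, key, LinearMap.mem_ker.1 (hS hs), smul_zero]
  · rw [smul_dotProduct, key, smul_eq_mul, inv_mul_cancel₀ hf]

theorem tv_mem_GG {x ξ : Fin n → ℚ} (h : ξ ⬝ᵥ x = 0) : tv x ξ h ∈ GG n :=
  Subgroup.subset_closure ⟨x, ξ, h, rfl⟩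

theorem notMem_span_singleton {u v : Fin n → ℚ} (φ : Fin n → ℚ) (h : φ ⬝ᵥ u = 0)
    (h' : φ ⬝ᵥ v ≠ 0) : v ∉ Submodule.span ℚ {u} := by
  intro hv
  obtain ⟨c, rfl⟩ := Submodule.mem_span_singleton.1 hv
  exact h' (by rw [dotProduct_smul, h, smul_zero])

/-- transitivity on vectors -/
theorem GG_trans_aux {u v : Fin n → ℚ} (hu : u ≠ 0) (huv : v ∉ Submodule.span ℚ {u}) :
    ∃ g ∈ GG n, act g u = v := by
  have h1 : u ∉ Submodule.span ℚ {v - u} := by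
    intro h
    obtain ⟨c, hc⟩ := Submodule.mem_span_singleton.1 h
    have hc0 : c ≠ 0 := by
      rintro rfl
      exact hu (by rw [← hc, zero_smul])
    apply huv
    rw [Submodule.mem_span_singleton]
    refine ⟨c⁻¹ * (1 + c), ?_⟩
    have h2 : c • v = (1 + c) • u := by
      rw [add_smul, one_smul]
      nth_rewrite 1 [← hc]
      rw [smul_sub]
      abel
    rw [← smul_smul, ← h2, smul_smul, inv_mul_cancel₀ hc0, one_smul]
  obtain ⟨η, hη, hη1⟩ := exists_form _ h1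
  have h0 : η ⬝ᵥ (v - u) = 0 := hη _ (Submodule.mem_span_singleton_self _)
  refine ⟨tv (v - u) η h0, tv_mem_GG h0, ?_⟩
  rw [act_tv, hη1, one_smul]
  abel

theorem exists_notMem_span (hn : 2 ≤ n) (u : Fin n → ℚ) : ∃ w, w ∉ Submodule.span ℚ {u} := by
  by_contra hcon
  push Not at hcon
  have h1 : Submodule.span ℚ {u} = ⊤ := by
    rw [eq_top_iff]
    exact fun x _ => hcon x
  have h2 : Module.finrank ℚ (Submodule.span ℚ {u}) ≤ 1 := by
    have := finrank_span_le_card (R := ℚ) ({u} : Set (Fin n → ℚ))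
    simpa using this
  rw [h1, finrank_top, Module.finrank_fin_fun] at h2
  omega

theorem GG_trans (hn : 2 ≤ n) {u v : Fin n → ℚ} (hu : u ≠ 0) (hv : v ≠ 0) :
    ∃ g ∈ GG n, act g u = v := by
  by_cases huv : v ∈ Submodule.span ℚ {u}
  · obtain ⟨w, hw⟩ := exists_notMem_span hn u
    obtain ⟨c, hc⟩ := Submodule.mem_span_singleton.1 huv
    have hc0 : c ≠ 0 := by
      rintro rfl
      exact hv (by rw [← hc, zero_smul])
    have hw0 : w ≠ 0 := by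
      rintro rfl
      exact hw (Submodule.zero_mem _)
    have hvw : v ∉ Submodule.span ℚ {w} := by
      intro h
      obtain ⟨d, hd⟩ := Submodule.mem_span_singleton.1 h
      have hd0 : d ≠ 0 := by
        rintro rfl
        exact hv (by rw [← hd, zero_smul])
      apply hw
      rw [Submodule.mem_span_singleton]
      refine ⟨d⁻¹ * c, ?_⟩
      rw [← smul_smul, hc, ← hd, smul_smul, inv_mul_cancel₀ hd0, one_smul]
    obtain ⟨g, hg, e⟩ := GG_trans_aux hu hw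
    obtain ⟨g', hg', e'⟩ := GG_trans_aux hw0 hvw
    exact ⟨g' * g, (GG n).mul_mem hg' hg, by rw [act_mul, e, e']⟩
  · exact GG_trans_aux hu huv

end Pool.Agent.T2H86.TV
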